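import Pool.Agent.W_aaa0df_h86.BallA

set_option autoImplicit false

namespace Twist

open Finset Real MPaaa0df

lemma ballb_fin (d : ℤ) (y : ℝ) : {p : ℕ | p.Prime ∧ (p : ℝ) < y ∧ ¬ ((p : ℤ) ∣ d) ∧
    ∃ x : ℤ, (4 * (p : ℤ)) ∣ x ^ 2 - d}.Finite := by
  apply (Set.finite_lt_nat ⌈y⌉₊).subset
  rintro p ⟨_, h, _⟩
  exact Nat.lt_ceil.2 h

lemma ballb_mono (d : ℤ) {y z : ℝ} (h : y ≤ z) : splitCount d y ≤ splitCount d z := by
  unfold splitCount
  apply Set.ncard_le_ncard _ (ballb_fin d z)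
  rintro p ⟨h1, h2, h3⟩
  exact ⟨h1, h2.trans_le h, h3⟩

lemma ballb_exp : Real.exp 2 ≤ 10 := by
  have h1 : Real.exp 2 = Real.exp 1 * Real.exp 1 := by
    rw [← Real.exp_add]; norm_num
  have h2 := Real.exp_one_lt_d9
  have h3 := Real.exp_pos 1
  rw [h1]
  nlinarith

/-- `N(d)` dominates the number of split primes below `(log |d₀|)²`.
Proof. `near_size`: `log |d| ≥ ℓ - log 4 - log E ≥ ℓ/2`, so
`threshold d = (log|d|)² (log log |d|)² ≥ (ℓ/2)² (log (ℓ/2))² ≥ ℓ²` for large `ℓ`; `splitCount` is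
monotone in the threshold. -/
theorem N_ge : ∃ D : ℝ, ∀ d₀ : ℤ, Fund d₀ → D ≤ |(d₀ : ℝ)| → ∀ E : ℝ, 1 ≤ E →
    log E ≤ log |(d₀ : ℝ)| / 4 → ∀ d : ℤ, Near d₀ E d →
      splitCount d (log |(d₀ : ℝ)| ^ (2 : ℝ)) ≤ N d := by
  refine ⟨Real.exp 20, fun d₀ hF hD E hE hlE d hd => ?_⟩
  have hl : 20 ≤ log |(d₀ : ℝ)| := by
    have h1 : (0 : ℝ) < |(d₀ : ℝ)| := (Real.exp_pos 20).trans_le hD
    rw [Real.le_log_iff_exp_le h1]
    exact hD
  have hns := (near_size hF hd).2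
  set l : ℝ := log |(d₀ : ℝ)| with hldef
  have h4 : log 4 ≤ 2 := by
    rw [Real.log_le_iff_le_exp (by norm_num)]
    have h1 : Real.exp 2 = Real.exp 1 * Real.exp 1 := by
      rw [← Real.exp_add]; norm_num
    have h2 := Real.exp_one_gt_d9
    rw [h1]
    nlinarith
  have hm : l / 2 ≤ log |(d : ℝ)| := by linarith
  have hm2 : 2 ≤ log (log |(d : ℝ)|) := by
    rw [Real.le_log_iff_exp_le (by linarith)]
    linarith [ballb_exp]
  unfold N
  apply ballb_mono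
  unfold threshold
  have h5 : l ^ (2 : ℝ) = l ^ 2 := by
    rw [← Real.rpow_natCast]; norm_num
  rw [h5]
  have h6 : l ^ 2 = (l / 2) ^ 2 * 2 ^ 2 := by ring
  rw [h6]
  apply mul_le_mul
  · exact pow_le_pow_left₀ (by linarith) hm 2
  · exact pow_le_pow_left₀ (by norm_num) hm2 2
  · norm_num
  · positivity

lemma ballb_large (K : ℝ) : ∃ L : ℝ, ∀ l : ℝ, L ≤ l → K * log l ≤ l ^ (1 / 8 : ℝ) ∧
    K * log l ≤ l / 4 := by
  have h1 := (isLittleO_log_rpow_atTop (show (0 : ℝ) < 1 / 8 by norm_num)).const_mul_left K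
  have h2 := (isLittleO_log_rpow_atTop (show (0 : ℝ) < 1 by norm_num)).const_mul_left K
  have h3 := h1.bound (show (0 : ℝ) < 1 by norm_num)
  have h4 := h2.bound (show (0 : ℝ) < 1 / 4 by norm_num)
  obtain ⟨L, hL⟩ := Filter.eventually_atTop.1 (h3.and h4)
  refine ⟨max L 1, fun l hl => ?_⟩
  have hl1 : 1 ≤ l := (le_max_right _ _).trans hl
  obtain ⟨h5, h6⟩ := hL l ((le_max_left _ _).trans hl)
  rw [Real.norm_eq_abs, Real.norm_eq_abs] at h5 h6
  rw [abs_of_nonneg (Real.rpow_nonneg (by linarith) _)] at h5 h6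
  rw [Real.rpow_one] at h6
  constructor
  · have := le_abs_self (K * log l)
    linarith
  · have := le_abs_self (K * log l)
    linarith

/-- The count for `N(d)` in balls of radius a power of `log |d₀|`.
Proof. `ball_count` with `β = A = 2`, `E = ℓ^K` (`K log ℓ ≤ ℓ^(1/8)` for large `ℓ`), `y = ℓ²`, and
`N_ge`: `N d < (1/2 - δ) π(y)` implies `δ π(y) < π(y)/2 - splitCount d y`. The bound is
`(C (K+1) log ℓ)^(12 + 8K) ≤ C' (log ℓ)^C'`. -/
theorem ball_N (δ K : ℝ) (hδ : 0 < δ) (hK : 0 ≤ K) :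
    ∃ C D : ℝ, ∀ d₀ : ℤ, d₀ < 0 → Fund d₀ → D ≤ |(d₀ : ℝ)| → ∀ s : Finset ℤ,
      (∀ d ∈ s, Near d₀ (log |(d₀ : ℝ)| ^ K) d ∧
        (N d : ℝ) < (1 / 2 - δ) * primeCount (log |(d₀ : ℝ)| ^ (2 : ℝ))) →
      (s.card : ℝ) ≤ C * log (log |(d₀ : ℝ)|) ^ C := by
  obtain ⟨C₀, D₀, hC₀, hb⟩ := ball_count 2 2 δ (by norm_num) le_rfl hδ
  obtain ⟨D₁, hN⟩ := N_ge
  obtain ⟨L, hL⟩ := ballb_large K
  set C : ℝ := max ((C₀ * (K + 1)) ^ (12 + 8 * K)) (12 + 8 * K) with hC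
  refine ⟨C, max (max D₀ D₁) (Real.exp (max L 3)), fun d₀ h₀ hF hD s hs => ?_⟩
  have hD0 : D₀ ≤ |(d₀ : ℝ)| := (le_max_left _ _).trans ((le_max_left _ _).trans hD)
  have hD1 : D₁ ≤ |(d₀ : ℝ)| := (le_max_right _ _).trans ((le_max_left _ _).trans hD)
  have hDL : Real.exp (max L 3) ≤ |(d₀ : ℝ)| := (le_max_right _ _).trans hD
  have hpos : (0 : ℝ) < |(d₀ : ℝ)| := (Real.exp_pos _).trans_le hDL
  have hlm : max L 3 ≤ log |(d₀ : ℝ)| := by
    rw [Real.le_log_iff_exp_le hpos]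
    exact hDL
  set l : ℝ := log |(d₀ : ℝ)| with hldef
  have hl3 : 3 ≤ l := (le_max_right _ _).trans hlm
  obtain ⟨hK8, hK4⟩ := hL l ((le_max_left _ _).trans hlm)
  have hl0 : (0 : ℝ) < l := by linarith
  have hlogl : 1 ≤ log l := by
    rw [Real.le_log_iff_exp_le hl0]
    linarith [Real.exp_one_lt_d9]
  have hE : 1 ≤ l ^ K := Real.one_le_rpow (by linarith) hK
  have hlE : log (l ^ K) = K * log l := Real.log_rpow hl0 K
  have h1 := hb d₀ h₀ hF hD0 (l ^ K) hE (by rw [hlE]; exact hK8) (l ^ (2 : ℝ)) le_rfl le_rfl s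
    (fun d hd => by
      obtain ⟨h2, h3⟩ := hs d hd
      refine ⟨h2, ?_⟩
      have h4 : splitCount d (l ^ (2 : ℝ)) ≤ N d :=
        hN d₀ hF hD1 (l ^ K) hE (by rw [hlE]; exact hK4) d h2
      have h5 : (splitCount d (l ^ (2 : ℝ)) : ℝ) ≤ (N d : ℝ) := by exact_mod_cast h4
      rw [lt_abs]
      right
      linarith)
  rw [hlE] at h1
  have h6 : 12 + 8 * (K * log l) / log l = 12 + 8 * K := by
    field_simp
  rw [h6] at h1
  have h7 : C₀ * (K * log l + log l) = (C₀ * (K + 1)) * log l := by ring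
  have hCK : 0 ≤ C₀ * (K + 1) := by
    apply mul_nonneg <;> linarith
  rw [h7, Real.mul_rpow hCK (by linarith)] at h1
  refine h1.trans ?_
  apply mul_le_mul
  · exact le_max_left _ _
  · exact Real.rpow_le_rpow_of_exponent_le hlogl (le_max_right _ _)
  · exact Real.rpow_nonneg (by linarith) _
  · exact le_trans (by linarith : (0 : ℝ) ≤ 12 + 8 * K) (le_max_right _ _)

end Twist
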