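import Mathlib

set_option autoImplicit false

namespace Twist

open Finset Real

theorem abelineq_aux1 {a : ℕ → ℝ} {q : ℝ} (ha : ∀ N : ℕ, |∑ n ∈ Icc 1 N, a n| ≤ q)
    {φ : ℕ → ℝ} {M : ℕ} (h1 : 0 ≤ φ (M + 1)) (j : ℕ)
    (hφ : ∀ n, M + 1 ≤ n → n < M + 1 + j → φ (n + 1) ≤ φ n) :
    |(∑ n ∈ Ioc M (M + 1 + j), a n * φ n) - (∑ n ∈ Icc 1 (M + 1 + j), a n) * φ (M + 1 + j)| ≤
      q * φ (M + 1) + q * (φ (M + 1) - φ (M + 1 + j)) := by
  induction j with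
  | zero =>
    rw [add_zero, sub_self, mul_zero, add_zero]
    have h2 : ∑ n ∈ Ioc M (M + 1), a n * φ n = a (M + 1) * φ (M + 1) := by
      rw [Finset.sum_Ioc_succ_top (le_refl M), Finset.Ioc_self, Finset.sum_empty, zero_add]
    have h3 : ∑ n ∈ Icc 1 (M + 1), a n = (∑ n ∈ Icc 1 M, a n) + a (M + 1) :=
      Finset.sum_Icc_succ_top (by omega) _
    have h4 : a (M + 1) * φ (M + 1) - ((∑ n ∈ Icc 1 M, a n) + a (M + 1)) * φ (M + 1) =
        -((∑ n ∈ Icc 1 M, a n) * φ (M + 1)) := by ring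
    rw [h2, h3, h4, abs_neg, abs_mul, abs_of_nonneg h1]
    exact mul_le_mul_of_nonneg_right (ha M) h1
  | succ j ih =>
    have ih' := ih (fun n hn hn' => hφ n hn (by omega))
    have h2 : ∑ n ∈ Ioc M (M + 1 + (j + 1)), a n * φ n =
        (∑ n ∈ Ioc M (M + 1 + j), a n * φ n) + a (M + 1 + j + 1) * φ (M + 1 + j + 1) :=
      Finset.sum_Ioc_succ_top (show M ≤ M + 1 + j by omega) _
    have h3 : ∑ n ∈ Icc 1 (M + 1 + (j + 1)), a n =
        (∑ n ∈ Icc 1 (M + 1 + j), a n) + a (M + 1 + j + 1) :=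
      Finset.sum_Icc_succ_top (show 1 ≤ M + 1 + j + 1 by omega) _
    have h4 : φ (M + 1 + (j + 1)) = φ (M + 1 + j + 1) := rfl
    have h5 := hφ (M + 1 + j) (by omega) (by omega)
    rw [h2, h3, h4]
    have h6 : (∑ n ∈ Ioc M (M + 1 + j), a n * φ n) + a (M + 1 + j + 1) * φ (M + 1 + j + 1) -
        ((∑ n ∈ Icc 1 (M + 1 + j), a n) + a (M + 1 + j + 1)) * φ (M + 1 + j + 1) =
        ((∑ n ∈ Ioc M (M + 1 + j), a n * φ n) -
          (∑ n ∈ Icc 1 (M + 1 + j), a n) * φ (M + 1 + j)) +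
        (∑ n ∈ Icc 1 (M + 1 + j), a n) * (φ (M + 1 + j) - φ (M + 1 + j + 1)) := by ring
    rw [h6]
    have h7 : |(∑ n ∈ Icc 1 (M + 1 + j), a n) * (φ (M + 1 + j) - φ (M + 1 + j + 1))| ≤
        q * (φ (M + 1 + j) - φ (M + 1 + j + 1)) := by
      rw [abs_mul, abs_of_nonneg (sub_nonneg.2 h5)]
      exact mul_le_mul_of_nonneg_right (ha _) (sub_nonneg.2 h5)
    refine (abs_add_le _ _).trans ((add_le_add ih' h7).trans_eq ?_)
    ring

/-- Abel's inequality for a nonincreasing nonnegative weight.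
Proof. With `A N = ∑_{n ∈ Icc 1 N} a n`, `|A N| ≤ q`:
`∑_{n ∈ Ioc M N} a n φ n = A N φ N - A M φ (M+1) + ∑_{M+1 ≤ n < N} A n (φ n - φ (n+1))` for `M < N`,
and the absolute value is at most `q φ N + q φ(M+1) + q (φ(M+1) - φ N) = 2 q φ(M+1)`.
(Induction on `N`, or `Finset.sum_by_parts` variants.) -/
theorem abel_ineq {a : ℕ → ℝ} {q : ℝ} (ha : ∀ N : ℕ, |∑ n ∈ Icc 1 N, a n| ≤ q)
    {φ : ℕ → ℝ} {M N : ℕ} (hφ : ∀ n, M + 1 ≤ n → n < N → φ (n + 1) ≤ φ n)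
    (hpos : ∀ n, M + 1 ≤ n → n ≤ N → 0 ≤ φ n) (h1 : 0 ≤ φ (M + 1)) :
    |∑ n ∈ Ioc M N, a n * φ n| ≤ 2 * q * φ (M + 1) := by
  have hq : 0 ≤ q := by
    have h2 := ha 0
    rw [Finset.Icc_eq_empty (by omega), Finset.sum_empty, abs_zero] at h2
    exact h2
  rcases Nat.lt_or_ge M N with h | h
  · obtain ⟨j, rfl⟩ := Nat.exists_eq_add_of_le (show M + 1 ≤ N from h)
    have h2 := abelineq_aux1 ha h1 j hφ
    have h3 := hpos (M + 1 + j) (by omega) le_rfl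
    have h4 : |(∑ n ∈ Icc 1 (M + 1 + j), a n) * φ (M + 1 + j)| ≤ q * φ (M + 1 + j) := by
      rw [abs_mul, abs_of_nonneg h3]
      exact mul_le_mul_of_nonneg_right (ha _) h3
    have h5 := abs_add_le ((∑ n ∈ Ioc M (M + 1 + j), a n * φ n) -
      (∑ n ∈ Icc 1 (M + 1 + j), a n) * φ (M + 1 + j))
      ((∑ n ∈ Icc 1 (M + 1 + j), a n) * φ (M + 1 + j))
    rw [sub_add_cancel] at h5
    refine h5.trans ((add_le_add h2 h4).trans_eq ?_)
    ring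
  · rw [Finset.Ioc_eq_empty (by omega), Finset.sum_empty, abs_zero]
    exact mul_nonneg (mul_nonneg zero_le_two hq) h1

end Twist
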