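import Mathlib

set_option autoImplicit false

namespace Twist

/-- If `n ≡ 1` modulo `4 t` then `J(t|n) = 1`. -/
theorem nonres_aux1 (t n : ℕ) (ht : 0 < t) (hn : n % (4 * t) = 1) :
    jacobiSym (t : ℤ) n = 1 := by
  have hodd : Odd n := by
    rw [Nat.odd_iff]
    have h1 : n % (4 * t) % 2 = n % 2 := Nat.mod_mod_of_dvd n ⟨2 * t, by ring⟩
    omega
  rw [jacobiSym.mod_right' _ hodd, hn, jacobiSym.one_right]

/-- CRT: `n ≡ a` modulo `p ^ e`, `n ≡ 1` modulo `k` times the part of `m` prime to `p`, if `k` is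
prime to `p`. -/
theorem nonres_aux2 (p q a M : ℕ) (hqM : Nat.Coprime q M) (hpq : p ∣ q) (hp : p.Prime)
    (ha : ¬ p ∣ a) (hM : 1 < M) :
    ∃ n : ℕ, n % q = a % q ∧ n % M = 1 ∧ Nat.Coprime n p ∧ Nat.Coprime n M := by
  obtain ⟨n, h1, h2⟩ := Nat.chineseRemainder hqM a 1
  refine ⟨n, h1, ?_, ?_, ?_⟩
  · have h3 : n % M = 1 % M := h2
    rwa [Nat.mod_eq_of_lt hM] at h3
  · rw [Nat.coprime_comm, Nat.Prime.coprime_iff_not_dvd hp]
    intro h
    apply ha
    have h4 : n ≡ a [MOD p] := Nat.ModEq.of_dvd hpq h1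
    exact (Nat.modEq_zero_iff_dvd.1 (h4.symm.trans (Nat.modEq_zero_iff_dvd.2 h)))
  · have h5 : Nat.gcd n M = Nat.gcd 1 M := Nat.ModEq.gcd_eq h2
    rw [Nat.Coprime, h5, Nat.gcd_one_left]

/-- For a non-square `m ≥ 1` there is an odd `n` with `(m/n) = -1` (Jacobi symbol).
Proof. Write `m = s f²` with `s` squarefree (`Nat.sq_mul_squarefree`), `s > 1`. Then for odd `n` coprime
to `f`, `J(m|n) = J(s|n)`.
Case 1: `s` has an odd prime factor `p`; `s = p s'`, or `s = 2 p s'`, `s'` odd coprime to `p`. Let `a`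
be a quadratic non-residue mod `p`. By CRT choose `n ≡ a mod p`, `n ≡ 1 mod 8`, `n ≡ 1` modulo the
other odd primes dividing `m` (i.e. modulo `m' = ` the part of `m` coprime to `2 p`). Then
`J(2|n) = 1` (`n ≡ 1 mod 8`), and for an odd `t` dividing `m`, `J(t|n) = J(n|t)` by quadratic
reciprocity (`n ≡ 1 mod 4`, `jacobiSym.quadratic_reciprocity_one_mod_four'`), so
`J(s|n) = J(n|p) J(n|s') = -1`; `J(f|n)² = 1` since `n` is coprime to `f` (`n` is coprime to `m`).
Case 2: `s = 2`. Choose `n ≡ 5 mod 8` and `n ≡ 1` modulo the odd part of `f`; `J(2|n) = -1`.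
(Alternative: Mathlib's `ZMod`/Dirichlet machinery, e.g. `exists prime p with m not a square mod p`
if available.) -/
theorem exists_jacobi_neg_one {m : ℕ} (hm : ¬ IsSquare m) :
    ∃ n : ℕ, Odd n ∧ jacobiSym (m : ℤ) n = -1 := by
  obtain ⟨s, f, hsf, hs⟩ := Nat.sq_mul_squarefree m
  have hm0 : m ≠ 0 := by
    rintro rfl
    exact hm ⟨0, rfl⟩
  have hs0 : s ≠ 0 := hs.ne_zero
  have hf0 : f ≠ 0 := by
    rintro rfl
    apply hm0
    rw [← hsf]
    simp
  have hs1 : s ≠ 1 := by
    rintro rfl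
    apply hm
    rw [← hsf]
    exact ⟨f, by ring⟩
  have hJ : ∀ n : ℕ, Nat.Coprime f n → jacobiSym (m : ℤ) n = jacobiSym (s : ℤ) n := by
    intro n hn
    have h1 : (m : ℤ) = (f : ℤ) ^ 2 * (s : ℤ) := by
      rw [← hsf]
      push_cast
      ring
    rw [h1, jacobiSym.mul_left, jacobiSym.sq_one', one_mul]
    exact hn
  by_cases hex : ∃ p : ℕ, p.Prime ∧ p ∣ s ∧ p ≠ 2
  · obtain ⟨p, hp, ⟨t, rfl⟩, hp2⟩ := hex
    haveI : Fact p.Prime := ⟨hp⟩
    have ht0 : 0 < t := Nat.pos_of_ne_zero (by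
      rintro rfl
      exact hs0 (by simp))
    have hpt : Nat.Coprime p t := (Nat.squarefree_mul_iff.1 hs).1
    obtain ⟨a, ha⟩ := FiniteField.exists_nonsquare (F := ZMod p) (by
      rw [ZMod.ringChar_zmod_n]
      exact hp2)
    have ha0 : a ≠ 0 := by
      rintro rfl
      exact ha ⟨0, by simp⟩
    have hpodd : p % 2 = 1 := (hp.eq_two_or_odd).resolve_left hp2
    have hcop : Nat.Coprime p (8 * (m / p ^ m.factorization p)) := by
      refine Nat.Coprime.mul_right ?_ (Nat.coprime_ordCompl hp hm0)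
      have h8 : (8 : ℕ) = 2 ^ 3 := by norm_num
      rw [h8]
      apply Nat.Coprime.pow_right
      rw [Nat.coprime_comm, Nat.coprime_two_left, Nat.odd_iff]
      exact hpodd
    have hpos : 0 < m / p ^ m.factorization p := Nat.ordCompl_pos p hm0
    obtain ⟨n, hn1, hn2, hn3, hn4⟩ := nonres_aux2 p p a.val (8 * (m / p ^ m.factorization p)) hcop
      dvd_rfl hp (by
        intro h
        apply ha0
        have h1 : ((a.val : ℕ) : ZMod p) = 0 := (ZMod.natCast_eq_zero_iff _ _).2 h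
        rwa [ZMod.natCast_zmod_val] at h1) (by omega)
    have hnm : Nat.Coprime n m := by
      rw [← Nat.ordProj_mul_ordCompl_eq_self m p]
      exact Nat.Coprime.mul_right (Nat.Coprime.pow_right _ hn3)
        (Nat.Coprime.coprime_dvd_right ⟨8, by ring⟩ hn4)
    have hn4m : n % 4 = 1 := by
      have h1 : n % (8 * (m / p ^ m.factorization p)) % 4 = n % 4 :=
        Nat.mod_mod_of_dvd n ⟨2 * (m / p ^ m.factorization p), by ring⟩
      rw [hn2] at h1
      omega
    have hodd : Odd n := by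
      rw [Nat.odd_iff]
      omega
    refine ⟨n, hodd, ?_⟩
    have hfn : Nat.Coprime f n := by
      apply Nat.Coprime.symm
      refine Nat.Coprime.coprime_dvd_right ?_ hnm
      rw [← hsf]
      exact ⟨f * (p * t), by ring⟩
    rw [hJ n hfn, Nat.cast_mul, jacobiSym.mul_left]
    have htd : t ∣ m / p ^ m.factorization p := by
      have h1 : t ∣ p ^ m.factorization p * (m / p ^ m.factorization p) := by
        rw [Nat.ordProj_mul_ordCompl_eq_self, ← hsf]
        exact ⟨f ^ 2 * p, by ring⟩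
      exact Nat.Coprime.dvd_of_dvd_mul_left (Nat.Coprime.pow_right _ hpt.symm) h1
    have hJt : jacobiSym (t : ℤ) n = 1 := by
      apply nonres_aux1 t n ht0
      obtain ⟨r, hr⟩ := htd
      have h1 : n % (8 * (m / p ^ m.factorization p)) % (4 * t) = n % (4 * t) :=
        Nat.mod_mod_of_dvd n ⟨2 * r, by rw [hr]; ring⟩
      rw [hn2] at h1
      rw [← h1]
      apply Nat.mod_eq_of_lt
      omega
    have hJp : jacobiSym (p : ℤ) n = -1 := by
      rw [jacobiSym.quadratic_reciprocity_one_mod_four' (Nat.odd_iff.2 hpodd) hn4m,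
        ← jacobiSym.legendreSym.to_jacobiSym, legendreSym.eq_neg_one_iff]
      have h1 : ((n : ℤ) : ZMod p) = a := by
        have h2 : (n : ZMod p) = (a.val : ZMod p) := (ZMod.natCast_eq_natCast_iff _ _ _).2 hn1
        rw [ZMod.natCast_zmod_val] at h2
        exact_mod_cast h2
      rw [h1]
      exact ha
    rw [hJp, hJt, mul_one]
  · have hs2 : s = 2 := by
      have h1 : ∀ q : ℕ, q.Prime → q ∣ s → q = 2 := by
        intro q hq hqs
        by_contra h
        exact hex ⟨q, hq, hqs, h⟩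
      obtain ⟨r, hr⟩ : 2 ∣ s := by
        obtain ⟨q, hq, hqs⟩ := Nat.exists_prime_and_dvd hs1
        rwa [h1 q hq hqs] at hqs
      have h2 : r = 1 := by
        by_contra hr1
        obtain ⟨q, hq, hqr⟩ := Nat.exists_prime_and_dvd hr1
        have h3 := h1 q hq (hr ▸ Dvd.dvd.mul_left hqr 2)
        rw [h3] at hqr
        obtain ⟨r', rfl⟩ := hqr
        have h4 : ¬ IsUnit (2 : ℕ) := by
          rw [Nat.isUnit_iff]
          norm_num
        exact h4 (hs 2 ⟨r', by rw [hr]; ring⟩)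
      rw [hr, h2]
    subst hs2
    have hcop : Nat.Coprime 8 (f / 2 ^ f.factorization 2) := by
      have h8 : (8 : ℕ) = 2 ^ 3 := by norm_num
      rw [h8]
      exact Nat.Coprime.pow_left _ (Nat.coprime_ordCompl Nat.prime_two hf0)
    have hpos : 0 < f / 2 ^ f.factorization 2 := Nat.ordCompl_pos 2 hf0
    obtain ⟨n, hn1, hn2⟩ := Nat.chineseRemainder hcop 5 1
    have hn8 : n % 8 = 5 := hn1
    have hodd : Odd n := by
      rw [Nat.odd_iff]
      omega
    refine ⟨n, hodd, ?_⟩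
    have hfn : Nat.Coprime f n := by
      apply Nat.Coprime.symm
      rw [← Nat.ordProj_mul_ordCompl_eq_self f 2]
      refine Nat.Coprime.mul_right (Nat.Coprime.pow_right _ ?_) ?_
      · rw [Nat.coprime_comm, Nat.coprime_two_left]
        exact hodd
      · have h5 : Nat.gcd n (f / 2 ^ f.factorization 2) = Nat.gcd 1 (f / 2 ^ f.factorization 2) :=
          Nat.ModEq.gcd_eq hn2
        rw [Nat.Coprime, h5, Nat.gcd_one_left]
    rw [hJ n hfn, Nat.cast_ofNat, jacobiSym.at_two hodd, ZMod.χ₈_nat_mod_eight, hn8]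
    decide

end Twist
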