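import Mathlib

set_option autoImplicit false

namespace Twist

open Finset Real

/-- The sums up to `N` of a periodic function with zero sum over a period are bounded by the period.
Proof. Write `N = q a + b`, `b < q`; the first `q a` terms (starting at `n = 1`; the sum over
`1 ≤ n ≤ q` equals the sum over `range q` by periodicity) cancel, the remaining `b ≤ q` terms are at
most `1` in absolute value. (Induction: the statement for `N` follows from that for `N - q`.) -/
theorem periodic_sum_bound {f : ℕ → ℝ} {q : ℕ} (hq : 0 < q) (hper : ∀ n, f (n + q) = f n)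
    (hsum : ∑ n ∈ range q, f n = 0) (habs : ∀ n, |f n| ≤ 1) (N : ℕ) :
    |∑ n ∈ Icc 1 N, f n| ≤ q := by
  have hg0 : ∑ n ∈ range q, f (n + 1) = 0 := by
    have h1 := Finset.sum_range_succ f q
    have h2 := Finset.sum_range_succ' f q
    have h3 := hper 0
    rw [Nat.zero_add] at h3
    linarith
  have key : ∀ N : ℕ, |∑ n ∈ range N, f (n + 1)| ≤ q := by
    intro N
    induction N using Nat.strong_induction_on with
    | _ N ih =>
      by_cases h : N ≤ q
      · calc |∑ n ∈ range N, f (n + 1)| ≤ ∑ n ∈ range N, |f (n + 1)| :=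
              Finset.abs_sum_le_sum_abs _ _
          _ ≤ ∑ n ∈ range N, (1 : ℝ) := Finset.sum_le_sum fun n _ => habs (n + 1)
          _ = N := by simp
          _ ≤ q := by exact_mod_cast h
      · obtain ⟨M, rfl⟩ : ∃ M, N = q + M := ⟨N - q, by omega⟩
        rw [Finset.sum_range_add, hg0, zero_add]
        have h1 : ∀ n ∈ range M, f (q + n + 1) = f (n + 1) := fun n _ => by
          rw [← hper (n + 1)]
          congr 1
          ring
        rw [Finset.sum_congr rfl h1]
        exact ih M (by omega)
  have h4 : ∑ n ∈ Icc 1 N, f n = ∑ n ∈ range N, f (n + 1) := by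
    rw [Finset.range_eq_Ico, Finset.sum_Ico_add' f 0 N 1]
    rfl
  rw [h4]
  exact key N

/-- A completely multiplicative `q`-periodic function taking the value `-1` at some `a` coprime to `q`
has zero sum over a period.
Proof. `n ↦ a n mod q` is a bijection of `range q`, so
`∑ f n = ∑ f (a n mod q) = ∑ f (a n) = f a ∑ f n = - ∑ f n`. -/
theorem periodic_zero_sum {f : ℕ → ℝ} {q a : ℕ} (hq : 0 < q) (hper : ∀ n, f (n + q) = f n)
    (hmul : ∀ m n, f (m * n) = f m * f n) (ha : Nat.Coprime a q) (hfa : f a = -1) :
    ∑ n ∈ range q, f n = 0 := by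
  have hmod : ∀ n, f (n % q) = f n := fun n => Function.Periodic.map_mod_nat hper n
  have hmaps : ∀ n ∈ range q, (a * n) % q ∈ range q := fun n _ =>
    Finset.mem_range.2 (Nat.mod_lt _ hq)
  have hinj : Set.InjOn (fun n => (a * n) % q) (range q : Finset ℕ) := by
    intro n hn m hm h
    rw [Finset.mem_coe, Finset.mem_range] at hn hm
    have h1 : a * n ≡ a * m [MOD q] := h
    have h2 : n ≡ m [MOD q] := Nat.ModEq.cancel_left_of_coprime (Nat.Coprime.symm ha) h1
    have h3 : n % q = m % q := h2
    rwa [Nat.mod_eq_of_lt hn, Nat.mod_eq_of_lt hm] at h3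
  have hsurj : Set.SurjOn (fun n => (a * n) % q) (range q : Finset ℕ) (range q : Finset ℕ) :=
    Finset.surjOn_of_injOn_of_card_le _ hmaps hinj le_rfl
  have h1 : ∑ n ∈ range q, f (a * n) = ∑ n ∈ range q, f n :=
    Finset.sum_nbij (fun n => (a * n) % q) hmaps hinj hsurj fun n _ => (hmod (a * n)).symm
  have h2 : ∑ n ∈ range q, f (a * n) = - ∑ n ∈ range q, f n := by
    rw [← Finset.sum_neg_distrib]
    refine Finset.sum_congr rfl fun n _ => ?_
    rw [hmul, hfa, neg_one_mul]
  linarith

end Twist
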