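import Pool.Agent.W_aaa0df_h86.Basic
import Pool.Agent.W_aaa0df_h86.PerSum
import Pool.Agent.W_aaa0df_h86.NonRes

set_option autoImplicit false

namespace Twist

open Finset Real

/-- multiplicativity in the lower entry (`jacobiSym.mul_right'`; all cases of parity) -/
theorem chi_mul (m a b : ℕ) : chi m (a * b) = chi m a * chi m b := by
  unfold chi
  by_cases ha : Odd a
  · by_cases hb : Odd b
    · have ha0 : a ≠ 0 := by rintro rfl; simp at ha
      have hb0 : b ≠ 0 := by rintro rfl; simp at hb
      rw [if_pos ha, if_pos hb, if_pos (ha.mul hb), jacobiSym.mul_right' _ ha0 hb0]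
      push_cast
      ring
    · rw [if_neg hb, if_neg (fun h => hb (Nat.odd_mul.1 h).2), mul_zero]
  · rw [if_neg ha, if_neg (fun h => ha (Nat.odd_mul.1 h).1), zero_mul]

/-- multiplicativity in the upper entry (`jacobiSym.mul_left`) -/
theorem chi_mul_left (m m' n : ℕ) : chi (m * m') n = chi m n * chi m' n := by
  unfold chi
  by_cases hn : Odd n
  · rw [if_pos hn, if_pos hn, if_pos hn, Nat.cast_mul, jacobiSym.mul_left]
    push_cast
    ring
  · rw [if_neg hn, if_neg hn, if_neg hn, mul_zero]

theorem chi_val (m n : ℕ) : chi m n = 0 ∨ chi m n = 1 ∨ chi m n = -1 := by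
  unfold chi
  by_cases hn : Odd n
  · rw [if_pos hn]
    rcases jacobiSym.trichotomy (m : ℤ) n with h | h | h
    · left; rw [h]; norm_num
    · right; left; rw [h]; norm_num
    · right; right; rw [h]; norm_num
  · left; rw [if_neg hn]

theorem chi_abs (m n : ℕ) : |chi m n| ≤ 1 := by
  rcases chi_val m n with h | h | h <;> rw [h] <;> norm_num

/-- periodicity (`jacobiSym.mod_right'`) -/
theorem chi_per (m n : ℕ) (hm : m ≠ 0) : chi m (n + 4 * m) = chi m n := by
  unfold chi
  have h1 : Odd (n + 4 * m) ↔ Odd n := by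
    rw [Nat.odd_iff, Nat.odd_iff]
    omega
  by_cases hn : Odd n
  · rw [if_pos hn, if_pos (h1.2 hn), jacobiSym.mod_right' m (h1.2 hn), Nat.add_mod_right,
      ← jacobiSym.mod_right' m hn]
  · rw [if_neg hn, if_neg (fun h => hn (h1.1 h))]

/-- `chi m` is an abstract real character with `q = 4m` for every non-square `m`.
Proof. `periodic_sum_bound`, `periodic_zero_sum` with the `n` of `exists_jacobi_neg_one` (it is odd and
coprime to `m` because the symbol is not zero). `van`: `chi m p = 0` means `p = 2` or `p ∣ m`, and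
`m ≥ 2`. -/
theorem chi_RChar {m : ℕ} (hm : ¬ IsSquare m) : RChar (4 * (m : ℝ)) (chi m) := by
  have hm0 : m ≠ 0 := by
    rintro rfl
    exact hm ⟨0, rfl⟩
  have hmp : 0 < m := Nat.pos_of_ne_zero hm0
  obtain ⟨a, hao, haJ⟩ := exists_jacobi_neg_one hm
  have hcop : Nat.Coprime m a := by
    by_contra h
    have h2 : jacobiSym (m : ℤ) a = 0 := by
      rw [jacobiSym.eq_zero_iff]
      refine ⟨?_, ?_⟩
      · rintro rfl
        simp at hao
      · rw [Int.gcd_natCast_natCast]
        exact h
    rw [h2] at haJ
    norm_num at haJ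
  have hcop4 : Nat.Coprime a (4 * m) := by
    refine Nat.Coprime.mul_right ?_ hcop.symm
    have h3 : Nat.Coprime a 2 := (Nat.coprime_two_right).2 hao
    have h4 : (4 : ℕ) = 2 * 2 := rfl
    rw [h4]
    exact h3.mul_right h3
  have hfa : chi m a = -1 := by
    unfold chi
    rw [if_pos hao, haJ]
    norm_num
  refine ⟨?_, ?_, chi_mul m, chi_val m, ?_, ?_⟩
  · unfold chi
    rw [if_neg (by simp)]
  · unfold chi
    rw [if_pos odd_one, jacobiSym.one_right]
    norm_num
  · intro N
    have h5 := periodic_sum_bound (f := chi m) (q := 4 * m) (by omega)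
      (fun n => chi_per m n hm0)
      (periodic_zero_sum (by omega) (fun n => chi_per m n hm0) (chi_mul m) hcop4 hfa)
      (chi_abs m) N
    push_cast at h5
    exact h5
  · intro p hp h0
    have h6 : p ≤ 4 * m := by
      by_cases hpo : Odd p
      · unfold chi at h0
        rw [if_pos hpo] at h0
        have h7 : jacobiSym (m : ℤ) p = 0 := by exact_mod_cast h0
        rw [jacobiSym.eq_zero_iff, Int.gcd_natCast_natCast] at h7
        have h8 : p ∣ m := by
          by_contra h9
          exact h7.2 ((hp.coprime_iff_not_dvd.2 h9).symm)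
        have := Nat.le_of_dvd hmp h8
        omega
      · have h9 : p = 2 := by
          rcases hp.eq_two_or_odd' with h | h
          · exact h
          · exact absurd h hpo
        omega
    have h10 : ((p : ℕ) : ℝ) ≤ ((4 * m : ℕ) : ℝ) := Nat.cast_le.2 h6
    push_cast at h10
    exact h10

end Twist
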