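import Pool.Agent.W_aaa0df_h86.Chi

set_option autoImplicit false

namespace Twist

open Finset Real

theorem LS_sq {e f : ℕ} (he : Squarefree e) (hf : Squarefree f) (h : IsSquare (e * f)) : e = f := by
  obtain ⟨m, hm⟩ := h
  have he0 := he.ne_zero
  have hf0 := hf.ne_zero
  apply Nat.eq_of_factorization_eq he0 hf0
  intro p
  have h1 := he.natFactorization_le_one p
  have h2 := hf.natFactorization_le_one p
  have h3 : e.factorization p + f.factorization p = m.factorization p + m.factorization p := by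
    have hm0 : m ≠ 0 := by
      rintro rfl
      exact mul_ne_zero he0 hf0 hm
    rw [← Finsupp.add_apply, ← Nat.factorization_mul he0 hf0, hm, Nat.factorization_mul hm0 hm0,
      Finsupp.add_apply]
  omega

/-- Large sieve (dual side, trivial completion) for twists.
Proof. Expand the square; `chi e n * chi e' n = chi (e e') n` (`chi_mul_left`). The diagonal `e = e'`
gives at most `Y` each (`|chi| ≤ 1`). For `e ≠ e'`, both squarefree, `e e'` is not a square, so
`|∑_{n ≤ Y} chi (e e') n| ≤ 4 e e' ≤ 4 E²` by `chi_RChar`. -/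
theorem large_sieve {E : ℝ} {s : Finset ℕ} (hs : ∀ e ∈ s, Squarefree e ∧ (e : ℝ) ≤ E) (Y : ℕ) :
    ∑ n ∈ Icc 1 Y, (∑ e ∈ s, chi e n) ^ 2 ≤ (s.card : ℝ) * Y + 4 * E ^ 2 * (s.card : ℝ) ^ 2 := by
  have h1 : ∑ n ∈ Icc 1 Y, (∑ e ∈ s, chi e n) ^ 2 =
      ∑ e ∈ s, ∑ f ∈ s, ∑ n ∈ Icc 1 Y, chi (e * f) n := by
    have h2 : ∀ n, (∑ e ∈ s, chi e n) ^ 2 = ∑ e ∈ s, ∑ f ∈ s, chi (e * f) n := by
      intro n
      rw [pow_two, Finset.sum_mul_sum]
      exact Finset.sum_congr rfl (fun e _ => Finset.sum_congr rfl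
        (fun f _ => (chi_mul_left e f n).symm))
    rw [Finset.sum_congr rfl (fun n _ => h2 n), Finset.sum_comm]
    exact Finset.sum_congr rfl (fun e _ => Finset.sum_comm)
  rw [h1]
  have h3 : ∀ e ∈ s, ∀ f ∈ s, ∑ n ∈ Icc 1 Y, chi (e * f) n ≤
      (if e = f then (Y : ℝ) else 0) + 4 * E ^ 2 := by
    intro e he f hf
    by_cases hef : e = f
    · rw [if_pos hef]
      have h4 : ∑ n ∈ Icc 1 Y, chi (e * f) n ≤ ∑ _n ∈ Icc 1 Y, (1 : ℝ) :=
        Finset.sum_le_sum (fun n _ => (abs_le.1 (chi_abs _ n)).2)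
      have h5 : ∑ _n ∈ Icc 1 Y, (1 : ℝ) = Y := by simp
      have h6 : 0 ≤ 4 * E ^ 2 := by positivity
      linarith
    · rw [if_neg hef, zero_add]
      have hns : ¬ IsSquare (e * f) := fun h => hef (LS_sq (hs e he).1 (hs f hf).1 h)
      have h4 := (abs_le.1 ((chi_RChar hns).sum Y)).2
      refine h4.trans ?_
      push_cast
      have h5 : (e : ℝ) * f ≤ E * E :=
        mul_le_mul (hs e he).2 (hs f hf).2 (Nat.cast_nonneg f)
          ((Nat.cast_nonneg e).trans (hs e he).2)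
      nlinarith
  calc ∑ e ∈ s, ∑ f ∈ s, ∑ n ∈ Icc 1 Y, chi (e * f) n
      ≤ ∑ e ∈ s, ∑ f ∈ s, ((if e = f then (Y : ℝ) else 0) + 4 * E ^ 2) :=
        Finset.sum_le_sum (fun e he => Finset.sum_le_sum (fun f hf => h3 e he f hf))
    _ = (s.card : ℝ) * Y + 4 * E ^ 2 * (s.card : ℝ) ^ 2 := by
      simp only [Finset.sum_add_distrib, Finset.sum_const, nsmul_eq_mul, Finset.sum_ite_eq]
      rw [← Finset.sum_filter]
      simp
      ring

end Twist
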