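import Mathlib

set_option autoImplicit false

namespace Twist

open Finset

/-- The number of `k`-tuples of primes of `P` with a given product is at most `k!`.
Proof. Induction on `k`. If there is a tuple `f` with product `n`, then `n ≠ 0` has at most `k` prime
divisors (`n.primeFactors.card ≤ n.primeFactorsList.length = k`, since the list of prime factors of a
product of `k` primes has length `k`); the first entry `f 0` is one of them, and for a given first
entry `p` the number of the remaining `(k-1)`-tuples (product `n/p`) is at most `(k-1)!`. Total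
`≤ k (k-1)! = k!`. (Alternatively: all such tuples are permutations of one another,
by unique factorisation, and there are at most `k!` permutations.) -/
theorem card_prod_le {P : Finset ℕ} (hP : ∀ p ∈ P, p.Prime) (k n : ℕ) :
    ((Fintype.piFinset (fun _ : Fin k => P)).filter (fun f => ∏ i, f i = n)).card ≤ k.factorial := by
  induction k generalizing n with
  | zero =>
    refine (Finset.card_filter_le _ _).trans ?_
    simp
  | succ k ih =>
    set s := (Fintype.piFinset (fun _ : Fin (k + 1) => P)).filter (fun f => ∏ i, f i = n) with hs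
    have himg : (s.image (fun f => f 0)).card ≤ k + 1 := by
      rcases s.eq_empty_or_nonempty with h0 | ⟨f₀, hf₀⟩
      · rw [h0]; simp
      · have hsub : s.image (fun f => f 0) ⊆ (Finset.univ : Finset (Fin (k + 1))).image f₀ := by
          intro q hq
          rw [mem_image] at hq
          obtain ⟨g, hg, rfl⟩ := hq
          rw [hs, mem_filter, Fintype.mem_piFinset] at hg hf₀
          have h1 : g 0 ∣ ∏ i, f₀ i := by
            rw [hf₀.2, ← hg.2]
            exact Finset.dvd_prod_of_mem g (mem_univ 0)
          obtain ⟨i, -, hi⟩ := ((hP _ (hg.1 0)).prime.dvd_finset_prod_iff f₀).1 h1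
          rw [mem_image]
          exact ⟨i, mem_univ i, ((Nat.prime_dvd_prime_iff_eq (hP _ (hg.1 0)) (hP _ (hf₀.1 i))).1 hi).symm⟩
        exact (Finset.card_le_card hsub).trans ((Finset.card_image_le).trans (by simp))
    have hfib : ∀ p ∈ s.image (fun f => f 0),
        (s.filter (fun f => f 0 = p)).card ≤ k.factorial := by
      intro p hp
      have hpp : p.Prime := by
        rw [mem_image] at hp
        obtain ⟨g, hg, rfl⟩ := hp
        rw [hs, mem_filter, Fintype.mem_piFinset] at hg
        exact hP _ (hg.1 0)
      refine le_trans ?_ (ih (n / p))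
      apply Finset.card_le_card_of_injOn (fun f => Fin.tail f)
      · intro f hf
        rw [mem_coe, mem_filter, hs, mem_filter, Fintype.mem_piFinset] at hf
        rw [mem_coe, mem_filter, Fintype.mem_piFinset]
        refine ⟨fun i => hf.1.1 i.succ, ?_⟩
        have h1 := hf.1.2
        rw [Fin.prod_univ_succ, hf.2] at h1
        rw [← h1, Nat.mul_div_cancel_left _ hpp.pos]
        rfl
      · intro f hf g hg h
        rw [mem_coe, mem_filter] at hf hg
        funext i
        refine Fin.cases ?_ (fun j => ?_) i
        · rw [hf.2, hg.2]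
        · exact congrFun h j
    have h1 := Finset.card_le_mul_card_image s k.factorial hfib
    calc s.card ≤ k.factorial * (s.image (fun f => f 0)).card := h1
      _ ≤ k.factorial * (k + 1) := Nat.mul_le_mul_left _ himg
      _ = (k + 1).factorial := by rw [Nat.factorial_succ, mul_comm]

/-- For a nonnegative function `F`: `∑_{f ∈ P^k} F(∏ f) ≤ k! ∑_{n ≤ y^k} F n` if all `p ∈ P` are `≤ y`.
Proof. Group by the value `n = ∏ f ∈ [1, y^k]` (`Finset.sum_fiberwise_of_maps_to`) and use
`card_prod_le`. -/
theorem sum_prod_le {P : Finset ℕ} (hP : ∀ p ∈ P, p.Prime) {y : ℕ} (hy : ∀ p ∈ P, p ≤ y) (k : ℕ)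
    {F : ℕ → ℝ} (hF : ∀ n, 0 ≤ F n) :
    ∑ f ∈ Fintype.piFinset (fun _ : Fin k => P), F (∏ i, f i) ≤
      (k.factorial : ℝ) * ∑ n ∈ Icc 1 (y ^ k), F n := by
  have hmaps : ∀ f ∈ Fintype.piFinset (fun _ : Fin k => P), ∏ i, f i ∈ Icc 1 (y ^ k) := by
    intro f hf
    rw [Fintype.mem_piFinset] at hf
    rw [mem_Icc]
    constructor
    · exact Nat.one_le_iff_ne_zero.2 (Finset.prod_ne_zero_iff.2 (fun i _ => (hP _ (hf i)).ne_zero))
    · calc ∏ i, f i ≤ ∏ _i : Fin k, y := Finset.prod_le_prod' (fun i _ => hy _ (hf i))
        _ = y ^ k := by simp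
  rw [← Finset.sum_fiberwise_of_maps_to hmaps (fun f => F (∏ i, f i)), Finset.mul_sum]
  apply Finset.sum_le_sum
  intro n _
  have h1 : ∑ f ∈ (Fintype.piFinset (fun _ : Fin k => P)).filter (fun f => ∏ i, f i = n),
      F (∏ i, f i) = ((Fintype.piFinset (fun _ : Fin k => P)).filter
        (fun f => ∏ i, f i = n)).card * F n := by
    rw [← nsmul_eq_mul, ← Finset.sum_const]
    apply Finset.sum_congr rfl
    intro f hf
    rw [(mem_filter.1 hf).2]
  rw [h1]
  apply mul_le_mul_of_nonneg_right _ (hF n)
  exact_mod_cast card_prod_le hP k n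

end Twist
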