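import Pool.Agent.W_aaa0df_h86.LS
import Pool.Agent.W_aaa0df_h86.Mult

set_option autoImplicit false

namespace Twist

open Finset Real

theorem Moment_one (e : ℕ) : chi e 1 = 1 := by
  unfold chi
  rw [if_pos odd_one, jacobiSym.one_right]
  simp

theorem Moment_prod (e k : ℕ) (f : Fin k → ℕ) : ∏ i, chi e (f i) = chi e (∏ i, f i) := by
  induction k with
  | zero => simp [Moment_one]
  | succ k ih => rw [Fin.prod_univ_succ, Fin.prod_univ_succ, chi_mul, ih]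

/-- Moment inequality.
Proof. For `e ∈ s`, `B^k ≤ (∑_p ψ p chi e p)^k` (`k` even). Sum over `e`, expand the power over tuples
`f ∈ P^k` (`Finset.prod_univ_sum`/`Fintype.piFinset`: `(∑_{p ∈ P} g p)^k = ∑_f ∏ g (f i)`), and use
`∏ chi e (f i) = chi e (∏ f i)`:
`s.card B^k ≤ ∑_f (∏ ψ (f i)) F(∏ f i)`, `F n = ∑_{e ∈ s} chi e n`. Cauchy-Schwarz with
`|∏ ψ| ≤ 1`: the square is at most `(P.card)^k ∑_f F(∏ f)²`, then `sum_prod_le` and `large_sieve`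
with `Y = y^k`. -/
theorem moment {E : ℝ} {s : Finset ℕ} (hs : ∀ e ∈ s, Squarefree e ∧ (e : ℝ) ≤ E)
    {P : Finset ℕ} (hP : ∀ p ∈ P, p.Prime) {y : ℕ} (hy : ∀ p ∈ P, p ≤ y)
    {ψ : ℕ → ℝ} (hψ : ∀ p ∈ P, |ψ p| ≤ 1) {k : ℕ} (hk : Even k) {B : ℝ} (hB : 0 ≤ B)
    (hbad : ∀ e ∈ s, B ≤ |∑ p ∈ P, ψ p * chi e p|) :
    ((s.card : ℝ) * B ^ k) ^ 2 ≤
      (P.card : ℝ) ^ k * ((k.factorial : ℝ) *
        ((s.card : ℝ) * (y : ℝ) ^ k + 4 * E ^ 2 * (s.card : ℝ) ^ 2)) := by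
  set F : ℕ → ℝ := fun n => ∑ e ∈ s, chi e n with hF
  set A : Finset (Fin k → ℕ) := Fintype.piFinset (fun _ : Fin k => P) with hA
  have h1 : (s.card : ℝ) * B ^ k ≤ ∑ f ∈ A, (∏ i, ψ (f i)) * F (∏ i, f i) := by
    calc (s.card : ℝ) * B ^ k = ∑ _e ∈ s, B ^ k := by simp
      _ ≤ ∑ e ∈ s, (∑ p ∈ P, ψ p * chi e p) ^ k := by
        apply Finset.sum_le_sum
        intro e he
        rw [← hk.pow_abs (∑ p ∈ P, ψ p * chi e p)]
        exact pow_le_pow_left₀ hB (hbad e he) k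
      _ = ∑ e ∈ s, ∑ f ∈ A, (∏ i, ψ (f i)) * chi e (∏ i, f i) := by
        apply Finset.sum_congr rfl
        intro e _
        have h2 : (∑ p ∈ P, ψ p * chi e p) ^ k = ∏ _i : Fin k, ∑ p ∈ P, ψ p * chi e p := by simp
        rw [h2, Finset.prod_univ_sum]
        apply Finset.sum_congr rfl
        intro f _
        rw [Finset.prod_mul_distrib, Moment_prod]
      _ = ∑ f ∈ A, (∏ i, ψ (f i)) * F (∏ i, f i) := by
        rw [Finset.sum_comm]
        apply Finset.sum_congr rfl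
        intro f _
        rw [hF, Finset.mul_sum]
  have h0 : 0 ≤ (s.card : ℝ) * B ^ k := mul_nonneg (Nat.cast_nonneg _) (pow_nonneg hB k)
  have h3 : ((s.card : ℝ) * B ^ k) ^ 2 ≤ (∑ f ∈ A, (∏ i, ψ (f i)) ^ 2) * ∑ f ∈ A, F (∏ i, f i) ^ 2 :=
    (pow_le_pow_left₀ h0 h1 2).trans (Finset.sum_mul_sq_le_sq_mul_sq _ _ _)
  have h4 : ∑ f ∈ A, (∏ i, ψ (f i)) ^ 2 ≤ (P.card : ℝ) ^ k := by
    calc ∑ f ∈ A, (∏ i, ψ (f i)) ^ 2 ≤ ∑ _f ∈ A, (1 : ℝ) := by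
          apply Finset.sum_le_sum
          intro f hf
          rw [hA, Fintype.mem_piFinset] at hf
          rw [← Finset.prod_pow]
          apply Finset.prod_le_one (fun i _ => sq_nonneg _)
          intro i _
          rw [← sq_abs]
          exact pow_le_one₀ (abs_nonneg _) (hψ _ (hf i))
      _ = (P.card : ℝ) ^ k := by
        rw [hA, Finset.sum_const, Fintype.card_piFinset]
        simp
  have h5 : ∑ f ∈ A, F (∏ i, f i) ^ 2 ≤ (k.factorial : ℝ) *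
      ((s.card : ℝ) * (y : ℝ) ^ k + 4 * E ^ 2 * (s.card : ℝ) ^ 2) := by
    refine (sum_prod_le hP hy k (F := fun n => F n ^ 2) (fun n => sq_nonneg _)).trans ?_
    apply mul_le_mul_of_nonneg_left _ (Nat.cast_nonneg _)
    have := large_sieve hs (y ^ k)
    rw [Nat.cast_pow] at this
    exact this
  refine h3.trans (mul_le_mul h4 h5 (Finset.sum_nonneg (fun f _ => sq_nonneg _)) ?_)
  positivity

/-- Few bad twists.
Proof. `moment` with `B = δ P.card` reads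
`s² (δ²)^k (P^k)^2 ≤ P^k k! (s y^k + 4 E² s²)`; if `P.card > 0` divide by `P^k`, use
`4 E² k! ≤ (δ² P)^k/2` and divide by `s` (if `s.card = 0` or `P.card = 0` the claim is trivial,
for `P.card = 0` and `k > 0`; for `P.card = 0`, `k = 0` the hypothesis `8 E² ≤ 1` cannot hold together
with `E ≥ 1` if `s` is non-empty). -/
theorem few {E : ℝ} {s : Finset ℕ} (hs : ∀ e ∈ s, Squarefree e ∧ (e : ℝ) ≤ E)
    {P : Finset ℕ} (hP : ∀ p ∈ P, p.Prime) {y : ℕ} (hy : ∀ p ∈ P, p ≤ y)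
    {ψ : ℕ → ℝ} (hψ : ∀ p ∈ P, |ψ p| ≤ 1) {k : ℕ} (hk : Even k) {δ : ℝ} (hδ : 0 ≤ δ)
    (hbad : ∀ e ∈ s, δ * P.card ≤ |∑ p ∈ P, ψ p * chi e p|)
    (hbig : 8 * E ^ 2 * (k.factorial : ℝ) ≤ (δ ^ 2 * P.card) ^ k) :
    (s.card : ℝ) * (δ ^ 2 * P.card) ^ k ≤ 2 * (k.factorial : ℝ) * (y : ℝ) ^ k := by
  have hR : 0 ≤ 2 * (k.factorial : ℝ) * (y : ℝ) ^ k := by positivity
  rcases s.eq_empty_or_nonempty with h0 | ⟨e₀, he₀⟩
  · rw [h0]; simpa using hR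
  have hsc : (0 : ℝ) < s.card := by exact_mod_cast Finset.card_pos.2 ⟨e₀, he₀⟩
  rcases Nat.eq_zero_or_pos P.card with hP0 | hPpos
  · rcases Nat.eq_zero_or_pos k with hk0 | hkpos
    · exfalso
      subst hk0
      have h1 : (1 : ℝ) ≤ e₀ := by
        exact_mod_cast Nat.one_le_iff_ne_zero.2 (hs e₀ he₀).1.ne_zero
      have h2 := (hs e₀ he₀).2
      simp only [Nat.factorial_zero, Nat.cast_one, mul_one, pow_zero] at hbig
      nlinarith
    · rw [hP0, Nat.cast_zero, mul_zero, zero_pow hkpos.ne', mul_zero]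
      exact hR
  · have hPc : (0 : ℝ) < P.card := by exact_mod_cast hPpos
    have hm := moment hs hP hy hψ hk (B := δ * P.card) (mul_nonneg hδ hPc.le) hbad
    set σ : ℝ := (s.card : ℝ) with hσ
    set Q : ℝ := (P.card : ℝ) with hQ
    set D : ℝ := δ ^ 2 * Q with hD
    set K : ℝ := (k.factorial : ℝ) with hK
    set Yk : ℝ := (y : ℝ) ^ k with hYk
    have e1 : (σ * (δ * Q) ^ k) ^ 2 = Q ^ k * (σ ^ 2 * D ^ k) := by
      rw [hD, mul_pow σ, ← pow_mul, mul_comm k 2, pow_mul]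
      have : (δ * Q) ^ 2 = Q * (δ ^ 2 * Q) := by ring
      rw [this, mul_pow Q]
      ring
    rw [e1] at hm
    have h2 : σ ^ 2 * D ^ k ≤ K * (σ * Yk + 4 * E ^ 2 * σ ^ 2) :=
      le_of_mul_le_mul_left hm (pow_pos hPc k)
    have h3 : σ ^ 2 * (8 * E ^ 2 * K) ≤ σ ^ 2 * D ^ k :=
      mul_le_mul_of_nonneg_left hbig (sq_nonneg _)
    have h4 : σ * (σ * D ^ k) ≤ σ * (2 * K * Yk) := by nlinarith
    exact le_of_mul_le_mul_left h4 hsc

end Twist
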