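import Pool.Agent.W_aaa0df_h86.Basic

set_option autoImplicit false

namespace Twist

open Finset Real

/-- `log N! = ∑_{d ≤ N} Λ(d) ⌊N/d⌋` -/
lemma mertb_log_factorial (N : ℕ) :
    log (N.factorial : ℝ) = ∑ d ∈ Icc 1 N, lam d * ((N / d : ℕ) : ℝ) := by
  have h1 : log (N.factorial : ℝ) = ∑ m ∈ Icc 1 N, log (m : ℝ) := by
    induction N with
    | zero => simp
    | succ N ih =>
      have h0 : ((N.factorial : ℕ) : ℝ) ≠ 0 := by exact_mod_cast (Nat.factorial_pos N).ne'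
      rw [Finset.sum_Icc_succ_top (by omega), ← ih, Nat.factorial_succ, Nat.cast_mul,
        Real.log_mul (by positivity) h0, add_comm]
  have h2 : ∀ m ∈ Icc 1 N, log (m : ℝ) = ∑ d ∈ Icc 1 N, if d ∣ m then lam d else 0 := by
    intro m hm
    have hm1 : 1 ≤ m := (mem_Icc.1 hm).1
    have hmN : m ≤ N := (mem_Icc.1 hm).2
    rw [← ArithmeticFunction.vonMangoldt_sum, ← Finset.sum_filter]
    apply Finset.sum_congr _ (fun _ _ => rfl)
    ext d
    rw [Nat.mem_divisors, mem_filter, mem_Icc]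
    constructor
    · rintro ⟨hd, hne⟩
      exact ⟨⟨Nat.pos_of_dvd_of_pos hd (by omega), (Nat.le_of_dvd (by omega) hd).trans hmN⟩, hd⟩
    · rintro ⟨_, hd⟩
      exact ⟨hd, by omega⟩
  rw [h1, Finset.sum_congr rfl h2, Finset.sum_comm]
  apply Finset.sum_congr rfl
  intro d _
  rw [← Finset.sum_filter, Finset.sum_const, nsmul_eq_mul, mul_comm]
  congr 2
  have h3 := Nat.Ioc_filter_dvd_card_eq_div N d
  rw [← h3]
  congr 1

lemma mertb_factorial_upper (N : ℕ) : log (N.factorial : ℝ) ≤ N * log N := by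
  rw [← Real.log_pow]
  apply Real.log_le_log
  · exact_mod_cast Nat.factorial_pos N
  · exact_mod_cast Nat.factorial_le_pow N

lemma mertb_factorial_lower (N : ℕ) (hN : 1 ≤ N) :
    N * log N - N ≤ log (N.factorial : ℝ) := by
  have h1 := Real.pow_div_factorial_le_exp (N : ℝ) (Nat.cast_nonneg N) N
  have hf : (0 : ℝ) < (N.factorial : ℝ) := by exact_mod_cast Nat.factorial_pos N
  have hN0 : (0 : ℝ) < (N : ℝ) := by exact_mod_cast hN
  have h2 : (N : ℝ) ^ N ≤ Real.exp N * (N.factorial : ℝ) := (div_le_iff₀ hf).1 h1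
  have h3 := Real.log_le_log (by positivity) h2
  rw [Real.log_pow, Real.log_mul (Real.exp_pos _).ne' hf.ne', Real.log_exp] at h3
  linarith

lemma mertb_psi (N : ℕ) : ∑ d ∈ Icc 1 N, lam d ≤ (log 4 + 4) * N := by
  have h := Chebyshev.psi_le_const_mul_self (x := (N : ℝ)) (Nat.cast_nonneg N)
  unfold Chebyshev.psi at h
  rw [Nat.floor_natCast] at h
  refine le_trans (le_of_eq ?_) h
  rfl

/-- Mertens' first theorem for `Λ`.
Proof. For `N ≥ 1`: `log N! = ∑_{m ≤ N} log m = ∑_{m ≤ N} ∑_{d ∣ m} Λ(d) = ∑_{d ≤ N} Λ(d) ⌊N/d⌋`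
(`ArithmeticFunction.vonMangoldt_sum`). Since `N log N - N ≤ log N! ≤ N log N`
(`Real.log_factorial`-type bounds, or `Nat.factorial_lt`, `exp N ≥ N^N/N!`) and
`N/d - 1 ≤ ⌊N/d⌋ ≤ N/d`: lower bound `N ∑ Λ(d)/d ≥ log N! ≥ N log N - N`; upper bound
`N ∑ Λ(d)/d ≤ log N! + ∑_{d≤N} Λ(d) ≤ N log N + ψ(N)`, and `ψ(N) ≤ C N`
(`Chebyshev.psi_le_const_mul_self`). Finally for real `t ≥ 0` put `N = ⌊e^t⌋ ≥ 1`,
`|log N - t| ≤ log 2`. -/
theorem mertens : ∃ C : ℝ, 0 ≤ C ∧ ∀ t : ℝ, 0 ≤ t → |ML t - t| ≤ C := by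
  have hl4 : 0 ≤ log 4 := Real.log_nonneg (by norm_num)
  refine ⟨log 4 + 4, by linarith, ?_⟩
  intro t ht
  set N : ℕ := ⌊Real.exp t⌋₊ with hN
  have he1 : 1 ≤ Real.exp t := Real.one_le_exp ht
  have hN1 : 1 ≤ N := (Nat.one_le_floor_iff _).2 he1
  have hN0 : (0 : ℝ) < N := by exact_mod_cast hN1
  have hNle : (N : ℝ) ≤ Real.exp t := Nat.floor_le (by positivity)
  have hNlt : Real.exp t < N + 1 := Nat.lt_floor_add_one _
  have hlogN : log N ≤ t := by
    rw [Real.log_le_iff_le_exp hN0]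
    exact hNle
  have hlogN2 : t ≤ log N + log 2 := by
    rw [← Real.log_mul hN0.ne' (by norm_num), Real.le_log_iff_exp_le (by positivity)]
    have : (1 : ℝ) ≤ N := by exact_mod_cast hN1
    linarith
  have hML : (N : ℝ) * ML t = ∑ d ∈ Icc 1 N, lam d * ((N : ℝ) / d) := by
    unfold ML S
    rw [Finset.mul_sum]
    apply Finset.sum_congr rfl
    intro d _
    ring
  have hlow : log (N.factorial : ℝ) ≤ N * ML t := by
    rw [mertb_log_factorial, hML]
    apply Finset.sum_le_sum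
    intro d _
    apply mul_le_mul_of_nonneg_left _ (lam_nonneg d)
    exact Nat.cast_div_le
  have hup : N * ML t ≤ log (N.factorial : ℝ) + (log 4 + 4) * N := by
    rw [mertb_log_factorial, hML]
    refine le_trans ?_ (add_le_add_right (mertb_psi N) _)
    rw [← Finset.sum_add_distrib]
    apply Finset.sum_le_sum
    intro d hd
    have hd1 : 1 ≤ d := (mem_Icc.1 hd).1
    have h1 : (N : ℝ) / d ≤ ((N / d : ℕ) : ℝ) + 1 := by
      rw [div_le_iff₀ (by exact_mod_cast hd1)]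
      have := Nat.lt_div_mul_add (a := N) (b := d) (by omega)
      have h2 : (N : ℝ) < ((N / d : ℕ) : ℝ) * d + d := by exact_mod_cast this
      linarith
    calc lam d * ((N : ℝ) / d) ≤ lam d * (((N / d : ℕ) : ℝ) + 1) :=
          mul_le_mul_of_nonneg_left h1 (lam_nonneg d)
      _ = lam d * ((N / d : ℕ) : ℝ) + lam d := by ring
  have h1 := mertb_factorial_upper N
  have h2 := mertb_factorial_lower N hN1
  have h3 : ML t ≤ log N + (log 4 + 4) := by
    have : (N : ℝ) * ML t ≤ N * (log N + (log 4 + 4)) := by nlinarith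
    exact le_of_mul_le_mul_left this hN0
  have h4 : log N - 1 ≤ ML t := by
    have : (N : ℝ) * (log N - 1) ≤ N * ML t := by nlinarith
    exact le_of_mul_le_mul_left this hN0
  have hl2 : log 2 ≤ 1 := by
    have := Real.log_two_lt_d9
    linarith
  rw [abs_le]
  constructor <;> linarith

end Twist
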