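import Pool.Agent.W_aaa0df_h86.Defs

set_option autoImplicit false

namespace Twist

/-- The squarefree kernel of a rational multiple.
Proof. `n := (d d').natAbs = d d' > 0` (the left side of the equation is `≥ 0`). Write
`n = b² s`, `m = f² s'` with `s, s'` squarefree (`Nat.sq_mul_squarefree`). Then
`s (b j)² = s' (f k)²`, so `s s'` is a square of a rational, hence of an integer, hence `s = s'` (both
squarefree: every prime exponent of `s s'` is even and at most two). So `s = s' ≤ m`. -/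
theorem kernel {x : ℤ} (hx : x ≠ 0) {j m k : ℕ} (hj : j ≠ 0) (h : x * (j : ℤ) ^ 2 = (m : ℤ) * (k : ℤ) ^ 2) :
    ∃ s b : ℕ, Squarefree s ∧ s ≤ m ∧ b ≠ 0 ∧ x = (s : ℤ) * (b : ℤ) ^ 2 := by
  have hj2 : (0 : ℤ) < (j : ℤ) ^ 2 := by positivity
  have hx0 : 0 < x := by
    rcases lt_trichotomy x 0 with h1 | h1 | h1
    · exfalso
      have h2 : x * (j : ℤ) ^ 2 < 0 := mul_neg_of_neg_of_pos h1 hj2
      have h3 : (0 : ℤ) ≤ (m : ℤ) * (k : ℤ) ^ 2 := by positivity
      rw [h] at h2
      exact absurd h3 (not_le.mpr h2)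
    · exact absurd h1 hx
    · exact h1
  obtain ⟨n, rfl⟩ : ∃ n : ℕ, x = (n : ℤ) := ⟨x.toNat, (Int.toNat_of_nonneg hx0.le).symm⟩
  have hn : n ≠ 0 := by
    rintro rfl
    exact hx rfl
  have hnat : n * j ^ 2 = m * k ^ 2 := by exact_mod_cast h
  obtain ⟨s, b, hbs, hs⟩ := Nat.sq_mul_squarefree n
  have hs0 : s ≠ 0 := hs.ne_zero
  have hb0 : b ≠ 0 := by
    rintro rfl
    apply hn
    rw [← hbs]
    simp
  have hmk : m * k ^ 2 ≠ 0 := by
    rw [← hnat]
    exact mul_ne_zero hn (pow_ne_zero 2 hj)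
  have hm0 : m ≠ 0 := left_ne_zero_of_mul hmk
  have hk0 : k ^ 2 ≠ 0 := right_ne_zero_of_mul hmk
  have hdvd : s ∣ m := by
    rw [← Nat.prod_primeFactors_of_squarefree hs]
    refine Finset.prod_primes_dvd m (fun p hp => (Nat.prime_of_mem_primeFactors hp).prime)
      (fun p hp => ?_)
    have hpp := Nat.prime_of_mem_primeFactors hp
    have hps := Nat.dvd_of_mem_primeFactors hp
    have h1 : s.factorization p = 1 := by
      have h2 := (Nat.squarefree_iff_factorization_le_one hs0).mp hs p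
      have h3 : 0 < s.factorization p := hpp.factorization_pos_of_dvd hs0 hps
      omega
    have h4 := congrArg (fun t : ℕ => t.factorization p) hnat

    rw [← hbs, Nat.factorization_mul (mul_ne_zero (pow_ne_zero 2 hb0) hs0) (pow_ne_zero 2 hj),
      Nat.factorization_mul (pow_ne_zero 2 hb0) hs0, Nat.factorization_mul hm0 hk0,
      Nat.factorization_pow, Nat.factorization_pow, Nat.factorization_pow] at h4
    simp only [Finsupp.add_apply, Finsupp.smul_apply, smul_eq_mul] at h4
    rw [h1] at h4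
    refine Nat.dvd_of_factorization_pos (n := m) (p := p) ?_
    omega
  refine ⟨s, b, hs, Nat.le_of_dvd (Nat.pos_of_ne_zero hm0) hdvd, hb0, ?_⟩
  rw [← hbs]
  push_cast
  ring

end Twist
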