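import Pool.Agent.W_aaa0df_h86.SplitB
import Pool.Agent.W_aaa0df_h86.KernA

set_option autoImplicit false

namespace Twist

open Finset Real MPaaa0df

/-- `d d₀ = e b²` with squarefree `e`, and `e` determines `d` among the negative fundamental
discriminants.
Proof. `kernel` with `j = 1`. If `d, d'` have the same `e`: `(d d') d₀² = (e b b')²`, so `d₀ ∣ e b b'`
(`Int.pow_dvd_pow_iff`/`Int.sq_dvd_sq`...) and `d d'` is a square; `fund_inj`. -/
theorem same_e {d d' d₀ : ℤ} (hd : d < 0) (hd' : d' < 0) (hF : Fund d) (hF' : Fund d')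
    (h₀ : d₀ ≠ 0) {e b b' : ℕ} (h : d * d₀ = (e : ℤ) * (b : ℤ) ^ 2)
    (h' : d' * d₀ = (e : ℤ) * (b' : ℤ) ^ 2) : d = d' := by
  apply fund_inj hd hd' hF hF'
  have h1 : (d * d') * d₀ ^ 2 = ((e : ℤ) * b * b') ^ 2 := by
    calc (d * d') * d₀ ^ 2 = (d * d₀) * (d' * d₀) := by ring
      _ = _ := by rw [h, h']; ring
  have h2 : d₀ ^ 2 ∣ ((e : ℤ) * b * b') ^ 2 := ⟨d * d', by rw [← h1]; ring⟩
  have h3 : d₀ ∣ (e : ℤ) * b * b' := (Int.pow_dvd_pow_iff two_ne_zero).1 h2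
  obtain ⟨c, hc⟩ := h3
  refine ⟨c, ?_⟩
  have h4 : (d * d') * d₀ ^ 2 = (c * c) * d₀ ^ 2 := by rw [h1, hc]; ring
  exact mul_right_cancel₀ (pow_ne_zero 2 h₀) h4

/-- From bad discriminants to bad squarefree twists.
Proof. For `d ∈ s` take the squarefree `e` (`≤ E`) with `d d₀ = e b²` (`kernel`); the map is injective
on `s` (`same_e`), `s'` its image. By `split_sum` and `herr`,
`δ π < |∑_{PR} J(d|p)|/2 + (δ/2) π`, so `|∑_{PR} J(d|p)| ≥ δ π ≥ δ |PR|` (`PR_card`), and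
`J(d|p) = J(d₀|p) chi e p` on `PR d₀ y` (`twist_rel`, `mem_PR`). -/
theorem image_twists {d₀ : ℤ} (h₀ : d₀ < 0) (hF₀ : Fund d₀) {E y δ : ℝ} (hδ : 0 ≤ δ) (s : Finset ℤ)
    (hs : ∀ d ∈ s, Near d₀ E d ∧ δ * primeCount y < |(splitCount d y : ℝ) - primeCount y / 2|)
    (herr : ∀ d ∈ s, 2 * log |(d : ℝ)| + 4 * log |(d₀ : ℝ)| + 2 ≤ δ / 2 * primeCount y) :
    ∃ s' : Finset ℕ, s'.card = s.card ∧ (∀ e ∈ s', Squarefree e ∧ (e : ℝ) ≤ E) ∧
      ∀ e ∈ s', δ * (PR d₀ y).card ≤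
        |∑ p ∈ PR d₀ y, ((jacobiSym d₀ p : ℤ) : ℝ) * chi e p| := by
  classical
  have hex : ∀ d : ℤ, ∃ e b : ℕ, d ∈ s → Squarefree e ∧ (e : ℝ) ≤ E ∧
      d * d₀ = (e : ℤ) * (b : ℤ) ^ 2 := by
    intro d
    by_cases hd : d ∈ s
    · obtain ⟨⟨hd0, hF, e, k, he1, heE, hek⟩, _⟩ := hs d hd
      have h0 : d * d₀ ≠ 0 := mul_ne_zero (fund_ne hF) (fund_ne hF₀)
      obtain ⟨s', b, hs', hse, _, hx⟩ := kernel (x := d * d₀) h0 (j := 1) (m := e) (k := k)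
        one_ne_zero (by rw [hek]; push_cast; ring)
      refine ⟨s', b, fun _ => ⟨hs', ?_, hx⟩⟩
      exact le_trans (by exact_mod_cast hse) heE
    · exact ⟨0, 0, fun h => absurd h hd⟩
  choose ef bf hef using hex
  refine ⟨s.image ef, ?_, ?_, ?_⟩
  · apply Finset.card_image_of_injOn
    intro d hd d' hd' hee
    obtain ⟨_, _, h1⟩ := hef d hd
    obtain ⟨_, _, h2⟩ := hef d' hd'
    obtain ⟨⟨hd0, hF, _⟩, _⟩ := hs d hd
    obtain ⟨⟨hd0', hF', _⟩, _⟩ := hs d' hd'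
    have hee' : ef d = ef d' := hee
    rw [← hee'] at h2
    exact same_e hd0 hd0' hF hF' (fund_ne hF₀) h1 h2
  · intro e he
    rw [Finset.mem_image] at he
    obtain ⟨d, hd, rfl⟩ := he
    exact ⟨(hef d hd).1, (hef d hd).2.1⟩
  · intro e he
    rw [Finset.mem_image] at he
    obtain ⟨d, hd, rfl⟩ := he
    obtain ⟨_, _, hx⟩ := hef d hd
    obtain ⟨⟨hd0, hF, _⟩, hbad⟩ := hs d hd
    have h1 := split_sum (fund_mod hF) (fund_ne hF) (fund_ne hF₀) y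
    have h2 := herr d hd
    have h3 := (PR_card (fund_ne hF₀) y).2
    have h4 : ∑ p ∈ PR d₀ y, ((jacobiSym d p : ℤ) : ℝ) =
        ∑ p ∈ PR d₀ y, ((jacobiSym d₀ p : ℤ) : ℝ) * chi (ef d) p := by
      apply Finset.sum_congr rfl
      intro p hp
      obtain ⟨hp1, _, hp2, hp3⟩ := mem_PR.1 hp
      exact twist_rel hF hx hp1 hp2 hp3
    rw [h4] at h1
    have h5 : δ * (PR d₀ y).card ≤ δ * primeCount y := mul_le_mul_of_nonneg_left h3 hδ
    linarith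

/-- Sizes: elements of the ball are comparable with the centre.
Proof. `size_compare` both ways (`Near` is symmetric up to exchanging `d, d₀`), `1 ≤ e ≤ E`. -/
theorem near_size {d₀ : ℤ} (hF₀ : Fund d₀) {E : ℝ} {d : ℤ} (hd : Near d₀ E d) :
    log |(d : ℝ)| ≤ log |(d₀ : ℝ)| + log 4 + log E ∧
      log |(d₀ : ℝ)| ≤ log |(d : ℝ)| + log 4 + log E := by
  have hgen : ∀ a b : ℤ, Fund a → Fund b → ∀ e k : ℕ, 1 ≤ e → (e : ℝ) ≤ E →
      a * b = (e : ℤ) * (k : ℤ) ^ 2 → log |(a : ℝ)| ≤ log |(b : ℝ)| + log 4 + log E := by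
    intro a b ha hb e k he1 heE h
    have h1 := size_compare ha hb h
    have h2 : |(a : ℝ)| ≤ 4 * |(b : ℝ)| * e := by exact_mod_cast h1
    have he0 : (1 : ℝ) ≤ e := by exact_mod_cast he1
    have hE0 : 0 < E := by linarith
    have hb0 : 0 < |(b : ℝ)| := abs_pos.2 (by exact_mod_cast fund_ne hb)
    have ha0 : 0 < |(a : ℝ)| := abs_pos.2 (by exact_mod_cast fund_ne ha)
    have h3 : |(a : ℝ)| ≤ |(b : ℝ)| * 4 * E := by
      calc |(a : ℝ)| ≤ 4 * |(b : ℝ)| * e := h2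
        _ ≤ 4 * |(b : ℝ)| * E := mul_le_mul_of_nonneg_left heE (by positivity)
        _ = |(b : ℝ)| * 4 * E := by ring
    calc log |(a : ℝ)| ≤ log (|(b : ℝ)| * 4 * E) := Real.log_le_log ha0 h3
      _ = log |(b : ℝ)| + log 4 + log E := by
        rw [Real.log_mul (by positivity) hE0.ne', Real.log_mul hb0.ne' (by norm_num)]
  obtain ⟨_, hF, e, k, he1, heE, hek⟩ := hd
  exact ⟨hgen d d₀ hF hF₀ e k he1 heE hek,
    hgen d₀ d hF₀ hF e k he1 heE (by rw [← hek]; ring)⟩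

end Twist
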