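import Pool.Agent.W_aaa0df_h86.SplitA
import Pool.Agent.W_MP_aaa0df_nt.Asym

set_option autoImplicit false

namespace Twist

open Finset Real MPaaa0df

/-- odd primes `p < y` not dividing `d₀` -/
noncomputable def PR (d₀ : ℤ) (y : ℝ) : Finset ℕ :=
  (⌈y⌉₊).primesBelow.filter (fun p : ℕ => p ≠ 2 ∧ ¬ ((p : ℤ) ∣ d₀))

theorem mem_PR {d₀ : ℤ} {y : ℝ} {p : ℕ} :
    p ∈ PR d₀ y ↔ p.Prime ∧ (p : ℝ) < y ∧ p ≠ 2 ∧ ¬ ((p : ℤ) ∣ d₀) := by
  unfold PR
  rw [Finset.mem_filter, Nat.mem_primesBelow, Nat.lt_ceil]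
  tauto

open Classical in
lemma splitb_aux_primeCount (y : ℝ) : primeCount y = (Nat.primesBelow ⌈y⌉₊).card := by
  unfold primeCount
  rw [← Set.ncard_coe_finset]
  congr 1
  ext p
  simp only [Set.mem_ofPred_eq, Finset.mem_coe, Nat.mem_primesBelow, Nat.lt_ceil]
  tauto

open Classical in
lemma splitb_aux_splitCount (d : ℤ) (y : ℝ) : splitCount d y =
    ((Nat.primesBelow ⌈y⌉₊).filter
    (fun p : ℕ => ¬ ((p : ℤ) ∣ d) ∧ ∃ x : ℤ, (4 * (p : ℤ)) ∣ x ^ 2 - d)).card := by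
  unfold splitCount
  rw [← Set.ncard_coe_finset]
  congr 1
  ext p
  simp only [Set.mem_ofPred_eq, Finset.mem_coe, Nat.mem_primesBelow, Nat.lt_ceil,
    Finset.mem_filter]
  tauto

/-- `primeCount y - 1 - 2 log |d₀| ≤ |PR|`, with `log|d₀| ≤ D`.
Proof. `primeCount y` is the number of primes below `⌈y⌉`; remove `2` and the prime divisors of `d₀`
(`MPaaa0df.omega_le`: at most `2 log |d₀|`). Compare `MPaaa0df.PP_card`. -/
theorem PR_card {d₀ : ℤ} (h₀ : d₀ ≠ 0) (y : ℝ) :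
    (primeCount y : ℝ) - 1 - 2 * log |(d₀ : ℝ)| ≤ (PR d₀ y).card ∧
      ((PR d₀ y).card : ℝ) ≤ primeCount y := by
  have hm : (primeCount y : ℝ) = ((⌈y⌉₊).primesBelow.card : ℝ) := by
    rw [splitb_aux_primeCount]
  have h1 := PP_card h₀ (le_refl |(d₀ : ℝ)|) ⌈y⌉₊
  have h2 : PR d₀ y = PP d₀ ⌈y⌉₊ := rfl
  constructor
  · rw [hm, h2]; linarith
  · rw [hm]
    exact_mod_cast Finset.card_le_card (Finset.filter_subset _ _)

/-- The number of split primes in terms of the character sum.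
Proof. `PR d₀ y` is the set of primes `p < y` except `2` and divisors of `d₀`. With `u` (`v`, `w`) the
numbers of `p ∈ PR` with `(d/p) = 1` (`-1`, `0`): `∑ J(d|p) = u - v`, `|PR| = u + v + w`, so
`u = (∑ J + |PR| - w)/2`, `w ≤ 2 log |d|` (`omega_le`); `u ≤ splitCount ≤ u + 1 + 2 log |d₀|`,
`|PR| ≤ primeCount ≤ |PR| + 1 + 2 log |d₀|`. -/
theorem split_sum {d d₀ : ℤ} (hd : d % 4 = 0 ∨ d % 4 = 1) (h : d ≠ 0) (h₀ : d₀ ≠ 0) (y : ℝ) :
    |(splitCount d y : ℝ) - primeCount y / 2| ≤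
      |∑ p ∈ PR d₀ y, ((jacobiSym d p : ℤ) : ℝ)| / 2 + 2 * log |(d : ℝ)| + 4 * log |(d₀ : ℝ)| + 2 := by
  classical
  have hPR := PR_card h₀ y
  have hd1 : (1 : ℝ) ≤ |(d : ℝ)| := by
    rw [← Int.cast_abs]; exact_mod_cast Int.one_le_abs h
  have hd01 : (1 : ℝ) ≤ |(d₀ : ℝ)| := by
    rw [← Int.cast_abs]; exact_mod_cast Int.one_le_abs h₀
  have hl : 0 ≤ log |(d : ℝ)| := Real.log_nonneg hd1
  have hl0 : 0 ≤ log |(d₀ : ℝ)| := Real.log_nonneg hd01
  set P := PR d₀ y with hP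
  rw [splitb_aux_splitCount]
  rw [splitb_aux_primeCount] at hPR ⊢
  set F := (⌈y⌉₊).primesBelow with hF
  have hPF : P ⊆ F := Finset.filter_subset _ _
  set σ : ℕ → ℝ := fun p => if (¬ ((p : ℤ) ∣ d) ∧ ∃ x : ℤ, (4 * (p : ℤ)) ∣ x ^ 2 - d) then 1 else -1
    with hσ
  have h1 : 2 * ((F.filter (fun p : ℕ => ¬ ((p : ℤ) ∣ d) ∧
      ∃ x : ℤ, (4 * (p : ℤ)) ∣ x ^ 2 - d)).card : ℝ) - F.card = ∑ p ∈ F, σ p := by
    have e1 : ∀ p ∈ F, σ p = 2 * (if (¬ ((p : ℤ) ∣ d) ∧ ∃ x : ℤ, (4 * (p : ℤ)) ∣ x ^ 2 - d)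
        then (1 : ℝ) else 0) - 1 := by
      intro p _
      rw [hσ]
      simp only
      split_ifs <;> norm_num
    rw [Finset.sum_congr rfl e1, Finset.sum_sub_distrib, ← Finset.mul_sum, Finset.sum_const,
      nsmul_eq_mul, mul_one, Finset.sum_ite, Finset.sum_const_zero, add_zero, Finset.sum_const,
      nsmul_eq_mul, mul_one]
  have hσ1 : ∀ p, |σ p| ≤ 1 := by
    intro p; rw [hσ]; simp only
    split_ifs <;> norm_num
  have h2 : ∑ p ∈ F, σ p = ∑ p ∈ F \ P, σ p + (∑ p ∈ P, (σ p - ((jacobiSym d p : ℤ) : ℝ))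
      + ∑ p ∈ P, ((jacobiSym d p : ℤ) : ℝ)) := by
    rw [← Finset.sum_add_distrib, ← Finset.sum_sdiff hPF]
    congr 1
    apply Finset.sum_congr rfl
    intro p _; ring
  have h3 : |∑ p ∈ F \ P, σ p| ≤ 1 + 2 * log |(d₀ : ℝ)| := by
    have e1 : ((F \ P).card : ℝ) ≤ 1 + 2 * log |(d₀ : ℝ)| := by
      rw [Finset.card_sdiff_of_subset hPF, Nat.cast_sub (Finset.card_le_card hPF)]
      linarith [hPR.1]
    calc |∑ p ∈ F \ P, σ p| ≤ ∑ p ∈ F \ P, |σ p| := Finset.abs_sum_le_sum_abs _ _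
      _ ≤ ∑ _p ∈ F \ P, (1 : ℝ) := Finset.sum_le_sum (fun p _ => hσ1 p)
      _ = (F \ P).card := by rw [Finset.sum_const, nsmul_eq_mul, mul_one]
      _ ≤ _ := e1
  have h4 : |∑ p ∈ P, (σ p - ((jacobiSym d p : ℤ) : ℝ))| ≤ 2 * log |(d : ℝ)| := by
    have e1 : ∀ p ∈ P, |σ p - ((jacobiSym d p : ℤ) : ℝ)| ≤ (if (p : ℤ) ∣ d then 1 else 0) := by
      intro p hp
      rw [hP, PR, Finset.mem_filter, Nat.mem_primesBelow] at hp
      obtain ⟨⟨_, hpp⟩, hp2, _⟩ := hp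
      have hpF : Fact p.Prime := ⟨hpp⟩
      have e3 := Twist.split_iff hd hpp hp2
      by_cases hpd : (p : ℤ) ∣ d
      · rw [if_pos hpd]
        have e2 : jacobiSym d p = 0 := by
          rw [← jacobiSym.legendreSym.to_jacobiSym, legendreSym.eq_zero_iff,
            ZMod.intCast_zmod_eq_zero_iff_dvd]
          exact hpd
        rw [e2]
        rw [Int.cast_zero, sub_zero]
        exact hσ1 p
      · rw [if_neg hpd]
        rcases jacobiSym.trichotomy d p with h | h | h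
        · exfalso
          rw [← jacobiSym.legendreSym.to_jacobiSym, legendreSym.eq_zero_iff,
            ZMod.intCast_zmod_eq_zero_iff_dvd] at h
          exact hpd h
        · have : σ p = 1 := by
            rw [hσ]; simp only; rw [if_pos (e3.2 h)]
          rw [this, h]; norm_num
        · have : σ p = -1 := by
            rw [hσ]; simp only
            rw [if_neg]
            intro h'
            rw [e3.1 h'] at h
            norm_num at h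
          rw [this, h]; norm_num
    have e4 := omega_le h (le_refl |(d : ℝ)|) (P.filter (fun p : ℕ => (p : ℤ) ∣ d)) (by
      intro p hp
      rw [Finset.mem_filter] at hp
      exact ⟨Nat.prime_of_mem_primesBelow (hPF hp.1), hp.2⟩)
    calc |∑ p ∈ P, (σ p - ((jacobiSym d p : ℤ) : ℝ))|
        ≤ ∑ p ∈ P, |σ p - ((jacobiSym d p : ℤ) : ℝ)| :=
          Finset.abs_sum_le_sum_abs _ _
      _ ≤ ∑ p ∈ P, (if (p : ℤ) ∣ d then (1 : ℝ) else 0) := Finset.sum_le_sum e1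
      _ = (P.filter (fun p : ℕ => (p : ℤ) ∣ d)).card := by
          rw [Finset.sum_ite, Finset.sum_const_zero, add_zero, Finset.sum_const, nsmul_eq_mul,
            mul_one]
      _ ≤ _ := e4
  have h5 := abs_add_le (∑ p ∈ F \ P, σ p) (∑ p ∈ P, (σ p - ((jacobiSym d p : ℤ) : ℝ))
      + ∑ p ∈ P, ((jacobiSym d p : ℤ) : ℝ))
  have h6 := abs_add_le (∑ p ∈ P, (σ p - ((jacobiSym d p : ℤ) : ℝ)))
    (∑ p ∈ P, ((jacobiSym d p : ℤ) : ℝ))
  rw [← h2] at h5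
  set S : ℝ := ((F.filter (fun p : ℕ => ¬ ((p : ℤ) ∣ d) ∧
      ∃ x : ℤ, (4 * (p : ℤ)) ∣ x ^ 2 - d)).card : ℝ) with hS
  have h7 : S - (F.card : ℝ) / 2 = (∑ p ∈ F, σ p) / 2 := by linarith
  rw [h7, abs_div, abs_of_pos (by norm_num : (0 : ℝ) < 2)]
  linarith

end Twist
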