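import Mathlib

set_option autoImplicit false

namespace Twist

open Real

/-- Choice of the exponent `k`.
Proof. Let `k = 2 ⌈(4 log E + 5)/log ℓ⌉₊` (even, `≥ 2`), so
`2 (4 log E + 5)/log ℓ ≤ k ≤ 8 log E/log ℓ + 10/log ℓ + 2 ≤ 8 log E/log ℓ + 12` if `log ℓ ≥ 1`.
For `ℓ ≥ L₀`: `k ≤ 8 ℓ^(1/8) + 12 ≤ ℓ^(1/4) ≤ y^(1/4)` (`y ≥ ℓ^β ≥ ℓ`) and
`δ² P ≥ δ² y/(4 log y) ≥ y^(1/2)`. Hence `(δ² P)^k ≥ (y^(1/4))^k k^k ≥ y^(k/4) k!`, and
`y^(k/4) ≥ exp(k log ℓ/4) ≥ exp(2 log E + 5/2) ≥ 8 E²`. This is the first inequality.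
Second: `k! ≤ k^k`, `2 ≤ 2^k`, `y/(δ² P) ≤ 4 log y/δ² ≤ 4 A log ℓ/δ²`, so
`2 k! y^k ≤ (8 A k log ℓ/δ²)^k (δ² P)^k` and `k log ℓ ≤ 8 log E + 12 log ℓ ≤ 12 (log E + log ℓ)`. With
`C = max 1 (96 A/δ²)` the base `C (log E + log ℓ)` is `≥ 1`, so the exponent `k` can be replaced by
`12 + 8 log E/log ℓ`. -/
theorem params (β A δ : ℝ) (hβ : 1 < β) (hβA : β ≤ A) (hδ : 0 < δ) :
    ∃ C L₀ : ℝ, 1 ≤ C ∧ ∀ ℓ E y P : ℝ, L₀ ≤ ℓ → 1 ≤ E → log E ≤ ℓ ^ (1 / 8 : ℝ) →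
      ℓ ^ β ≤ y → y ≤ ℓ ^ A → y / (4 * log y) ≤ P →
      ∃ k : ℕ, Even k ∧ 8 * E ^ 2 * (k.factorial : ℝ) ≤ (δ ^ 2 * P) ^ k ∧
        2 * (k.factorial : ℝ) * y ^ k ≤
          (C * (log E + log ℓ)) ^ (12 + 8 * log E / log ℓ) * (δ ^ 2 * P) ^ k := by
  refine ⟨max 1 (96 * A / δ ^ 2), max (10 ^ 8) ((16 / δ ^ 2) ^ 4), le_max_left _ _, ?_⟩
  intro ℓ E y P hL hE hEℓ hy1 hy2 hP
  set C := max 1 (96 * A / δ ^ 2) with hC
  have hℓ8 : (10 : ℝ) ^ 8 ≤ ℓ := (le_max_left _ _).trans hL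
  have hℓδ : (16 / δ ^ 2) ^ 4 ≤ ℓ := (le_max_right _ _).trans hL
  have hℓ1 : (1 : ℝ) ≤ ℓ := by linarith [show (1 : ℝ) ≤ 10 ^ 8 by norm_num]
  have hℓ0 : (0 : ℝ) < ℓ := by linarith
  have hℓy : ℓ ≤ y := by
    calc ℓ = ℓ ^ (1 : ℝ) := (Real.rpow_one ℓ).symm
      _ ≤ ℓ ^ β := Real.rpow_le_rpow_of_exponent_le hℓ1 hβ.le
      _ ≤ y := hy1
  have hy0 : (0 : ℝ) < y := by linarith
  have hy1' : (1 : ℝ) ≤ y := by linarith
  have hLl : 1 ≤ log ℓ := by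
    rw [Real.le_log_iff_exp_le hℓ0]
    have := Real.exp_one_lt_d9
    linarith [show (2.7182818286 : ℝ) ≤ 10 ^ 8 by norm_num]
  have hLl0 : 0 < log ℓ := by linarith
  have hLE : 0 ≤ log E := Real.log_nonneg hE
  have hLy : log ℓ ≤ log y := Real.log_le_log hℓ0 hℓy
  have hLy0 : 0 < log y := by linarith
  have hLyA : log y ≤ A * log ℓ := by
    have h1 := Real.log_le_log hy0 hy2
    rwa [Real.log_rpow hℓ0] at h1
  have hδ2 : 0 < δ ^ 2 := by positivity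
  -- the number `k`
  set m : ℕ := ⌈(4 * log E + 5) / log ℓ⌉₊ with hm
  have hm1 : (4 * log E + 5) / log ℓ ≤ m := Nat.le_ceil _
  have hm2 : (m : ℝ) < (4 * log E + 5) / log ℓ + 1 :=
    Nat.ceil_lt_add_one (div_nonneg (by linarith) hLl0.le)
  have hmpos : 0 < m := by
    rw [hm, Nat.ceil_pos]
    exact div_pos (by linarith) hLl0
  have hkup : ((2 * m : ℕ) : ℝ) ≤ 12 + 8 * log E / log ℓ := by
    push_cast
    have h1 : (4 * log E + 5) / log ℓ = 4 * (log E / log ℓ) + 5 / log ℓ := by ring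
    have h2 : 5 / log ℓ ≤ 5 := div_le_self (by norm_num) hLl
    have h3 : 8 * log E / log ℓ = 8 * (log E / log ℓ) := by ring
    rw [h1] at hm2
    rw [h3]
    linarith
  have hklow : 8 * log E + 10 ≤ ((2 * m : ℕ) : ℝ) * log ℓ := by
    rw [div_le_iff₀ hLl0] at hm1
    push_cast
    nlinarith
  have hkL : ((2 * m : ℕ) : ℝ) * log ℓ ≤ 12 * (log E + log ℓ) := by
    have h1 := mul_le_mul_of_nonneg_right hkup hLl0.le
    have h2 : (12 + 8 * log E / log ℓ) * log ℓ = 12 * log ℓ + 8 * log E := by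
      field_simp
    rw [h2] at h1
    linarith
  set k : ℕ := 2 * m with hk
  have hkpos : 0 < k := by omega
  have hk1 : (1 : ℝ) ≤ k := by exact_mod_cast hkpos
  -- bounds for `P`
  have hq : y ^ (1 / 4 : ℝ) ^ 1 = y ^ (1 / 4 : ℝ) := by norm_num
  have hy4 : 16 / δ ^ 2 ≤ y ^ (1 / 4 : ℝ) := by
    have h1 : (16 / δ ^ 2) ^ 4 ≤ y := hℓδ.trans hℓy
    have h2 := Real.rpow_le_rpow (by positivity) h1 (show (0 : ℝ) ≤ 1 / 4 by norm_num)
    have h3 : (((16 / δ ^ 2) ^ 4 : ℝ)) ^ (1 / 4 : ℝ) = 16 / δ ^ 2 := by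
      rw [← Real.rpow_natCast (16 / δ ^ 2) 4, ← Real.rpow_mul (by positivity)]
      norm_num
    rwa [h3] at h2
  have hlogy : log y ≤ 4 * y ^ (1 / 4 : ℝ) := by
    have h1 := Real.log_le_rpow_div hy0.le (show (0 : ℝ) < 1 / 4 by norm_num)
    linarith
  have hyq : 0 < y ^ (1 / 4 : ℝ) := Real.rpow_pos_of_pos hy0 _
  have hyhalf : y ^ (1 / 4 : ℝ) * y ^ (1 / 4 : ℝ) = y ^ (1 / 2 : ℝ) := by
    rw [← Real.rpow_add hy0]; norm_num
  have hyfull : y ^ (1 / 2 : ℝ) * y ^ (1 / 2 : ℝ) = y := by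
    rw [← Real.rpow_add hy0]; norm_num
  have hyh : 0 < y ^ (1 / 2 : ℝ) := Real.rpow_pos_of_pos hy0 _
  have hPlow : y ^ (1 / 2 : ℝ) ≤ δ ^ 2 * P := by
    have h1 : 4 * log y ≤ δ ^ 2 * y ^ (1 / 2 : ℝ) := by
      have h2 : 16 ≤ δ ^ 2 * y ^ (1 / 4 : ℝ) := by
        rw [div_le_iff₀ hδ2] at hy4
        linarith
      calc 4 * log y ≤ 16 * y ^ (1 / 4 : ℝ) := by linarith
        _ ≤ (δ ^ 2 * y ^ (1 / 4 : ℝ)) * y ^ (1 / 4 : ℝ) := mul_le_mul_of_nonneg_right h2 hyq.le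
        _ = δ ^ 2 * y ^ (1 / 2 : ℝ) := by rw [mul_assoc, hyhalf]
    have h3 : y ^ (1 / 2 : ℝ) * (4 * log y) ≤ δ ^ 2 * y := by
      calc y ^ (1 / 2 : ℝ) * (4 * log y) ≤ y ^ (1 / 2 : ℝ) * (δ ^ 2 * y ^ (1 / 2 : ℝ)) :=
            mul_le_mul_of_nonneg_left h1 hyh.le
        _ = δ ^ 2 * (y ^ (1 / 2 : ℝ) * y ^ (1 / 2 : ℝ)) := by ring
        _ = δ ^ 2 * y := by rw [hyfull]
    calc y ^ (1 / 2 : ℝ) ≤ δ ^ 2 * y / (4 * log y) := by
          rw [le_div_iff₀ (by positivity)]; exact h3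
      _ = δ ^ 2 * (y / (4 * log y)) := by ring
      _ ≤ δ ^ 2 * P := mul_le_mul_of_nonneg_left hP hδ2.le
  have hP0 : 0 < δ ^ 2 * P := lt_of_lt_of_le hyh hPlow
  have hyP : y ≤ (4 * A * log ℓ / δ ^ 2) * (δ ^ 2 * P) := by
    have h1 : y ≤ P * (4 * log y) := by
      rwa [div_le_iff₀ (by positivity)] at hP
    have hPpos : 0 < P := by
      by_contra hcon
      push Not at hcon
      nlinarith
    calc y ≤ P * (4 * log y) := h1
      _ ≤ P * (4 * (A * log ℓ)) := by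
        apply mul_le_mul_of_nonneg_left _ hPpos.le
        linarith
      _ = (4 * A * log ℓ / δ ^ 2) * (δ ^ 2 * P) := by
        field_simp
  have hfact : (k.factorial : ℝ) ≤ (k : ℝ) ^ k := by
    exact_mod_cast Nat.factorial_le_pow k
  refine ⟨k, ⟨m, by omega⟩, ?_, ?_⟩
  · -- first inequality
    have hkq : (k : ℝ) ≤ y ^ (1 / 4 : ℝ) := by
      have h1 : log E / log ℓ ≤ log E := div_le_self hLE hLl
      have h2 : (k : ℝ) ≤ 12 + 8 * ℓ ^ (1 / 8 : ℝ) := by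
        have h3 : 8 * log E / log ℓ = 8 * (log E / log ℓ) := by ring
        rw [h3] at hkup
        linarith
      have h4 : (10 : ℝ) ≤ ℓ ^ (1 / 8 : ℝ) := by
        have h5 := Real.rpow_le_rpow (by positivity) hℓ8 (show (0 : ℝ) ≤ 1 / 8 by norm_num)
        have h6 : (((10 : ℝ) ^ 8)) ^ (1 / 8 : ℝ) = 10 := by
          rw [← Real.rpow_natCast (10 : ℝ) 8, ← Real.rpow_mul (by norm_num)]
          norm_num
        rwa [h6] at h5
      have h7 : ℓ ^ (1 / 8 : ℝ) * ℓ ^ (1 / 8 : ℝ) = ℓ ^ (1 / 4 : ℝ) := by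
        rw [← Real.rpow_add hℓ0]; norm_num
      have h8 : ℓ ^ (1 / 4 : ℝ) ≤ y ^ (1 / 4 : ℝ) :=
        Real.rpow_le_rpow hℓ0.le hℓy (by norm_num)
      nlinarith
    have hE2 : 8 * E ^ 2 ≤ (y ^ (1 / 4 : ℝ)) ^ k := by
      have h1 : (y ^ (1 / 4 : ℝ)) ^ k = Real.exp ((k : ℝ) * (1 / 4 * log y)) := by
        rw [Real.rpow_def_of_pos hy0, ← Real.exp_nat_mul]
        congr 1
        ring
      have h2 : E ^ 2 = Real.exp (2 * log E) := by
        rw [two_mul, Real.exp_add, Real.exp_log (by linarith)]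
        ring
      have h3 : (8 : ℝ) ≤ Real.exp (5 / 2) := by
        have h4 : (2.7 : ℝ) ≤ Real.exp 1 := by
          have := Real.exp_one_gt_d9
          linarith
        have h5 : Real.exp (5 / 2) = Real.exp 1 ^ 2 * Real.exp (1 / 2) := by
          rw [← Real.exp_nat_mul, ← Real.exp_add]
          norm_num
        have h6 : (3 / 2 : ℝ) ≤ Real.exp (1 / 2) := by
          have := Real.add_one_le_exp (1 / 2 : ℝ)
          linarith
        rw [h5]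
        nlinarith
      rw [h1, h2]
      calc 8 * Real.exp (2 * log E) ≤ Real.exp (5 / 2) * Real.exp (2 * log E) :=
            mul_le_mul_of_nonneg_right h3 (Real.exp_pos _).le
        _ = Real.exp (5 / 2 + 2 * log E) := (Real.exp_add _ _).symm
        _ ≤ Real.exp ((k : ℝ) * (1 / 4 * log y)) := by
          apply Real.exp_le_exp.2
          have h7 : (k : ℝ) * log ℓ ≤ (k : ℝ) * log y :=
            mul_le_mul_of_nonneg_left hLy (Nat.cast_nonneg k)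
          linarith
    calc 8 * E ^ 2 * (k.factorial : ℝ) ≤ (y ^ (1 / 4 : ℝ)) ^ k * (y ^ (1 / 4 : ℝ)) ^ k := by
          apply mul_le_mul hE2 (hfact.trans (pow_le_pow_left₀ (Nat.cast_nonneg k) hkq k))
            (Nat.cast_nonneg _) (by positivity)
      _ = (y ^ (1 / 2 : ℝ)) ^ k := by rw [← mul_pow, hyhalf]
      _ ≤ (δ ^ 2 * P) ^ k := pow_le_pow_left₀ hyh.le hPlow k
  · -- second inequality
    have hA : 0 < A := by linarith
    have h1 : y ^ k ≤ (4 * A * log ℓ / δ ^ 2) ^ k * (δ ^ 2 * P) ^ k := by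
      rw [← mul_pow]
      exact pow_le_pow_left₀ hy0.le hyP k
    have h2 : (2 : ℝ) ≤ 2 ^ k := by
      calc (2 : ℝ) = 2 ^ 1 := by norm_num
        _ ≤ 2 ^ k := pow_le_pow_right₀ (by norm_num) hkpos
    have h3 : 2 * (k.factorial : ℝ) ≤ (2 * k) ^ k := by
      rw [mul_pow]
      exact mul_le_mul h2 hfact (Nat.cast_nonneg _) (by positivity)
    have hbase : 2 * (k : ℝ) * (4 * A * log ℓ / δ ^ 2) ≤ C * (log E + log ℓ) := by
      have h4 : 96 * A / δ ^ 2 ≤ C := le_max_right _ _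
      calc 2 * (k : ℝ) * (4 * A * log ℓ / δ ^ 2) = (8 * A / δ ^ 2) * ((k : ℝ) * log ℓ) := by ring
        _ ≤ (8 * A / δ ^ 2) * (12 * (log E + log ℓ)) :=
          mul_le_mul_of_nonneg_left hkL (by positivity)
        _ = (96 * A / δ ^ 2) * (log E + log ℓ) := by ring
        _ ≤ C * (log E + log ℓ) := mul_le_mul_of_nonneg_right h4 (by linarith)
    have hbase1 : 1 ≤ C * (log E + log ℓ) := by
      have h4 : 1 ≤ C := le_max_left _ _
      nlinarith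
    calc 2 * (k.factorial : ℝ) * y ^ k
        ≤ (2 * k) ^ k * ((4 * A * log ℓ / δ ^ 2) ^ k * (δ ^ 2 * P) ^ k) :=
          mul_le_mul h3 h1 (by positivity) (by positivity)
      _ = (2 * (k : ℝ) * (4 * A * log ℓ / δ ^ 2)) ^ k * (δ ^ 2 * P) ^ k := by
        rw [← mul_assoc, ← mul_pow]
      _ ≤ (C * (log E + log ℓ)) ^ k * (δ ^ 2 * P) ^ k := by
        apply mul_le_mul_of_nonneg_right _ (by positivity)
        exact pow_le_pow_left₀ (by positivity) hbase k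
      _ ≤ (C * (log E + log ℓ)) ^ (12 + 8 * log E / log ℓ) * (δ ^ 2 * P) ^ k := by
        apply mul_le_mul_of_nonneg_right _ (by positivity)
        rw [← Real.rpow_natCast]
        exact Real.rpow_le_rpow_of_exponent_le hbase1 hkup

end Twist
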