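import Pool.Agent.W_MP_aaa0df_nt.Asym
import Pool.Agent.W_MP_aaa0df_nt.Defs

set_option autoImplicit false

namespace Twist

open Real MPaaa0df

/-- `primeCount y = card (primesBelow ⌈y⌉)`. -/
theorem primeCount_eq (y : ℝ) : primeCount y = (⌈y⌉₊).primesBelow.card := by
  unfold primeCount
  have h : {p : ℕ | p.Prime ∧ (p : ℝ) < y} = ((⌈y⌉₊).primesBelow : Set ℕ) := by
    ext p
    simp only [Set.mem_setOf_eq, Finset.mem_coe, Nat.mem_primesBelow, Nat.lt_ceil]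
    exact And.comm
  rw [h, Set.ncard_coe_finset]

/-- Lower bounds for the number of primes.
Proof. `MPaaa0df.primes_lower` with `m = ⌈y⌉₊`, `x/(2 log x)` is increasing for `x ≥ e`; and
`y/(2 log y) ≥ K (ℓ + 1)` for all `y ≥ ℓ^β`, `ℓ ≥ L₀` because `log y ≤ C_β y^((β-1)/(2β))`,
so `y/(2 log y) ≥ y^((β+1)/(2β))/(2 C_β) ≥ ℓ^((β+1)/2)/(2 C_β)`. -/
theorem primeCount_lower (β K : ℝ) (hβ : 1 < β) :
    ∃ L₀ : ℝ, ∀ ℓ y : ℝ, L₀ ≤ ℓ → ℓ ^ β ≤ y →
      y / (2 * log y) ≤ primeCount y ∧ K * (ℓ + 1) ≤ primeCount y := by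
  obtain ⟨m0, hm0⟩ := primes_lower
  have hα1 : 1 / β < 1 := by
    rw [div_lt_one (by linarith)]
    exact hβ
  obtain ⟨m1, hm1⟩ := asym1r hα1 (2 * max K 0)
  refine ⟨max 1 (max 3 (max (m0 : ℝ) m1)), fun ℓ y hℓ hy => ?_⟩
  have hℓ1 : 1 ≤ ℓ := (le_max_left _ _).trans hℓ
  have hℓ3 : 3 ≤ ℓ := (le_max_left _ _).trans ((le_max_right _ _).trans hℓ)
  have hℓ4 : (m0 : ℝ) ≤ ℓ :=
    (le_max_left _ _).trans ((le_max_right _ _).trans ((le_max_right _ _).trans hℓ))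
  have hℓ5 : (m1 : ℝ) ≤ ℓ :=
    (le_max_right _ _).trans ((le_max_right _ _).trans ((le_max_right _ _).trans hℓ))
  have hyℓ : ℓ ≤ y := by
    refine le_trans ?_ hy
    calc ℓ = ℓ ^ (1 : ℝ) := (Real.rpow_one ℓ).symm
      _ ≤ ℓ ^ β := Real.rpow_le_rpow_of_exponent_le hℓ1 hβ.le
  have hym : y ≤ (⌈y⌉₊ : ℝ) := Nat.le_ceil y
  have hy3 : 3 ≤ y := hℓ3.trans hyℓ
  set m := ⌈y⌉₊ with hm
  have hmm0 : m0 ≤ m := by
    have h1 : (m0 : ℝ) ≤ m := hℓ4.trans (hyℓ.trans hym)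
    exact_mod_cast h1
  have hmm1 : m1 ≤ m := by
    have h1 : (m1 : ℝ) ≤ m := hℓ5.trans (hyℓ.trans hym)
    exact_mod_cast h1
  have hP := hm0 m hmm0
  have hQ := hm1 m hmm1
  rw [primeCount_eq]
  have hlogy : 0 < log y := Real.log_pos (by linarith)
  have hlogm : 0 < log (m : ℝ) := Real.log_pos (by linarith)
  have hy0 : 0 < y := by linarith
  have hm0' : (0 : ℝ) < m := by linarith
  constructor
  · refine le_trans ?_ hP
    have he : Real.exp 1 ≤ y := by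
      have := Real.exp_one_lt_d9
      linarith
    have h1 := Real.log_div_self_antitoneOn (show y ∈ {x : ℝ | Real.exp 1 ≤ x} from he)
      (show (m : ℝ) ∈ {x : ℝ | Real.exp 1 ≤ x} from he.trans hym) hym
    simp only at h1
    rw [div_le_div_iff₀ hm0' hy0] at h1
    rw [div_le_div_iff₀ (by positivity) (by positivity)]
    nlinarith
  · have hK0 : (0 : ℝ) ≤ max K 0 := le_max_right _ _
    have h2 : ℓ ≤ (m : ℝ) ^ (1 / β) := by
      have h3 : ℓ = (ℓ ^ β) ^ (1 / β) := by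
        rw [← Real.rpow_mul (by linarith), mul_one_div_cancel (by linarith), Real.rpow_one]
      rw [h3]
      refine Real.rpow_le_rpow (Real.rpow_nonneg (by linarith) _) (hy.trans hym) ?_
      have : 0 < β := by linarith
      positivity
    calc K * (ℓ + 1) ≤ max K 0 * ((m : ℝ) ^ (1 / β) + 1) := by
          refine mul_le_mul (le_max_left _ _) (by linarith) (by linarith) hK0
      _ ≤ (m : ℝ) / (2 * log m) := by
          rw [le_div_iff₀ (by positivity)]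
          calc max K 0 * ((m : ℝ) ^ (1 / β) + 1) * (2 * log m)
              = 2 * max K 0 * (((m : ℝ) ^ (1 / β) + 1) * log m) := by ring
            _ ≤ m := hQ
      _ ≤ (m.primesBelow.card : ℝ) := hP

end Twist
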