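import Pool.Agent.W_aaa0df_h86.Image
import Pool.Agent.W_aaa0df_h86.Params
import Pool.Agent.W_aaa0df_h86.PrimeB
import Pool.Agent.W_aaa0df_h86.Moment

set_option autoImplicit false

namespace Twist

open Finset Real MPaaa0df

lemma balla_jacobi_abs (a : ℤ) (b : ℕ) : |((jacobiSym a b : ℤ) : ℝ)| ≤ 1 := by
  rcases jacobiSym.trichotomy a b with h | h | h <;> rw [h] <;> norm_num

/-- Few bad discriminants in a ball.
Proof. `ℓ = log |d₀|` large. By `near_size` and `log E ≤ ℓ^(1/8)`, `log |d| ≤ 2 ℓ` for `d ∈ s`, so the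
hypothesis `herr` of `image_twists` holds by `primeCount_lower` (`8 ℓ + 2 ≤ (δ/2) π(y)`). Also
`|PR| ≥ π(y) - 1 - 2ℓ ≥ π(y)/2 ≥ y/(4 log y)` (`PR_card`). Take `k` from `params` (with `P = |PR|`) and
apply `few` with `ψ p = J(d₀|p)`, `y` replaced by `⌊y⌋₊` (`p < y`): `s.card (δ² P)^k ≤ 2 k! y^k`,
and divide by `(δ² P)^k > 0`. -/
theorem ball_count (β A δ : ℝ) (hβ : 1 < β) (hβA : β ≤ A) (hδ : 0 < δ) :
    ∃ C D : ℝ, 1 ≤ C ∧ ∀ d₀ : ℤ, d₀ < 0 → Fund d₀ → D ≤ |(d₀ : ℝ)| → ∀ E : ℝ, 1 ≤ E →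
      log E ≤ log |(d₀ : ℝ)| ^ (1 / 8 : ℝ) → ∀ y : ℝ, log |(d₀ : ℝ)| ^ β ≤ y →
      y ≤ log |(d₀ : ℝ)| ^ A → ∀ s : Finset ℤ,
      (∀ d ∈ s, Near d₀ E d ∧ δ * primeCount y < |(splitCount d y : ℝ) - primeCount y / 2|) →
      (s.card : ℝ) ≤ (C * (log E + log (log |(d₀ : ℝ)|))) ^
        (12 + 8 * log E / log (log |(d₀ : ℝ)|)) := by
  obtain ⟨C, L₀, hC, hpar⟩ := params β A δ hβ hβA hδ
  obtain ⟨L₁, hL₁⟩ := primeCount_lower β (4 + 16 / δ) hβ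
  refine ⟨C, Real.exp (max (max L₀ L₁) 1), hC, ?_⟩
  intro d₀ h₀ hF₀ hD E hE hlogE y hy1 hy2 s hs
  set ℓ : ℝ := log |(d₀ : ℝ)| with hℓ
  have hd₀ : d₀ ≠ 0 := h₀.ne
  have habs : (0 : ℝ) < |(d₀ : ℝ)| := by
    rw [abs_pos]
    exact_mod_cast hd₀
  have hℓD : max (max L₀ L₁) 1 ≤ ℓ := (Real.le_log_iff_exp_le habs).2 hD
  have hℓ0 : L₀ ≤ ℓ := ((le_max_left _ _).trans (le_max_left _ _)).trans hℓD
  have hℓ1 : L₁ ≤ ℓ := ((le_max_right _ _).trans (le_max_left _ _)).trans hℓD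
  have hℓ2 : 1 ≤ ℓ := (le_max_right _ _).trans hℓD
  obtain ⟨hπ1, hπ2⟩ := hL₁ ℓ y hℓ1 hy1
  have h16 : 0 < 16 / δ := by positivity
  -- the number of primes is large
  have hπ4 : 4 * (ℓ + 1) ≤ primeCount y := by nlinarith
  have hπδ : 8 * (ℓ + 1) ≤ δ / 2 * primeCount y := by
    have h1 : 16 / δ * (ℓ + 1) ≤ primeCount y := by nlinarith
    have h2 : δ / 2 * (16 / δ * (ℓ + 1)) = 8 * (ℓ + 1) := by
      field_simp
      ring
    rw [← h2]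
    exact mul_le_mul_of_nonneg_left h1 (by positivity)
  have hlog4 : log 4 ≤ 3 / 2 := by
    have h1 : (4 : ℝ) = 2 ^ 2 := by norm_num
    rw [h1, Real.log_pow]
    have := Real.log_two_lt_d9
    push_cast
    linarith
  have hE8 : log E ≤ ℓ := by
    refine hlogE.trans ?_
    calc ℓ ^ (1 / 8 : ℝ) ≤ ℓ ^ (1 : ℝ) :=
          Real.rpow_le_rpow_of_exponent_le hℓ2 (by norm_num)
      _ = ℓ := Real.rpow_one ℓ
  have herr : ∀ d ∈ s, 2 * log |(d : ℝ)| + 4 * log |(d₀ : ℝ)| + 2 ≤ δ / 2 * primeCount y := by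
    intro d hd
    have h1 := (near_size hF₀ (hs d hd).1).1
    rw [← hℓ] at h1 ⊢
    linarith
  obtain ⟨s', hcard, hsq, hbad⟩ := image_twists h₀ hF₀ hδ.le s hs herr
  set P : ℝ := ((PR d₀ y).card : ℝ) with hP
  have hPlow : y / (4 * log y) ≤ P := by
    have h1 := (PR_card hd₀ y).1
    rw [← hℓ, ← hP] at h1
    have h2 : (primeCount y : ℝ) / 2 ≤ P := by linarith
    have h3 : y / (4 * log y) = y / (2 * log y) / 2 := by
      rw [div_div]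
      congr 1
      ring
    rw [h3]
    linarith
  obtain ⟨k, hk, hk1, hk2⟩ := hpar ℓ E y P hℓ0 hE hlogE hy1 hy2 hPlow
  have hfew := few (E := E) (s := s') hsq (P := PR d₀ y) (fun p hp => (mem_PR.1 hp).1)
    (y := ⌊y⌋₊) (fun p hp => Nat.le_floor (mem_PR.1 hp).2.1.le)
    (ψ := fun p => ((jacobiSym d₀ p : ℤ) : ℝ)) (fun p _ => balla_jacobi_abs d₀ p) hk hδ.le
    hbad hk1
  have hy0 : 0 ≤ y := le_trans (Real.rpow_nonneg (by linarith) _) hy1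
  have hfl : ((⌊y⌋₊ : ℕ) : ℝ) ^ k ≤ y ^ k :=
    pow_le_pow_left₀ (Nat.cast_nonneg _) (Nat.floor_le hy0) k
  have hpos : 0 < (δ ^ 2 * P) ^ k := by
    refine lt_of_lt_of_le ?_ hk1
    have : (0 : ℝ) < k.factorial := by exact_mod_cast Nat.factorial_pos k
    positivity
  have h1 : (s'.card : ℝ) * (δ ^ 2 * P) ^ k ≤
      (C * (log E + log ℓ)) ^ (12 + 8 * log E / log ℓ) * (δ ^ 2 * P) ^ k := by
    refine hfew.trans (le_trans ?_ hk2)
    exact mul_le_mul_of_nonneg_left hfl (by positivity)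
  rw [hcard] at h1
  exact le_of_mul_le_mul_right h1 hpos

end Twist
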