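import Pool.Agent.W_aaa0df_h86.Pair
import Pool.Agent.W_aaa0df_h86.BallB

set_option autoImplicit false

namespace Twist

open Finset Real MPaaa0df Filter

/-- eventual inequalities used in `ball_one` -/
lemma ballone_aux (ε : ℝ) (hε : 0 < ε) (hε1 : ε ≤ 1) (D0 : ℝ) :
    ∃ L : ℝ, ∀ ℓ : ℝ, L ≤ ℓ → 1 ≤ ℓ ∧ D0 ≤ ℓ ∧ (2 * ℓ) ^ (3 / 2 : ℝ) ≤ ℓ ^ (2 : ℝ) ∧
      log ℓ ≤ ℓ / 8 ∧ 8 ≤ ℓ ∧
      2 * (2 * ℓ) ^ (2 - ε) + 2 ≤ (ℓ ^ (2 : ℝ)) ^ (1 - ε / 4) := by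
  obtain ⟨D1, hD1⟩ := pair_aux (a := 3 / 2) (b := 2) 4 (by norm_num) (by norm_num)
  obtain ⟨D2, hD2⟩ := pair_aux (a := 2 - ε) (b := 2 - ε / 2) 8 (by linarith) (by linarith)
  have h1 := Real.isLittleO_log_id_atTop.bound (show (0 : ℝ) < 1 / 8 by norm_num)
  obtain ⟨D3, hD3⟩ := eventually_atTop.1 h1
  refine ⟨max (max D1 D2) (max D3 (max D0 8)), fun ℓ hℓ => ?_⟩
  have hl1 : D1 ≤ ℓ := le_trans (le_trans (le_max_left _ _) (le_max_left _ _)) hℓ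
  have hl2 : D2 ≤ ℓ := le_trans (le_trans (le_max_right _ _) (le_max_left _ _)) hℓ
  have hl3 : D3 ≤ ℓ := le_trans (le_trans (le_max_left _ _) (le_max_right _ _)) hℓ
  have hl4 : max D0 8 ≤ ℓ := le_trans (le_trans (le_max_right _ _) (le_max_right _ _)) hℓ
  have h8 : 8 ≤ ℓ := (le_max_right _ _).trans hl4
  have h0 : 0 < ℓ := by linarith
  refine ⟨by linarith, (le_max_left _ _).trans hl4, ?_, ?_, h8, ?_⟩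
  · have h2 := hD1 ℓ hl1
    have h3 : (2 * ℓ) ^ (3 / 2 : ℝ) = 2 ^ (3 / 2 : ℝ) * ℓ ^ (3 / 2 : ℝ) :=
      Real.mul_rpow (by norm_num) h0.le
    have h4 : (2 : ℝ) ^ (3 / 2 : ℝ) ≤ 2 ^ (2 : ℝ) :=
      Real.rpow_le_rpow_of_exponent_le (by norm_num) (by norm_num)
    have h5 : (2 : ℝ) ^ (2 : ℝ) = 4 := by norm_num
    have h6 : 0 ≤ ℓ ^ (3 / 2 : ℝ) := Real.rpow_nonneg h0.le _
    rw [h3]
    nlinarith
  · have h2 := hD3 ℓ hl3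
    have h3 : 0 ≤ log ℓ := Real.log_nonneg (by linarith)
    rw [Real.norm_eq_abs, abs_of_nonneg h3] at h2
    simp only [id, Real.norm_eq_abs, abs_of_pos h0] at h2
    linarith
  · have h2 := hD2 ℓ hl2
    have h3 : (2 * ℓ) ^ (2 - ε) = 2 ^ (2 - ε) * ℓ ^ (2 - ε) :=
      Real.mul_rpow (by norm_num) h0.le
    have h4 : (2 : ℝ) ^ (2 - ε) ≤ 2 ^ (2 : ℝ) :=
      Real.rpow_le_rpow_of_exponent_le (by norm_num) (by linarith)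
    have h5 : (2 : ℝ) ^ (2 : ℝ) = 4 := by norm_num
    have h6 : 0 ≤ ℓ ^ (2 - ε) := Real.rpow_nonneg h0.le _
    have h7 : (ℓ ^ (2 : ℝ)) ^ (1 - ε / 4) = ℓ ^ (2 - ε / 2) := by
      rw [← Real.rpow_mul h0.le]; congr 1; ring
    rw [h3, h7]
    nlinarith

/-- At most one exception in a small ball.
Proof. Let `d₁ ≠ d₂` be in the ball of radius `E = ℓ^c`, `ℓ = log |d₀|`, with `N(d_i)` small.
`d₁ d₂ d₀² = e₁ e₂ (k₁ k₂)²`, so by `kernel` `d₁ d₂ = s b²`, `s ≤ e₁ e₂ ≤ ℓ^(2c)`, and `d₁ d₂` is not a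
square (`fund_inj`). Apply `pair` with `A = 3/2`, `ε/4`, `y = ℓ²`: `log |d_i| ≤ 2 ℓ` (`near_size`), so
`(log |d_i|)^(3/2) ≤ (2ℓ)^(3/2) ≤ y`; `s ≤ ℓ^(2c) = y^c`. Hence one of the two, say `d₁`, has
`N(d₁) ≥ splitCount d₁ (ℓ²) ≥ y^(1-ε/4)/2 = ℓ^(2-ε/2)/2 ≥ (2ℓ)^(2-ε) ≥ (log |d₁|)^(2-ε)` for large `ℓ`
(if `ε ≥ 2` note `(log|d₁|)^(2-ε) ≤ 1`; or replace `ε` by `min ε 1` first). -/
theorem ball_one (ε : ℝ) (hε : 0 < ε) :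
    ∃ c : ℝ, 0 < c ∧ ∃ D : ℝ, ∀ d₀ : ℤ, d₀ < 0 → Fund d₀ → D ≤ |(d₀ : ℝ)| → ∀ d₁ d₂ : ℤ,
      Near d₀ (log |(d₀ : ℝ)| ^ c) d₁ → Near d₀ (log |(d₀ : ℝ)| ^ c) d₂ →
      (N d₁ : ℝ) < log |(d₁ : ℝ)| ^ (2 - ε) → (N d₂ : ℝ) < log |(d₂ : ℝ)| ^ (2 - ε) → d₁ = d₂ := by
  obtain ⟨ε₁, hε₁, hε₁1, hε₁ε⟩ : ∃ ε₁ : ℝ, 0 < ε₁ ∧ ε₁ ≤ 1 ∧ ε₁ ≤ ε :=
    ⟨min ε 1, lt_min hε one_pos, min_le_right _ _, min_le_left _ _⟩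
  obtain ⟨c, hc, D, hD⟩ := pair (3 / 2) (ε₁ / 4) (by norm_num) (by positivity)
  obtain ⟨DN, hDN⟩ := N_ge
  obtain ⟨L, hL⟩ := ballone_aux ε₁ hε₁ hε₁1 (max D 1)
  refine ⟨min c 1, lt_min hc one_pos, max (Real.exp (max L 1)) DN, ?_⟩
  intro d₀ h₀ hF₀ hd₀ d₁ d₂ hn1 hn2 hN1 hN2
  by_contra hne
  set ℓ : ℝ := log |(d₀ : ℝ)| with hℓ
  have hLℓ : L ≤ ℓ := by
    have h1 : Real.exp (max L 1) ≤ |(d₀ : ℝ)| := le_trans (le_max_left _ _) hd₀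
    have h2 : max L 1 ≤ ℓ := by
      rw [hℓ, Real.le_log_iff_exp_le (lt_of_lt_of_le (Real.exp_pos _) h1)]; exact h1
    exact le_trans (le_max_left _ _) h2
  obtain ⟨hℓ1, hℓD, h32, hlog, hℓ8, hfin⟩ := hL ℓ hLℓ
  have hℓ0 : 0 < ℓ := by linarith
  have hc1 : min c 1 ≤ 1 := min_le_right _ _
  have hcc : min c 1 ≤ c := min_le_left _ _
  have hc0 : 0 < min c 1 := lt_min hc one_pos
  have hE1 : 1 ≤ ℓ ^ (min c 1) := Real.one_le_rpow hℓ1 hc0.le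
  have hlogE : log (ℓ ^ (min c 1)) ≤ ℓ / 8 := by
    rw [Real.log_rpow hℓ0]
    have h0 : 0 ≤ log ℓ := Real.log_nonneg hℓ1
    nlinarith
  have hl4 : log 4 ≤ ℓ / 4 := by
    have : log 4 = 2 * log 2 := by
      rw [show (4 : ℝ) = 2 ^ 2 by norm_num, Real.log_pow]; norm_num
    have h2 := Real.log_two_lt_d9
    linarith
  have key : ∀ d : ℤ, Near d₀ (ℓ ^ (min c 1)) d → 1 ≤ log |(d : ℝ)| ∧ log |(d : ℝ)| ≤ 2 * ℓ ∧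
      splitCount d (ℓ ^ (2 : ℝ)) ≤ N d := by
    intro d hd
    obtain ⟨h1, h2⟩ := near_size hF₀ hd
    refine ⟨by rw [← hℓ] at h2; linarith, by rw [← hℓ] at h1; linarith, ?_⟩
    exact hDN d₀ hF₀ (le_trans (le_max_right _ _) hd₀) _ hE1 (by rw [← hℓ]; linarith) d hd
  obtain ⟨hlo1, hup1, hsp1⟩ := key d₁ hn1
  obtain ⟨hlo2, hup2, hsp2⟩ := key d₂ hn2
  obtain ⟨hd1, hF1, e₁, k₁, he₁, heE₁, hk₁⟩ := hn1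
  obtain ⟨hd2, hF2, e₂, k₂, he₂, heE₂, hk₂⟩ := hn2
  have hsq : ¬ IsSquare (d₁ * d₂) := fun h => hne (fund_inj hd1 hd2 hF1 hF2 h)
  have h12 : d₁ * d₂ ≠ 0 := mul_ne_zero (fund_ne hF1) (fund_ne hF2)
  have hj : d₀.natAbs ≠ 0 := Int.natAbs_ne_zero.2 (fund_ne hF₀)
  obtain ⟨s, b, hs, hse, hb, hx⟩ := kernel (x := d₁ * d₂) h12 (j := d₀.natAbs) (m := e₁ * e₂)
    (k := k₁ * k₂) hj (by
      have h3 : ((d₀.natAbs : ℤ)) ^ 2 = d₀ ^ 2 := Int.natAbs_sq d₀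
      rw [h3]
      push_cast
      calc d₁ * d₂ * d₀ ^ 2 = (d₁ * d₀) * (d₂ * d₀) := by ring
        _ = _ := by rw [hk₁, hk₂]; ring)
  have hse' : (s : ℝ) ≤ (ℓ ^ (2 : ℝ)) ^ c := by
    have h1 : (s : ℝ) ≤ (e₁ : ℝ) * e₂ := by exact_mod_cast hse
    have h2 : (e₁ : ℝ) * e₂ ≤ ℓ ^ (min c 1) * ℓ ^ (min c 1) :=
      mul_le_mul heE₁ heE₂ (by positivity) (by positivity)
    have h3 : ℓ ^ (min c 1) * ℓ ^ (min c 1) = ℓ ^ (2 * min c 1) := by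
      rw [← Real.rpow_add hℓ0]; congr 1; ring
    have h4 : ℓ ^ (2 * min c 1) ≤ ℓ ^ (2 * c) :=
      Real.rpow_le_rpow_of_exponent_le hℓ1 (by linarith)
    have h5 : (ℓ ^ (2 : ℝ)) ^ c = ℓ ^ (2 * c) := by rw [← Real.rpow_mul hℓ0.le]
    rw [h5]; linarith
  have hDy : D ≤ ℓ ^ (2 : ℝ) := by
    have h1 : D ≤ ℓ := le_trans (le_max_left _ _) hℓD
    have h2 : ℓ ≤ ℓ ^ (2 : ℝ) := by
      conv_lhs => rw [← Real.rpow_one ℓ]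
      exact Real.rpow_le_rpow_of_exponent_le hℓ1 (by norm_num)
    linarith
  have hlA : ∀ d : ℤ, 1 ≤ log |(d : ℝ)| → log |(d : ℝ)| ≤ 2 * ℓ →
      log |(d : ℝ)| ^ (3 / 2 : ℝ) ≤ ℓ ^ (2 : ℝ) := by
    intro d h1 h2
    exact (Real.rpow_le_rpow (by linarith) h2 (by norm_num)).trans h32
  have hp := hD d₁ d₂ (fund_mod hF1) (fund_mod hF2) hsq s b hx (ℓ ^ (2 : ℝ)) hDy
    (hlA d₁ hlo1 hup1) (hlA d₂ hlo2 hup2) hse'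
  have hNb : ∀ d : ℤ, 1 ≤ log |(d : ℝ)| → log |(d : ℝ)| ≤ 2 * ℓ →
      log |(d : ℝ)| ^ (2 - ε) ≤ (2 * ℓ) ^ (2 - ε₁) := by
    intro d h1 h2
    exact (Real.rpow_le_rpow_of_exponent_le h1 (by linarith)).trans
      (Real.rpow_le_rpow (by linarith) h2 (by linarith))
  have h1 := hNb d₁ hlo1 hup1
  have h2 := hNb d₂ hlo2 hup2
  have h3 : (splitCount d₁ (ℓ ^ (2 : ℝ)) : ℝ) ≤ N d₁ := by exact_mod_cast hsp1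
  have h4 : (splitCount d₂ (ℓ ^ (2 : ℝ)) : ℝ) ≤ N d₂ := by exact_mod_cast hsp2
  linarith

end Twist
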