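import Pool.Agent.W_aaa0df_h86.BallB

set_option autoImplicit false

namespace Twist

open Finset Real MPaaa0df

/-- a set all of whose finite subsets have at most `b` elements is finite with at most `b` elements -/
lemma finite_ncard_le {t : Set ℤ} {b : ℝ}
    (h : ∀ s : Finset ℤ, (∀ d ∈ s, d ∈ t) → (s.card : ℝ) ≤ b) : t.Finite ∧ (t.ncard : ℝ) ≤ b := by
  classical
  have ht : t.Finite := by
    by_contra hinf
    obtain ⟨s, hs, hc⟩ := Set.Infinite.exists_subset_card_eq hinf (⌊b⌋₊ + 1)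
    have h1 := h s (fun d hd => hs hd)
    rw [hc] at h1
    have h2 := Nat.lt_floor_add_one b
    push_cast at h1
    linarith
  refine ⟨ht, ?_⟩
  have h1 := h ht.toFinset (fun d hd => by simpa using hd)
  rwa [Set.ncard_eq_toFinset_card t ht]

/-- monotonicity of the bound in the constant -/
lemma bound_mono {C C' E ℓ : ℝ} (hC : 1 ≤ C) (hCC : C ≤ C') (hE : 1 ≤ E) (hℓ : 1 ≤ log ℓ) :
    (C * (log E + log ℓ)) ^ (12 + 8 * log E / log ℓ) ≤
      (C' * (log E + log ℓ)) ^ (12 + 8 * log E / log ℓ) := by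
  have h1 : 0 ≤ log E := Real.log_nonneg hE
  have h2 : 0 ≤ 12 + 8 * log E / log ℓ := by positivity
  apply Real.rpow_le_rpow _ _ h2
  · exact mul_nonneg (by linarith) (by linarith)
  · exact mul_le_mul_of_nonneg_right hCC (by linarith)

/-- final form -/
theorem twist_balls (β A δ : ℝ) (hβ : 1 < β) (hβA : β ≤ A) (hδ : 0 < δ) :
    ∃ C D : ℝ, ∀ d₀ : ℤ, d₀ < 0 → Fund d₀ → D ≤ |(d₀ : ℝ)| →
      ∀ E : ℝ, 1 ≤ E → log E ≤ (log |(d₀ : ℝ)|) ^ (1 / 8 : ℝ) →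
      (∀ y : ℝ, (log |(d₀ : ℝ)|) ^ β ≤ y → y ≤ (log |(d₀ : ℝ)|) ^ A →
        {d : ℤ | Near d₀ E d ∧
          δ * primeCount y < |(splitCount d y : ℝ) - primeCount y / 2|}.Finite ∧
        (Set.ncard {d : ℤ | Near d₀ E d ∧
          δ * primeCount y < |(splitCount d y : ℝ) - primeCount y / 2|} : ℝ) ≤
          (C * (log E + log (log |(d₀ : ℝ)|))) ^ (12 + 8 * log E / log (log |(d₀ : ℝ)|))) ∧
      {d : ℤ | Near d₀ E d ∧
        (N d : ℝ) < (1 / 2 - δ) * primeCount ((log |(d₀ : ℝ)|) ^ (2 : ℝ))}.Finite ∧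
      (Set.ncard {d : ℤ | Near d₀ E d ∧
        (N d : ℝ) < (1 / 2 - δ) * primeCount ((log |(d₀ : ℝ)|) ^ (2 : ℝ))} : ℝ) ≤
        (C * (log E + log (log |(d₀ : ℝ)|))) ^ (12 + 8 * log E / log (log |(d₀ : ℝ)|)) := by
  obtain ⟨C1, D1, hC1, h1⟩ := ball_count β A δ hβ hβA hδ
  obtain ⟨C2, D2, hC2, h2⟩ := ball_count 2 2 δ (by norm_num) le_rfl hδ
  obtain ⟨D3, h3⟩ := N_ge
  refine ⟨max C1 C2, max (max D1 D2) (max D3 (Real.exp (Real.exp 4))), ?_⟩
  intro d₀ h₀ hF hd E hE hlE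
  have hd1 : D1 ≤ |(d₀ : ℝ)| := le_trans (le_trans (le_max_left _ _) (le_max_left _ _)) hd
  have hd2 : D2 ≤ |(d₀ : ℝ)| := le_trans (le_trans (le_max_right _ _) (le_max_left _ _)) hd
  have hd3 : D3 ≤ |(d₀ : ℝ)| := le_trans (le_trans (le_max_left _ _) (le_max_right _ _)) hd
  have hd4 : Real.exp (Real.exp 4) ≤ |(d₀ : ℝ)| :=
    le_trans (le_trans (le_max_right _ _) (le_max_right _ _)) hd
  have hpos : 0 < |(d₀ : ℝ)| := lt_of_lt_of_le (Real.exp_pos _) hd4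
  have hl : Real.exp 4 ≤ log |(d₀ : ℝ)| := by
    rwa [Real.le_log_iff_exp_le hpos]
  have hl0 : 0 < log |(d₀ : ℝ)| := lt_of_lt_of_le (Real.exp_pos _) hl
  have hll : 4 ≤ log (log |(d₀ : ℝ)|) := by
    rwa [Real.le_log_iff_exp_le hl0]
  refine ⟨fun y hy1 hy2 => ?_, ?_⟩
  · apply finite_ncard_le
    intro s hs
    exact (h1 d₀ h₀ hF hd1 E hE hlE y hy1 hy2 s hs).trans
      (bound_mono hC1 (le_max_left _ _) hE (by linarith))
  · apply finite_ncard_le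
    intro s hs
    refine le_trans (h2 d₀ h₀ hF hd2 E hE hlE _ le_rfl le_rfl s ?_)
      (bound_mono hC2 (le_max_right _ _) hE (by linarith))
    intro d hds
    obtain ⟨hn, hN⟩ := hs d hds
    refine ⟨hn, ?_⟩
    have hlE' : log E ≤ log |(d₀ : ℝ)| / 4 := by
      refine hlE.trans ?_
      -- ℓ^(1/8) ≤ ℓ/4 for ℓ ≥ e^4
      have h4 : (log |(d₀ : ℝ)|) ^ (1 / 8 : ℝ) ≤ (log |(d₀ : ℝ)|) ^ (1 / 2 : ℝ) := by
        apply Real.rpow_le_rpow_of_exponent_le _ (by norm_num)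
        have := Real.add_one_le_exp (4 : ℝ)
        linarith
      have h5 : 4 ≤ (log |(d₀ : ℝ)|) ^ (1 / 2 : ℝ) := by
        rw [← Real.sqrt_eq_rpow]
        apply Real.le_sqrt_of_sq_le
        have h6 : (16 : ℝ) ≤ Real.exp 4 := by
          have h7 : Real.exp 4 = (Real.exp 1) ^ 4 := by
            rw [← Real.exp_nat_mul]; norm_num
          have h8 := Real.exp_one_gt_d9
          have h9 : (2 : ℝ) ^ 4 ≤ (Real.exp 1) ^ 4 :=
            pow_le_pow_left₀ (by norm_num) (by linarith) 4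
          rw [h7]; linarith
        linarith
      have h6 : (log |(d₀ : ℝ)|) ^ (1 / 2 : ℝ) * (log |(d₀ : ℝ)|) ^ (1 / 2 : ℝ) =
          log |(d₀ : ℝ)| := by
        rw [← Real.rpow_add hl0]; norm_num
      nlinarith
    have h4 := h3 d₀ hF hd3 E hE hlE' d hn
    have h5 : (splitCount d ((log |(d₀ : ℝ)|) ^ (2 : ℝ)) : ℝ) ≤ N d := by exact_mod_cast h4
    have h6 := neg_le_abs ((splitCount d ((log |(d₀ : ℝ)|) ^ (2 : ℝ)) : ℝ) -
      primeCount ((log |(d₀ : ℝ)|) ^ (2 : ℝ)) / 2)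
    linarith

end Twist
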