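import Pool.Agent.W_aaa0df_h86.Basic

set_option autoImplicit false

namespace Twist

open Finset Real

lemma abellog_aux1 {a c t : ℝ} (h0 : 0 ≤ a) (h1 : a ≤ t) :
    IntervalIntegrable (fun s : ℝ => if a ≤ s then c else 0) MeasureTheory.volume 0 t ∧
    ∫ s in (0 : ℝ)..t, (if a ≤ s then c else 0) = c * (t - a) := by
  have hA : IntervalIntegrable (fun s : ℝ => if a ≤ s then c else 0) MeasureTheory.volume 0 a := by
    refine (intervalIntegrable_const (c := (0 : ℝ)) : IntervalIntegrable _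
      MeasureTheory.volume 0 a).congr_ae ?_
    rw [Filter.EventuallyEq, MeasureTheory.ae_restrict_iff' measurableSet_uIoc]
    have h2 : ∀ᵐ x : ℝ, x ≠ a := by
      rw [MeasureTheory.ae_iff]; simp
    filter_upwards [h2] with x hx hx2
    rw [Set.uIoc_of_le h0] at hx2
    rw [if_neg]
    intro h3
    exact hx (le_antisymm hx2.2 h3)
  have hB : IntervalIntegrable (fun s : ℝ => if a ≤ s then c else 0) MeasureTheory.volume a t := by
    refine (intervalIntegrable_const (c := c) : IntervalIntegrable _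
      MeasureTheory.volume a t).congr_ae ?_
    rw [Filter.EventuallyEq, MeasureTheory.ae_restrict_iff' measurableSet_uIoc]
    refine Filter.Eventually.of_forall fun x hx => ?_
    rw [Set.uIoc_of_le h1] at hx
    rw [if_pos hx.1.le]
  refine ⟨hA.trans hB, ?_⟩
  rw [← intervalIntegral.integral_add_adjacent_intervals hA hB]
  have e1 : ∫ s in (0 : ℝ)..a, (if a ≤ s then c else 0) = ∫ s in (0 : ℝ)..a, (0 : ℝ) := by
    apply intervalIntegral.integral_congr_ae
    have h2 : ∀ᵐ x : ℝ, x ≠ a := by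
      rw [MeasureTheory.ae_iff]; simp
    filter_upwards [h2] with x hx hx2
    rw [Set.uIoc_of_le h0] at hx2
    rw [if_neg]
    intro h3
    exact hx (le_antisymm hx2.2 h3)
  have e2 : ∫ s in a..t, (if a ≤ s then c else 0) = ∫ s in a..t, c := by
    apply intervalIntegral.integral_congr_ae
    refine Filter.Eventually.of_forall fun x hx => ?_
    rw [Set.uIoc_of_le h1] at hx
    rw [if_pos hx.1.le]
  rw [e1, e2]
  simp
  ring

lemma abellog_aux2 (c : ℕ → ℝ) {s t : ℝ} (h : s ≤ t) :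
    S c s = ∑ n ∈ Icc 1 ⌊Real.exp t⌋₊, if log n ≤ s then c n else 0 := by
  rw [← Finset.sum_filter]
  unfold S
  apply Finset.sum_congr _ (fun _ _ => rfl)
  ext n
  rw [mem_filter, mem_S, mem_S]
  constructor
  · rintro ⟨h1, h2⟩
    exact ⟨⟨h1, h2.trans h⟩, h2⟩
  · rintro ⟨⟨h1, _⟩, h2⟩
    exact ⟨h1, h2⟩

lemma abellog_aux3 (c : ℕ → ℝ) {t : ℝ} (ht : 0 ≤ t) :
    IntervalIntegrable (fun s => S c s) MeasureTheory.volume 0 t ∧
    ∫ s in (0 : ℝ)..t, S c s = ∑ n ∈ Icc 1 ⌊Real.exp t⌋₊, c n * (t - log n) := by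
  have hi : ∀ n ∈ Icc 1 ⌊Real.exp t⌋₊, IntervalIntegrable
      (fun s : ℝ => if log n ≤ s then c n else 0) MeasureTheory.volume 0 t := by
    intro n hn
    have h1 := mem_S.1 hn
    exact (abellog_aux1 (Real.log_nonneg (by exact_mod_cast h1.1)) h1.2).1
  have hsum := IntervalIntegrable.sum (Icc 1 ⌊Real.exp t⌋₊) hi
  have hcongr : ∀ s ∈ Set.uIoc 0 t, (∑ n ∈ Icc 1 ⌊Real.exp t⌋₊,
      (fun s : ℝ => if log n ≤ s then c n else 0)) s = S c s := by
    intro s hs
    rw [Set.uIoc_of_le ht] at hs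
    rw [Finset.sum_apply, abellog_aux2 c hs.2]
  constructor
  · exact hsum.congr hcongr
  · rw [← intervalIntegral.integral_congr_ae (f := (∑ n ∈ Icc 1 ⌊Real.exp t⌋₊,
      (fun s : ℝ => if log n ≤ s then c n else 0)))
      (Filter.Eventually.of_forall hcongr)]
    simp only [Finset.sum_apply]
    rw [intervalIntegral.integral_finsetSum hi]
    refine Finset.sum_congr rfl fun n hn => ?_
    have h1 := mem_S.1 hn
    exact (abellog_aux1 (Real.log_nonneg (by exact_mod_cast h1.1)) h1.2).2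

/-- Abel summation against `log`.
Proof. `∑_{n ≤ e^t} c(n) log n = t C(t) - ∫_0^t C(s) ds` with `C = S c` (each `n ≤ e^t` contributes
`c n (t - (t - log n))`; or `sum_mul_eq_sub_integral_mul` of Mathlib/NumberTheory/AbelSummation with
`f = log` on `[1, e^t]` and `u = e^s`). Write `C(s) = L s + k + E(s)`: the main terms give
`t (L t + k) - L t²/2 - k t = L t²/2`, the rest is at most
`t |E(t)| + ∫_0^τ |E| + ∫_τ^t |E| ≤ t b₁ + τ b₀ + (t - τ) b₁`. -/
theorem abel_log {c : ℕ → ℝ} {L k b₀ b₁ τ t : ℝ} (hτ : 0 ≤ τ) (ht : τ ≤ t)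
    (hb₀ : 0 ≤ b₀) (hb₁ : 0 ≤ b₁)
    (h0 : ∀ s, 0 ≤ s → s ≤ τ → |S c s - (L * s + k)| ≤ b₀)
    (h1 : ∀ s, τ ≤ s → s ≤ t → |S c s - (L * s + k)| ≤ b₁) :
    |S (fun n => c n * log n) t - L * t ^ 2 / 2| ≤ 2 * t * b₁ + τ * b₀ := by
  have ht0 : 0 ≤ t := hτ.trans ht
  obtain ⟨hi, he⟩ := abellog_aux3 c ht0
  have hlin : IntervalIntegrable (fun s : ℝ => L * s + k) MeasureTheory.volume 0 t :=
    Continuous.intervalIntegrable (by fun_prop) _ _
  have hE : IntervalIntegrable (fun s => S c s - (L * s + k)) MeasureTheory.volume 0 t :=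
    hi.sub hlin
  have hEi : ∫ s in (0 : ℝ)..t, (S c s - (L * s + k)) =
      (∑ n ∈ Icc 1 ⌊Real.exp t⌋₊, c n * (t - log n)) - (L * t ^ 2 / 2 + k * t) := by
    rw [intervalIntegral.integral_sub hi hlin, he]
    congr 1
    rw [intervalIntegral.integral_add (Continuous.intervalIntegrable (by fun_prop) _ _)
      (Continuous.intervalIntegrable (by fun_prop) _ _),
      intervalIntegral.integral_const_mul, integral_id, intervalIntegral.integral_const]
    simp
    ring
  have hmain : S (fun n => c n * log n) t =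
      t * S c t - ∑ n ∈ Icc 1 ⌊Real.exp t⌋₊, c n * (t - log n) := by
    unfold S
    rw [Finset.mul_sum, ← Finset.sum_sub_distrib]
    refine Finset.sum_congr rfl fun n _ => ?_
    ring
  have hsub1 : IntervalIntegrable (fun s => S c s - (L * s + k)) MeasureTheory.volume 0 τ :=
    hE.mono_set (by rw [Set.uIcc_of_le hτ, Set.uIcc_of_le ht0]; exact Set.Icc_subset_Icc_right ht)
  have hsub2 : IntervalIntegrable (fun s => S c s - (L * s + k)) MeasureTheory.volume τ t :=
    hE.mono_set (by rw [Set.uIcc_of_le ht, Set.uIcc_of_le ht0]; exact Set.Icc_subset_Icc_left hτ)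
  have hsplit := intervalIntegral.integral_add_adjacent_intervals hsub1 hsub2
  have hb1 : ‖∫ s in (0 : ℝ)..τ, (S c s - (L * s + k))‖ ≤ b₀ * |τ - 0| := by
    apply intervalIntegral.norm_integral_le_of_norm_le_const
    intro s hs
    rw [Set.uIoc_of_le hτ] at hs
    exact h0 s hs.1.le hs.2
  have hb2 : ‖∫ s in τ..t, (S c s - (L * s + k))‖ ≤ b₁ * |t - τ| := by
    apply intervalIntegral.norm_integral_le_of_norm_le_const
    intro s hs
    rw [Set.uIoc_of_le ht] at hs
    exact h1 s hs.1.le hs.2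
  rw [Real.norm_eq_abs, sub_zero, abs_of_nonneg hτ] at hb1
  rw [Real.norm_eq_abs, abs_of_nonneg (sub_nonneg.2 ht)] at hb2
  have hend := h1 t ht le_rfl
  set I1 := ∫ s in (0 : ℝ)..τ, (S c s - (L * s + k))
  set I2 := ∫ s in τ..t, (S c s - (L * s + k))
  have hfin : S (fun n => c n * log n) t - L * t ^ 2 / 2 =
      t * (S c t - (L * t + k)) - I1 - I2 := by
    rw [hmain]
    have : I1 + I2 = (∑ n ∈ Icc 1 ⌊Real.exp t⌋₊, c n * (t - log n)) - (L * t ^ 2 / 2 + k * t) := by
      rw [hsplit, hEi]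
    linarith
  rw [hfin]
  have h5 : |t * (S c t - (L * t + k))| ≤ t * b₁ := by
    rw [abs_mul, abs_of_nonneg ht0]
    exact mul_le_mul_of_nonneg_left hend ht0
  have h6 := abs_le.1 h5
  have h7 := abs_le.1 hb1
  have h8 := abs_le.1 hb2
  have h9 : 0 ≤ τ * b₁ := mul_nonneg hτ hb₁
  rw [abs_le]
  constructor <;> nlinarith
end Twist
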