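import Pool.Agent.W_aaa0df_h86.Basic

set_option autoImplicit false

namespace Twist

open Finset Real

/-- The derivation property of the multiplication by the logarithm. -/
lemma conv_deriv (f g : ArithmeticFunction ℝ) (n : ℕ) :
    (f * g) n * log n = (f.pmul ArithmeticFunction.log * g) n +
      (f * g.pmul ArithmeticFunction.log) n := by
  rw [ArithmeticFunction.mul_apply, ArithmeticFunction.mul_apply, ArithmeticFunction.mul_apply,
    Finset.sum_mul, ← Finset.sum_add_distrib]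
  refine Finset.sum_congr rfl fun x hx => ?_
  obtain ⟨h1, h2⟩ := Nat.mem_divisorsAntidiagonal.1 hx
  have h3 : x.1 ≠ 0 := by
    rintro h
    rw [h, zero_mul] at h1
    exact h2 h1.symm
  have h4 : x.2 ≠ 0 := by
    rintro h
    rw [h, mul_zero] at h1
    exact h2 h1.symm
  rw [ArithmeticFunction.pmul_apply, ArithmeticFunction.pmul_apply,
    ArithmeticFunction.log_apply, ArithmeticFunction.log_apply, ← h1, Nat.cast_mul,
    Real.log_mul (Nat.cast_ne_zero.2 h3) (Nat.cast_ne_zero.2 h4)]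
  ring

/-- Completely multiplicative functions distribute over the convolution. -/
lemma conv_pmul {χ : ℕ → ℝ} (hm : ∀ m n : ℕ, χ (m * n) = χ m * χ n)
    (X f g : ArithmeticFunction ℝ) (hX : ∀ n, X n = χ n) :
    X.pmul (f * g) = X.pmul f * X.pmul g := by
  ext n
  rw [ArithmeticFunction.pmul_apply, ArithmeticFunction.mul_apply, ArithmeticFunction.mul_apply,
    Finset.mul_sum]
  refine Finset.sum_congr rfl fun x hx => ?_
  obtain ⟨h1, h2⟩ := Nat.mem_divisorsAntidiagonal.1 hx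
  rw [ArithmeticFunction.pmul_apply, ArithmeticFunction.pmul_apply, hX, hX, hX, ← h1, hm]
  ring

/-- `r · log = a * r` with `a = (1+χ)Λ`, `r = 1*χ`.
Proof. `log · (1 * χ) = (log·1) * χ + 1 * (log·χ)` because `log n = log d + log (n/d)`;
`log·1 = Λ * 1` and `log·χ = (χΛ) * χ` by `∑_{d ∣ n} Λ(d) = log n`
(`ArithmeticFunction.vonMangoldt_sum`) and complete multiplicativity. So
`r log = Λ * 1 * χ + 1 * χ * (χΛ) = (Λ + χΛ) * r`. Convenient: work in the semiring
`ArithmeticFunction ℝ` (associativity and commutativity of `*` are free there). -/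
theorem rr_log {q : ℝ} {χ : ℕ → ℝ} (h : RChar q χ) (n : ℕ) :
    rr χ n * log n = ∑ d ∈ n.divisors, aa χ d * rr χ (n / d) := by
  set X : ArithmeticFunction ℝ := ⟨χ, h.zero⟩ with hX
  have hXa : ∀ n, X n = χ n := fun n => rfl
  set Z : ArithmeticFunction ℝ := (ArithmeticFunction.zeta : ArithmeticFunction ℝ) with hZ
  set L : ArithmeticFunction ℝ := ArithmeticFunction.vonMangoldt with hL
  have hr : ∀ m, rr χ m = (X * Z) m := by
    intro m
    rw [hZ, ArithmeticFunction.coe_mul_zeta_apply]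
    rfl
  have ha : ∀ m, aa χ m = (L + X.pmul L) m := by
    intro m
    rw [ArithmeticFunction.add_apply, ArithmeticFunction.pmul_apply, hXa]
    unfold aa lam
    ring
  have hXZ : X.pmul Z = X := by
    rw [hZ]
    exact ArithmeticFunction.pmul_zeta X
  have hZlog : Z.pmul ArithmeticFunction.log = L * Z := by
    rw [hZ, hL, ArithmeticFunction.zeta_pmul, ArithmeticFunction.vonMangoldt_mul_zeta]
  have hXlog : X.pmul ArithmeticFunction.log = X.pmul L * X := by
    rw [← ArithmeticFunction.vonMangoldt_mul_zeta, conv_pmul h.mul X _ _ hXa, ← hZ, hXZ]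
  rw [hr, conv_deriv, hZlog, hXlog]
  have h1 : ∑ d ∈ n.divisors, aa χ d * rr χ (n / d) = ((L + X.pmul L) * (X * Z)) n := by
    rw [ArithmeticFunction.mul_apply,
      Nat.sum_divisorsAntidiagonal (fun a b => (L + X.pmul L) a * (X * Z) b)]
    refine Finset.sum_congr rfl fun d _ => ?_
    rw [ha, hr]
  rw [h1, ← ArithmeticFunction.add_apply]
  congr 1
  ring

/-- summed form: `∑_{n ≤ e^t} r(n) log n / n = ∑_{d ≤ e^t} (a(d)/d) R(t - log d)`.
Proof. Insert `rr_log`, exchange the order of summation (`n = d m`, `n ≤ e^t`, i.e.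
`log m ≤ t - log d`; `⌊e^t⌋ / d = ⌊e^(t - log d)⌋`), `1/n = (1/d)(1/m)`. -/
theorem S_conv {q : ℝ} {χ : ℕ → ℝ} (h : RChar q χ) (t : ℝ) :
    S (fun n => rr χ n / n * log n) t =
      ∑ d ∈ Icc 1 ⌊Real.exp t⌋₊, aa χ d / d * RR χ (t - log d) := by
  have h1 : S (fun n => rr χ n / n * log n) t = ∑ n ∈ Icc 1 ⌊Real.exp t⌋₊, ∑ d ∈ n.divisors,
      aa χ d / d * (rr χ (n / d) / ((n / d : ℕ) : ℝ)) := by
    unfold S
    refine Finset.sum_congr rfl fun n hn => ?_
    have hn0 : (n : ℝ) ≠ 0 := by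
      have := (mem_S.1 hn).1
      exact_mod_cast (by omega : n ≠ 0)
    change rr χ n / n * log n = _
    rw [div_mul_eq_mul_div, rr_log h, Finset.sum_div]
    refine Finset.sum_congr rfl fun d hd => ?_
    have hd1 : d ∣ n := Nat.dvd_of_mem_divisors hd
    have hd0 : (d : ℝ) ≠ 0 := by
      intro h0
      have h2 : d = 0 := by exact_mod_cast h0
      rw [h2] at hd1
      have h3 := Nat.eq_zero_of_zero_dvd hd1
      exact hn0 (by rw [h3]; exact Nat.cast_zero)
    rw [Nat.cast_div hd1 hd0]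
    field_simp
  have h2 : ∑ d ∈ Icc 1 ⌊Real.exp t⌋₊, aa χ d / d * RR χ (t - log d) =
      ∑ d ∈ Icc 1 ⌊Real.exp t⌋₊, ∑ m ∈ Icc 1 ⌊Real.exp (t - log d)⌋₊,
        aa χ d / d * (rr χ m / (m : ℝ)) := by
    refine Finset.sum_congr rfl fun d _ => ?_
    unfold RR S
    rw [Finset.mul_sum]
  rw [h1, h2, Finset.sum_sigma', Finset.sum_sigma']
  refine Finset.sum_bij' (fun (x : (_ : ℕ) × ℕ) _ => (⟨x.2, x.1 / x.2⟩ : (_ : ℕ) × ℕ))
    (fun (y : (_ : ℕ) × ℕ) _ => (⟨y.1 * y.2, y.1⟩ : (_ : ℕ) × ℕ)) ?_ ?_ ?_ ?_ ?_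
  · rintro ⟨n, d⟩ hx
    rw [Finset.mem_sigma] at hx ⊢
    obtain ⟨hn, hd⟩ := hx
    simp only at hn hd ⊢
    obtain ⟨hn1, hn2⟩ := mem_S.1 hn
    have hdn : d ∣ n := Nat.dvd_of_mem_divisors hd
    obtain ⟨m, rfl⟩ := hdn
    have hd0 : d ≠ 0 := by rintro rfl; rw [zero_mul] at hn1; omega
    have hm0 : m ≠ 0 := by rintro rfl; rw [mul_zero] at hn1; omega
    rw [Nat.mul_div_cancel_left m (Nat.pos_of_ne_zero hd0), mem_S, mem_S]
    have hl : log ((d * m : ℕ) : ℝ) = log d + log m := by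
      rw [Nat.cast_mul, Real.log_mul (Nat.cast_ne_zero.2 hd0) (Nat.cast_ne_zero.2 hm0)]
    have hlm : 0 ≤ log (m : ℝ) := Real.log_natCast_nonneg m
    rw [hl] at hn2
    refine ⟨⟨by omega, by linarith⟩, by omega, by linarith⟩
  · rintro ⟨d, m⟩ hy
    rw [Finset.mem_sigma] at hy ⊢
    obtain ⟨hd, hm⟩ := hy
    simp only at hd hm ⊢
    obtain ⟨hd1, hd2⟩ := mem_S.1 hd
    obtain ⟨hm1, hm2⟩ := mem_S.1 hm
    have hd0 : d ≠ 0 := by omega
    have hm0 : m ≠ 0 := by omega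
    have hl : log ((d * m : ℕ) : ℝ) = log d + log m := by
      rw [Nat.cast_mul, Real.log_mul (Nat.cast_ne_zero.2 hd0) (Nat.cast_ne_zero.2 hm0)]
    rw [mem_S, hl]
    refine ⟨⟨Nat.mul_pos hd1 hm1, by linarith⟩, ?_⟩
    rw [Nat.mem_divisors]
    exact ⟨Dvd.intro m rfl, Nat.mul_ne_zero hd0 hm0⟩
  · rintro ⟨n, d⟩ hx
    rw [Finset.mem_sigma] at hx
    have hdn : d ∣ n := Nat.dvd_of_mem_divisors hx.2
    simp only
    rw [Nat.mul_div_cancel' hdn]
  · rintro ⟨d, m⟩ hy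
    rw [Finset.mem_sigma] at hy
    have hd1 : 1 ≤ d := (mem_S.1 hy.1).1
    simp only
    rw [Nat.mul_div_cancel_left m hd1]
  · rintro ⟨n, d⟩ hx
    rfl

end Twist
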