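import Pool.Agent.W_aaa0df_h86.Basic

set_option autoImplicit false

namespace Twist

open Finset Real

/-- the summable majorant -/
lemma merta_aux_log (p : ℕ) (hp : 1 ≤ p) :
    Real.log p / (p : ℝ) ^ 2 ≤ 2 * (1 / (p : ℝ) ^ ((3 : ℝ) / 2)) := by
  have h0 : (0 : ℝ) < p := by exact_mod_cast hp
  have h1 : Real.log p ≤ 2 * (p : ℝ) ^ ((1 : ℝ) / 2) := by
    have h := Real.log_le_rpow_div h0.le (ε := (1 : ℝ) / 2) (by norm_num)
    have h2 : (p : ℝ) ^ ((1 : ℝ) / 2) / (1 / 2) = 2 * (p : ℝ) ^ ((1 : ℝ) / 2) := by ring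
    rwa [h2] at h
  have h3 : (p : ℝ) ^ 2 = (p : ℝ) ^ ((1 : ℝ) / 2) * (p : ℝ) ^ ((3 : ℝ) / 2) := by
    rw [← Real.rpow_add h0]
    norm_num
  have h4 : (0 : ℝ) < (p : ℝ) ^ ((1 : ℝ) / 2) := Real.rpow_pos_of_pos h0 _
  have h5 : (0 : ℝ) < (p : ℝ) ^ ((3 : ℝ) / 2) := Real.rpow_pos_of_pos h0 _
  rw [h3, div_le_iff₀ (mul_pos h4 h5)]
  calc Real.log p ≤ 2 * (p : ℝ) ^ ((1 : ℝ) / 2) := h1
    _ = 2 * (1 / (p : ℝ) ^ ((3 : ℝ) / 2)) * ((p : ℝ) ^ ((1 : ℝ) / 2) * (p : ℝ) ^ ((3 : ℝ) / 2)) := by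
        field_simp

/-- a non-prime `n` with `Λ(n) ≠ 0` -/
lemma merta_aux_pow {n : ℕ} (hn : ¬ n.Prime) (hl : lam n ≠ 0) :
    ∃ q : ℕ × ℕ, q.1.Prime ∧ q.1 ^ (q.2 + 2) = n := by
  have h1 : IsPrimePow n := ArithmeticFunction.vonMangoldt_ne_zero_iff.1 hl
  obtain ⟨p, k, hp, hk, rfl⟩ := (isPrimePow_nat_iff n).1 h1
  have hk2 : 2 ≤ k := by
    by_contra hcon
    have : k = 1 := by omega
    subst this
    rw [pow_one] at hn
    exact hn hp
  exact ⟨(p, k - 2), hp, by simp only; congr 1; omega⟩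

/-- the value of `Λ(n)/n` at a higher prime power -/
lemma merta_aux_val (p j : ℕ) (hp : p.Prime) :
    lam (p ^ (j + 2)) / ((p ^ (j + 2) : ℕ) : ℝ) ≤ Real.log p / (p : ℝ) ^ 2 * (1 / 2) ^ j := by
  have h1 : lam (p ^ (j + 2)) = Real.log p := by
    unfold lam
    rw [ArithmeticFunction.vonMangoldt_apply_pow (by omega),
      ArithmeticFunction.vonMangoldt_apply_prime hp]
  have hp2 : (2 : ℝ) ≤ p := by exact_mod_cast hp.two_le
  have hp0 : (0 : ℝ) < p := by linarith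
  have hlog : 0 ≤ Real.log p := Real.log_nonneg (by linarith)
  rw [h1]
  push_cast
  have h2 : (p : ℝ) ^ (j + 2) = (p : ℝ) ^ 2 * (p : ℝ) ^ j := by rw [pow_add]; ring
  have h3 : (2 : ℝ) ^ j ≤ (p : ℝ) ^ j := pow_le_pow_left₀ (by norm_num) hp2 j
  rw [h2, div_mul_eq_div_div, div_eq_mul_one_div (Real.log p / (p : ℝ) ^ 2) ((p : ℝ) ^ j)]
  refine mul_le_mul_of_nonneg_left ?_ (by positivity)
  rw [one_div_pow]
  exact one_div_le_one_div_of_le (by positivity) h3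

/-- Sum of `Λ(n)/n` over non-primes is bounded.
Proof. A non-prime `n` with `Λ(n) ≠ 0` is `p^k` with `k ≥ 2` and `Λ(n) = log p`; the sum over
`k ≥ 2` of `log p / p^k` is `log p /(p (p-1)) ≤ 2 log p / p^2 ≤ 4 p^(-3/2)` (as `log p ≤ 2 √p`), and
`∑ n^(-3/2)` converges. (Alternative: for non-primes `∑ Λ(n)/n` is at most
`∑_{p ≤ N} ∑_{2 ≤ k ≤ N} log p/p^k`, by the injectivity of `(p,k) ↦ p^k`; Mathlib has
`Chebyshev.sum_PrimePow_eq_sum_sum` or use `psi - theta`, which is `≤ C √x`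
(`Chebyshev.psi_sub_theta_le_mul_sqrt`), and Abel summation.) -/
theorem nonprime_sum : ∃ C : ℝ, 0 ≤ C ∧ ∀ N : ℕ,
    ∑ n ∈ (Icc 1 N).filter (fun n : ℕ => ¬ n.Prime), lam n / n ≤ C := by
  classical
  have hsum : Summable (fun n : ℕ => 2 * (1 / (n : ℝ) ^ ((3 : ℝ) / 2))) :=
    (Real.summable_one_div_nat_rpow.2 (by norm_num)).mul_left 2
  have hnn : ∀ n : ℕ, 0 ≤ 2 * (1 / (n : ℝ) ^ ((3 : ℝ) / 2)) := fun n => by positivity
  refine ⟨(∑' n : ℕ, 2 * (1 / (n : ℝ) ^ ((3 : ℝ) / 2))) * 2,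
    mul_nonneg (tsum_nonneg hnn) (by norm_num), fun N => ?_⟩
  set T := ((Icc 1 N).filter (fun n : ℕ => ¬ n.Prime)).filter (fun n => lam n ≠ 0) with hT
  set φ : ℕ → ℕ × ℕ := fun n =>
    if h : ∃ q : ℕ × ℕ, q.1.Prime ∧ q.1 ^ (q.2 + 2) = n then h.choose else (0, 0) with hφ
  have hφs : ∀ n ∈ T, (φ n).1.Prime ∧ (φ n).1 ^ ((φ n).2 + 2) = n := by
    intro n hn
    rw [hT, mem_filter, mem_filter] at hn
    have h := merta_aux_pow hn.1.2 hn.2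
    simp only [hφ, dif_pos h]
    exact h.choose_spec
  have hinj : Set.InjOn φ T := by
    intro a ha b hb hab
    rw [← (hφs a ha).2, ← (hφs b hb).2, hab]
  set F : ℕ × ℕ → ℝ := fun q => Real.log q.1 / (q.1 : ℝ) ^ 2 * (1 / 2) ^ q.2 with hF
  have hF0 : ∀ q, 0 ≤ F q := by
    intro q
    simp only [hF]
    have : 0 ≤ Real.log q.1 := Real.log_natCast_nonneg _
    positivity
  have hsub : T.image φ ⊆ Icc 1 N ×ˢ range N := by
    intro q hq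
    obtain ⟨n, hn, rfl⟩ := mem_image.1 hq
    obtain ⟨h1, h2⟩ := hφs n hn
    rw [hT, mem_filter, mem_filter, mem_Icc] at hn
    have h3 : (φ n).1 ≤ n := by
      calc (φ n).1 = (φ n).1 ^ 1 := (pow_one _).symm
        _ ≤ (φ n).1 ^ ((φ n).2 + 2) := Nat.pow_le_pow_right h1.pos (by omega)
        _ = n := h2
    have h4 : (φ n).2 < n := by
      calc (φ n).2 < (φ n).2 + 2 := by omega
        _ < 2 ^ ((φ n).2 + 2) := Nat.lt_two_pow_self
        _ ≤ (φ n).1 ^ ((φ n).2 + 2) := Nat.pow_le_pow_left h1.two_le _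
        _ = n := h2
    rw [mem_product, mem_Icc, mem_range]
    exact ⟨⟨h1.one_le, h3.trans hn.1.1.2⟩, h4.trans_le hn.1.1.2⟩
  calc ∑ n ∈ (Icc 1 N).filter (fun n : ℕ => ¬ n.Prime), lam n / n
      = ∑ n ∈ T, lam n / n := by
        rw [hT]
        symm
        refine Finset.sum_filter_of_ne fun n _ hne h0 => hne ?_
        rw [h0, zero_div]
    _ ≤ ∑ n ∈ T, F (φ n) := by
        refine Finset.sum_le_sum fun n hn => ?_
        obtain ⟨h1, h2⟩ := hφs n hn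
        have h3 := merta_aux_val (φ n).1 (φ n).2 h1
        rw [h2] at h3
        exact h3
    _ = ∑ q ∈ T.image φ, F q := (Finset.sum_image hinj).symm
    _ ≤ ∑ q ∈ Icc 1 N ×ˢ range N, F q :=
        Finset.sum_le_sum_of_subset_of_nonneg hsub fun q _ _ => hF0 q
    _ = (∑ p ∈ Icc 1 N, Real.log p / (p : ℝ) ^ 2) * ∑ j ∈ range N, ((1 : ℝ) / 2) ^ j := by
        rw [Finset.sum_product, Finset.sum_mul_sum]
    _ ≤ (∑' n : ℕ, 2 * (1 / (n : ℝ) ^ ((3 : ℝ) / 2))) * 2 := by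
        refine mul_le_mul ?_ (sum_geometric_two_le N) (by positivity) (tsum_nonneg hnn)
        calc ∑ p ∈ Icc 1 N, Real.log p / (p : ℝ) ^ 2
            ≤ ∑ p ∈ Icc 1 N, 2 * (1 / (p : ℝ) ^ ((3 : ℝ) / 2)) :=
              Finset.sum_le_sum fun p hp => merta_aux_log p (mem_Icc.1 hp).1
          _ ≤ _ := hsum.sum_le_tsum _ fun n _ => hnn n

end Twist
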