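import Pool.Agent.W_aaa0df_h86.Basic

set_option autoImplicit false

namespace Twist

open Finset Real

lemma rr_one {q : ℝ} {χ : ℕ → ℝ} (h : RChar q χ) : rr χ 1 = 1 := by
  unfold rr
  rw [Nat.divisors_one, Finset.sum_singleton, h.one]

/-- `χ` as an arithmetic function -/
noncomputable def nonneg_af {q : ℝ} {χ : ℕ → ℝ} (h : RChar q χ) : ArithmeticFunction ℝ :=
  ⟨χ, h.zero⟩

lemma nonneg_mult {q : ℝ} {χ : ℕ → ℝ} (h : RChar q χ) : (nonneg_af h).IsMultiplicative :=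
  ⟨h.one, fun {m n} _ => h.mul m n⟩

lemma nonneg_eq {q : ℝ} {χ : ℕ → ℝ} (h : RChar q χ) (n : ℕ) :
    ((ArithmeticFunction.zeta : ArithmeticFunction ℝ) * nonneg_af h) n = rr χ n := by
  rw [ArithmeticFunction.coe_zeta_mul_apply]
  rfl

lemma nonneg_pow {q : ℝ} {χ : ℕ → ℝ} (h : RChar q χ) (m k : ℕ) : χ (m ^ k) = χ m ^ k := by
  induction k with
  | zero => rw [pow_zero, pow_zero, h.one]
  | succ k ih => rw [pow_succ, pow_succ, h.mul, ih]

lemma nonneg_prime_pow {q : ℝ} {χ : ℕ → ℝ} (h : RChar q χ) {p : ℕ} (hp : p.Prime) (k : ℕ) :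
    0 ≤ rr χ (p ^ k) := by
  unfold rr
  rw [Nat.sum_divisors_prime_pow hp]
  simp only [nonneg_pow h]
  rcases h.val p with h1 | h1 | h1 <;> rw [h1]
  · exact Finset.sum_nonneg fun i _ => pow_nonneg le_rfl i
  · exact Finset.sum_nonneg fun i _ => by rw [one_pow]; exact zero_le_one
  · rw [neg_one_geom_sum]
    split_ifs
    exacts [le_rfl, zero_le_one]

/-- `r = 1 * χ ≥ 0`.
Proof. `r` is multiplicative on coprime arguments (`χ` is completely multiplicative), and at a prime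
power `r(p^k) = ∑_{j ≤ k} χ(p)^j ≥ 0` because `χ(p) ∈ {-1,0,1}`. Use e.g.
`Nat.recOnPosPrimePosCoprime`, or the arithmetic functions `⟨χ⟩ * ζ` and
`ArithmeticFunction.IsMultiplicative.multiplicative_factorization`; compare
`DirichletCharacter.zetaMul_nonneg` in Mathlib/NumberTheory/LSeries/Nonvanishing.lean. -/
theorem rr_nonneg {q : ℝ} {χ : ℕ → ℝ} (h : RChar q χ) (n : ℕ) : 0 ≤ rr χ n := by
  rcases eq_or_ne n 0 with rfl | hn
  · simp [rr]
  · have hm : ((ArithmeticFunction.zeta : ArithmeticFunction ℝ) * nonneg_af h).IsMultiplicative :=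
      ArithmeticFunction.isMultiplicative_zeta.natCast.mul (nonneg_mult h)
    rw [← nonneg_eq h, hm.multiplicative_factorization _ hn, Finsupp.prod]
    refine Finset.prod_nonneg fun p hp => ?_
    rw [nonneg_eq h]
    exact nonneg_prime_pow h (Nat.prime_of_mem_primeFactors hp) _

lemma RR_mono {q : ℝ} {χ : ℕ → ℝ} (h : RChar q χ) : Monotone (RR χ) :=
  S_mono (fun n => div_nonneg (rr_nonneg h n) (Nat.cast_nonneg n))

lemma RR_ge_one {q : ℝ} {χ : ℕ → ℝ} (h : RChar q χ) {t : ℝ} (ht : 0 ≤ t) : 1 ≤ RR χ t := by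
  have h1 : (1 : ℕ) ∈ Icc 1 ⌊Real.exp t⌋₊ := by
    rw [mem_S]; simp [ht]
  have h2 : rr χ 1 / ((1 : ℕ) : ℝ) ≤ RR χ t := by
    unfold RR S
    exact Finset.single_le_sum (f := fun n : ℕ => rr χ n / n)
      (fun n _ => div_nonneg (rr_nonneg h n) (Nat.cast_nonneg n)) h1
  rwa [rr_one h, Nat.cast_one, div_one] at h2

end Twist
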