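import Pool.Agent.W_aaa0df_h86.Defs

set_option autoImplicit false

namespace Twist

open Finset Real

lemma mem_S {n : ℕ} {t : ℝ} : n ∈ Icc 1 ⌊Real.exp t⌋₊ ↔ 1 ≤ n ∧ log n ≤ t := by
  rw [mem_Icc]
  constructor
  · rintro ⟨h1, h2⟩
    refine ⟨h1, ?_⟩
    have h3 : (n : ℝ) ≤ Real.exp t := (Nat.le_floor_iff (Real.exp_pos t).le).1 h2
    have h0 : (0 : ℝ) < n := by exact_mod_cast h1
    rwa [← Real.log_le_iff_le_exp h0] at h3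
  · rintro ⟨h1, h2⟩
    refine ⟨h1, ?_⟩
    have h0 : (0 : ℝ) < n := by exact_mod_cast h1
    rw [Real.log_le_iff_le_exp h0] at h2
    exact (Nat.le_floor_iff (Real.exp_pos t).le).2 h2

lemma S_subset {s t : ℝ} (h : s ≤ t) : Icc 1 ⌊Real.exp s⌋₊ ⊆ Icc 1 ⌊Real.exp t⌋₊ := by
  intro n hn
  rw [mem_S] at hn ⊢
  exact ⟨hn.1, hn.2.trans h⟩

lemma S_mono {f : ℕ → ℝ} (hf : ∀ n, 0 ≤ f n) : Monotone (S f) := by
  intro s t h
  exact Finset.sum_le_sum_of_subset_of_nonneg (S_subset h) (fun n _ _ => hf n)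

lemma S_nonneg {f : ℕ → ℝ} (hf : ∀ n, 0 ≤ f n) (t : ℝ) : 0 ≤ S f t :=
  Finset.sum_nonneg (fun n _ => hf n)

lemma S_sub_eq {f : ℕ → ℝ} {s t : ℝ} (h : s ≤ t) :
    S f t - S f s = ∑ n ∈ (Icc 1 ⌊Real.exp t⌋₊).filter (fun n : ℕ => s < log n), f n := by
  have h1 : S f s = ∑ n ∈ (Icc 1 ⌊Real.exp t⌋₊).filter (fun n : ℕ => ¬ s < log n), f n := by
    unfold S
    apply Finset.sum_congr _ (fun _ _ => rfl)
    ext n
    rw [mem_filter, mem_S, mem_S, not_lt]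
    constructor
    · rintro ⟨h1, h2⟩
      exact ⟨⟨h1, h2.trans h⟩, h2⟩
    · rintro ⟨⟨h1, _⟩, h2⟩
      exact ⟨h1, h2⟩
  rw [h1]
  unfold S
  rw [← Finset.sum_filter_add_sum_filter_not (Icc 1 ⌊Real.exp t⌋₊) (fun n : ℕ => s < log n)]
  ring

lemma lam_nonneg (n : ℕ) : 0 ≤ lam n := ArithmeticFunction.vonMangoldt_nonneg

lemma RChar.abs_le_one {q : ℝ} {χ : ℕ → ℝ} (h : RChar q χ) (n : ℕ) : |χ n| ≤ 1 := by
  rcases h.val n with h1 | h1 | h1 <;> rw [h1] <;> norm_num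

lemma RChar.le_one {q : ℝ} {χ : ℕ → ℝ} (h : RChar q χ) (n : ℕ) : χ n ≤ 1 :=
  (abs_le.1 (h.abs_le_one n)).2

lemma RChar.neg_one_le {q : ℝ} {χ : ℕ → ℝ} (h : RChar q χ) (n : ℕ) : -1 ≤ χ n :=
  (abs_le.1 (h.abs_le_one n)).1

lemma aa_nonneg {q : ℝ} {χ : ℕ → ℝ} (h : RChar q χ) (n : ℕ) : 0 ≤ aa χ n := by
  unfold aa
  exact mul_nonneg (by linarith [h.neg_one_le n]) (lam_nonneg n)

lemma nu_nonneg {q : ℝ} {χ : ℕ → ℝ} (h : RChar q χ) (n : ℕ) : 0 ≤ (1 - χ n) * lam n / n := by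
  exact div_nonneg (mul_nonneg (by linarith [h.le_one n]) (lam_nonneg n)) (Nat.cast_nonneg n)

lemma AA_mono {q : ℝ} {χ : ℕ → ℝ} (h : RChar q χ) : Monotone (AA χ) :=
  S_mono (fun n => div_nonneg (aa_nonneg h n) (Nat.cast_nonneg n))

lemma NU_mono {q : ℝ} {χ : ℕ → ℝ} (h : RChar q χ) : Monotone (NU χ) :=
  S_mono (nu_nonneg h)

lemma ML_mono : Monotone ML :=
  S_mono (fun n => div_nonneg (lam_nonneg n) (Nat.cast_nonneg n))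

/-- `(1+χ)Λ + (1-χ)Λ = 2Λ` -/
lemma AA_add_NU (χ : ℕ → ℝ) (t : ℝ) : AA χ t + NU χ t = 2 * ML t := by
  unfold AA NU ML S
  rw [← Finset.sum_add_distrib, Finset.mul_sum]
  apply Finset.sum_congr rfl
  intro n _
  unfold aa
  ring

end Twist
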