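import Mathlib
import Pool.Agent.W_MP_aaa0df_nt.Defs

set_option autoImplicit false

namespace Twist

open Finset Real

/-- Abstract real character: values in `{-1,0,1}`, completely multiplicative, partial sums bounded
by `q`, and zeros only at primes `≤ q`. -/
structure RChar (q : ℝ) (χ : ℕ → ℝ) : Prop where
  zero : χ 0 = 0
  one : χ 1 = 1
  mul : ∀ m n : ℕ, χ (m * n) = χ m * χ n
  val : ∀ n : ℕ, χ n = 0 ∨ χ n = 1 ∨ χ n = -1
  sum : ∀ N : ℕ, |∑ n ∈ Icc 1 N, χ n| ≤ q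
  van : ∀ p : ℕ, p.Prime → χ p = 0 → (p : ℝ) ≤ q

/-- summatory function on the logarithmic scale: `∑_{n ≤ e^t} f n`. -/
noncomputable def S (f : ℕ → ℝ) (t : ℝ) : ℝ := ∑ n ∈ Icc 1 ⌊Real.exp t⌋₊, f n

/-- von Mangoldt function -/
noncomputable def lam (n : ℕ) : ℝ := ArithmeticFunction.vonMangoldt n

/-- `r = 1 * χ` -/
noncomputable def rr (χ : ℕ → ℝ) (n : ℕ) : ℝ := ∑ d ∈ n.divisors, χ d

/-- `a = (1 + χ) Λ` -/
noncomputable def aa (χ : ℕ → ℝ) (n : ℕ) : ℝ := (1 + χ n) * lam n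

noncomputable def RR (χ : ℕ → ℝ) (t : ℝ) : ℝ := S (fun n => rr χ n / n) t
noncomputable def AA (χ : ℕ → ℝ) (t : ℝ) : ℝ := S (fun n => aa χ n / n) t
noncomputable def GG (χ : ℕ → ℝ) (t : ℝ) : ℝ := S (fun n => aa χ n / n * (t - log n)) t
noncomputable def ML (t : ℝ) : ℝ := S (fun n => lam n / n) t
noncomputable def NU (χ : ℕ → ℝ) (t : ℝ) : ℝ := S (fun n => (1 - χ n) * lam n / n) t

/-- the character `n ↦ (m/n)` (Jacobi symbol) for odd `n`, `0` for even `n`. -/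
noncomputable def chi (m n : ℕ) : ℝ := if Odd n then ((jacobiSym (m : ℤ) n : ℤ) : ℝ) else 0

/-- fundamental discriminant (as in the frozen statement). -/
def Fund (d : ℤ) : Prop :=
  (d % 4 = 1 ∧ Squarefree d) ∨
    (∃ m : ℤ, d = 4 * m ∧ (m % 4 = 2 ∨ m % 4 = 3) ∧ Squarefree m)

/-- `d` is a negative fundamental discriminant and `d d₀ = e k²` with an integer `1 ≤ e ≤ E`
(that is, `ℚ(√d)` is the twist of `ℚ(√d₀)` by `√e`). -/
def Near (d₀ : ℤ) (E : ℝ) (d : ℤ) : Prop :=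
  d < 0 ∧ Fund d ∧ ∃ e k : ℕ, 1 ≤ e ∧ (e : ℝ) ≤ E ∧ d * d₀ = (e : ℤ) * (k : ℤ) ^ 2

end Twist
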