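import Pool.Agent.W_aaa0df_h86.Key
import Pool.Agent.W_aaa0df_h86.Nonneg

set_option autoImplicit false

namespace Twist

open Finset Real

/-- Error bound. Let `C ≥ 1` be the Mertens constant, `C ≤ τ ≤ T/2`, `η ≤ 1/(16 T)`, and `L,k` as in
`norm_lemma` for `R = RR χ` on `[0,T]` (`b₁ = 5η + Lτ`, `b₀ = Lτ + k + 5η`, `LT + k ≥ 1/2`); assume also
`10 ≤ τ`. Then for `τ ≤ t ≤ T` the left side of `key` is at most `14 τ (L T + k)`.
Proof. `A(t) = 2 ML t - NU t ≤ 2 (t + C)`, `A(t) - A(t-τ) ≤ 2 (τ + 2C)`. So the bound of `key` is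
at most `b₁ (4 T + 2 C) + b₀ (3 τ + 4 C) ≤ 6 T b₁ + 7 τ b₀
= 30 T η + 6 T L τ + 7 τ (L τ + k) + 35 τ η`, and `30 T η ≤ 2`, `35 τ η ≤ 2`,
`7 τ (L τ + k) ≤ 7 τ (L T + k)`, `4 ≤ 8 (LT+k) ≤ τ (L T + k)` as `τ ≥ 10`. -/
theorem err_bound {q : ℝ} {χ : ℕ → ℝ} (h : RChar q χ) {C T τ η L k : ℝ}
    (hC1 : 1 ≤ C) (hC : ∀ t, 0 ≤ t → |ML t - t| ≤ C) (hCτ : C ≤ τ) (hτ10 : 10 ≤ τ)
    (hτT : 2 * τ ≤ T) (hη : 0 ≤ η) (hηT : η * (16 * T) ≤ 1) (hL : 0 ≤ L) (hk : 0 ≤ k)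
    (hLk : 1 / 2 ≤ L * T + k)
    (h1 : ∀ t, τ ≤ t → t ≤ T → |RR χ t - (L * t + k)| ≤ 5 * η + L * τ)
    (h0 : ∀ t, 0 ≤ t → t ≤ τ → |RR χ t - (L * t + k)| ≤ L * τ + k + 5 * η)
    {t : ℝ} (ht : τ ≤ t) (htT : t ≤ T) :
    |L * GG χ t + k * AA χ t - L * t ^ 2 / 2| ≤ 14 * τ * (L * T + k) := by
  have hτ0 : 0 ≤ τ := by linarith
  have hT0 : 0 ≤ T := by linarith
  have hb₁ : 0 ≤ 5 * η + L * τ := by positivity
  have hb₀ : 0 ≤ L * τ + k + 5 * η := by positivity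
  have hk1 := key h hτ0 ht hb₀ hb₁ h0 (fun s hs hst => h1 s hs (hst.trans htT))
  have ht0 : 0 ≤ t := hτ0.trans ht
  have hA1 : AA χ t ≤ 2 * (t + C) := by
    have e1 := AA_add_NU χ t
    have e2 : 0 ≤ NU χ t := S_nonneg (nu_nonneg h) t
    have e3 := (abs_le.1 (hC t ht0)).2
    linarith
  have hA2 : AA χ t - AA χ (t - τ) ≤ 2 * (τ + 2 * C) := by
    have e1 := AA_add_NU χ t
    have e2 := AA_add_NU χ (t - τ)
    have e3 := (abs_le.1 (hC t ht0)).2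
    have e4 := (abs_le.1 (hC (t - τ) (by linarith))).1
    have e5 : NU χ (t - τ) ≤ NU χ t := NU_mono h (by linarith)
    linarith
  have g1 : (5 * η + L * τ) * AA χ t ≤ (5 * η + L * τ) * (2 * (t + C)) :=
    mul_le_mul_of_nonneg_left hA1 hb₁
  have g2 : (L * τ + k + 5 * η) * (AA χ t - AA χ (t - τ)) ≤
      (L * τ + k + 5 * η) * (2 * (τ + 2 * C)) := mul_le_mul_of_nonneg_left hA2 hb₀
  have g3 : (5 * η + L * τ) * (4 * t + 2 * C) ≤ (5 * η + L * τ) * (5 * T) :=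
    mul_le_mul_of_nonneg_left (by linarith) hb₁
  have g4 : (L * τ + k + 5 * η) * (3 * τ + 4 * C) ≤ (L * τ + k + 5 * η) * (7 * τ) :=
    mul_le_mul_of_nonneg_left (by linarith) hb₀
  have g5 : η * τ * 32 ≤ 1 := by nlinarith
  have g6 : L * τ * (2 * τ) ≤ L * τ * T := mul_le_mul_of_nonneg_left hτT (by positivity)
  have g7 : 5 ≤ τ * (L * T + k) := by nlinarith
  have g8 : 0 ≤ τ * k := mul_nonneg hτ0 hk
  have g9 : 0 ≤ L * τ * T := by positivity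
  have g10 : (5 * η + L * τ) * (5 * T) = 25 * (η * T) + 5 * (L * τ * T) := by ring
  have g11 : (L * τ + k + 5 * η) * (7 * τ) = 7 * (L * τ * τ) + 7 * (τ * k) + 35 * (η * τ) := by ring
  have g12 : 14 * τ * (L * T + k) = τ * (L * T + k) + 13 * (L * τ * T) + 13 * (τ * k) := by ring
  rw [g12]
  refine hk1.trans ?_
  have g13 : (5 * η + L * τ) * (2 * (t + C)) + (L * τ + k + 5 * η) * (2 * (τ + 2 * C)) +
      2 * t * (5 * η + L * τ) + τ * (L * τ + k + 5 * η) =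
      (5 * η + L * τ) * (4 * t + 2 * C) + (L * τ + k + 5 * η) * (3 * τ + 4 * C) := by ring
  nlinarith

end Twist
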