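import Mathlib

set_option autoImplicit false

namespace Twist

open Finset Real

/-- harmonic sum at a real argument -/
noncomputable def HH (u : ℝ) : ℝ := ∑ e ∈ Icc 1 ⌊u⌋₊, 1 / (e : ℝ)

lemma harm_eq (u : ℝ) : HH u = ((harmonic ⌊u⌋₊ : ℚ) : ℝ) := by
  unfold HH
  rw [harmonic_eq_sum_Icc]
  push_cast
  refine Finset.sum_congr rfl fun e _ => ?_
  rw [one_div]

/-- Proof. With `n = ⌊u⌋ ≥ 1`, `n ≤ u < n+1`: from `Real.eulerMascheroniSeq n = H_n - log (n+1) < γ <
eulerMascheroniSeq' n = H_n - log n` one gets `log n - log u ≤ H_n - log u - γ` and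
`H_n - log u - γ ≤ log (n+1) - log u`, both sides being at most `log (1 + 1/n) ≤ 1/n ≤ 2/u` in
absolute value. -/
theorem HH_approx {u : ℝ} (hu : 1 ≤ u) : |HH u - log u - eulerMascheroniConstant| ≤ 2 / u := by
  set n := ⌊u⌋₊ with hn
  have hn1 : 1 ≤ n := Nat.le_floor (by exact_mod_cast hu)
  have hn1' : (1 : ℝ) ≤ n := by exact_mod_cast hn1
  have hn0 : (0 : ℝ) < n := by linarith
  have hle : (n : ℝ) ≤ u := Nat.floor_le (by linarith)
  have hlt : u < n + 1 := Nat.lt_floor_add_one u
  have hu0 : 0 < u := by linarith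
  have h1 := eulerMascheroniSeq_lt_eulerMascheroniConstant n
  have h2 := eulerMascheroniConstant_lt_eulerMascheroniSeq' n
  have hne : n ≠ 0 := by omega
  unfold eulerMascheroniSeq at h1
  unfold eulerMascheroniSeq' at h2
  rw [if_neg hne] at h2
  have h3 : log (n + 1) - log n ≤ 1 / n := by
    rw [← log_div (by linarith) hn0.ne']
    have h4 := log_le_sub_one_of_pos (show 0 < ((n : ℝ) + 1) / n by positivity)
    have h5 : ((n : ℝ) + 1) / n - 1 = 1 / n := by
      field_simp
      ring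
    linarith
  have h6 : log n ≤ log u := log_le_log hn0 hle
  have h7 : log u ≤ log (n + 1) := log_le_log hu0 hlt.le
  have h8 : 1 / (n : ℝ) ≤ 2 / u := by
    rw [div_le_div_iff₀ hn0 hu0]
    linarith
  rw [harm_eq, ← hn, abs_le]
  constructor <;> linarith

theorem HH_le {u : ℝ} (hu : 1 ≤ u) : HH u ≤ 1 + log u := by
  rw [harm_eq]
  exact harmonic_floor_le_one_add_log u hu

theorem HH_nonneg (u : ℝ) : 0 ≤ HH u :=
  Finset.sum_nonneg (fun e _ => by positivity)

theorem HH_mono {u v : ℝ} (h : u ≤ v) : HH u ≤ HH v := by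
  unfold HH
  apply Finset.sum_le_sum_of_subset_of_nonneg
  · exact Finset.Icc_subset_Icc_right (Nat.floor_mono h)
  · intro e _ _; positivity

end Twist
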