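import Mathlib

set_option autoImplicit false

namespace Twist

/-- Normalisation to nonnegative coefficients.
Proof. `L = max L₀ 0`, `k = max κ₀ 0`. If `L₀ < 0`: monotonicity `R T ≥ R τ` gives
`L₀ (T-τ) ≥ -2η`, `T - τ ≥ T/2`, so `|L₀ t| ≤ 4 η` for `0 ≤ t ≤ T`; hence
`|R t - (L t + κ₀)| ≤ 5η` on `[τ,T]`. If `κ₀ < 0`: `L τ + κ₀ ≥ R τ - 5η ≥ 1 - 5η ≥ 0` gives
`|κ₀| ≤ L τ`. On `[0,τ]`: `0 ≤ R t ≤ R τ ≤ L τ + κ₀ + 5η ≤ L τ + k + 5η` and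
`0 ≤ L t + k ≤ L τ + k`. Finally `L T + k ≥ L τ + κ₀ ≥ 1 - 5η ≥ 1/2`. -/
theorem norm_lemma {R : ℝ → ℝ} (hR : Monotone R) (hR1 : ∀ t, 0 ≤ t → 1 ≤ R t)
    {T τ η L₀ κ₀ : ℝ} (hτ : 0 ≤ τ) (hT : 2 * τ ≤ T) (hT0 : 0 < T) (hη : 0 ≤ η) (hη1 : η ≤ 1 / 20)
    (h : ∀ t, τ ≤ t → t ≤ T → |R t - (L₀ * t + κ₀)| ≤ η) :
    ∃ L k : ℝ, 0 ≤ L ∧ 0 ≤ k ∧ 1 / 2 ≤ L * T + k ∧
      (∀ t, τ ≤ t → t ≤ T → |R t - (L * t + k)| ≤ 5 * η + L * τ) ∧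
      (∀ t, 0 ≤ t → t ≤ τ → |R t - (L * t + k)| ≤ L * τ + k + 5 * η) := by
  have hτT : τ ≤ T := by linarith
  have hT1 := abs_le.1 (h T hτT le_rfl)
  have hτ1 := abs_le.1 (h τ le_rfl hτT)
  have hmono : R τ ≤ R T := hR hτT
  have hRτ : 1 ≤ R τ := hR1 τ hτ
  -- step 1
  have step1 : ∃ L : ℝ, 0 ≤ L ∧ ∀ t, τ ≤ t → t ≤ T → |R t - (L * t + κ₀)| ≤ 5 * η := by
    rcases le_or_gt 0 L₀ with hL | hL
    · exact ⟨L₀, hL, fun t h1 h2 => (h t h1 h2).trans (by linarith)⟩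
    · refine ⟨0, le_rfl, fun t h1 h2 => ?_⟩
      have h3 : -L₀ * T ≤ 4 * η := by nlinarith
      have h4 : -L₀ * t ≤ -L₀ * T := mul_le_mul_of_nonneg_left h2 (by linarith)
      have h5 : 0 ≤ -L₀ * t := mul_nonneg (by linarith) (hτ.trans h1)
      have h6 := abs_le.1 (h t h1 h2)
      rw [abs_le]
      constructor <;> linarith
  obtain ⟨L, hL0, hL⟩ := step1
  have hLτ := abs_le.1 (hL τ le_rfl hτT)
  have hLT : L * τ ≤ L * T := mul_le_mul_of_nonneg_left hτT hL0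
  have hLτ0 : 0 ≤ L * τ := mul_nonneg hL0 hτ
  refine ⟨L, max κ₀ 0, hL0, le_max_right _ _, ?_, fun t h1 h2 => ?_, fun t h1 h2 => ?_⟩
  · have := le_max_left κ₀ 0
    linarith
  · have h3 := abs_le.1 (hL t h1 h2)
    rcases le_or_gt 0 κ₀ with hk | hk
    · rw [max_eq_left hk, abs_le]
      constructor <;> linarith
    · rw [max_eq_right hk.le, abs_le]
      constructor <;> linarith
  · have h3 : R t ≤ R τ := hR h2
    have h4 : 1 ≤ R t := hR1 t h1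
    have h5 : 0 ≤ L * t := mul_nonneg hL0 h1
    have h6 : L * t ≤ L * τ := mul_le_mul_of_nonneg_left h2 hL0
    have h7 := le_max_left κ₀ 0
    have h8 := le_max_right κ₀ 0
    rw [abs_le]
    constructor <;> linarith

end Twist
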