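import Pool.Agent.W_aaa0df_h86.RSum

set_option autoImplicit false

namespace Twist

open Finset Real

lemma RAsym_split (f : ℕ → ℝ) {M N : ℕ} (h : M ≤ N) :
    ∑ d ∈ Icc 1 N, f d = ∑ d ∈ Icc 1 M, f d + ∑ d ∈ Ioc M N, f d := by
  have e1 : Icc 1 N = Icc 1 M ∪ Ioc M N := by
    ext x; simp only [mem_Icc, mem_union, mem_Ioc]; omega
  rw [e1, Finset.sum_union]
  rw [Finset.disjoint_left]
  intro x hx hx2
  rw [mem_Icc] at hx
  rw [mem_Ioc] at hx2
  omega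

/-- Asymptotic formula for `R`, uniformly on `[0,T]`.
Proof. Let `N' = ⌊e^T⌋`, `L = ∑_{d ≤ N'} χ(d)/d`, `L₁ = ∑_{d ≤ N'} χ(d) log d/d`,
`κ = γ L - L₁`. For `0 ≤ t ≤ T` put `N = ⌊e^t⌋`, `M = ⌊e^(t/2)⌋`, so `1 ≤ M ≤ N ≤ N'` and
`1/(M+1) ≤ e^(-t/2)`. By `RR_eq` split `R(t)` at `M`.
(1) `M < d ≤ N`: `φ(d) = HH(e^t/d)/d` is nonincreasing and nonnegative (`HH_mono`), so by `abel_ineq`
the sum is at most `2 q HH(e^t/(M+1))/(M+1) ≤ 2 q (1+t) e^(-t/2)` (`HH_le`; if `e^t/(M+1) < 1` then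
`HH = 0`).
(2) `d ≤ M`: replace `HH(e^t/d)` by `t - log d + γ`, the error is at most
`∑_{d ≤ M} (1/d) (2 d/e^t) = 2 M e^(-t) ≤ 2 e^(-t/2)` (`HH_approx`).
(3) `∑_{d ≤ M} χ(d)/d = L + O(2 q e^(-t/2))` (`tail_one`), multiplied by `t + γ ≤ t + 1`.
(4) `∑_{d ≤ M} χ(d) log d/d = L₁ + O(4 q (1 + log (M+1))/(M+1))` (`tail_log`) and
`log(M+1) ≤ 1 + t/2`, so the error is `≤ 4 q (2 + t) e^(-t/2) ≤ 8 q (1+t) e^(-t/2)`.
Total constant `C = 20` is enough. -/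
theorem RR_asym : ∃ C : ℝ, 0 ≤ C ∧ ∀ (q : ℝ) (χ : ℕ → ℝ), 1 ≤ q → RChar q χ →
    ∀ T : ℝ, 0 ≤ T → ∃ L κ : ℝ, ∀ t : ℝ, 0 ≤ t → t ≤ T →
      |RR χ t - (L * t + κ)| ≤ C * q * (1 + t) * Real.exp (-t / 2) := by
  refine ⟨20, by norm_num, ?_⟩
  intro q χ hq h T hT
  obtain ⟨N', hN'⟩ : ∃ n : ℕ, n = ⌊Real.exp T⌋₊ := ⟨_, rfl⟩
  obtain ⟨γ, hγ⟩ : ∃ g : ℝ, g = eulerMascheroniConstant := ⟨_, rfl⟩
  have hγ0 : 0 < γ := by
    rw [hγ]; linarith [Real.one_half_lt_eulerMascheroniConstant]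
  have hγ1 : γ ≤ 1 := by
    rw [hγ]; linarith [Real.eulerMascheroniConstant_lt_two_thirds]
  obtain ⟨L, hL⟩ : ∃ x : ℝ, x = ∑ d ∈ Icc 1 N', χ d * (1 / (d : ℝ)) := ⟨_, rfl⟩
  obtain ⟨L₁, hL₁⟩ : ∃ x : ℝ, x = ∑ d ∈ Icc 1 N', χ d * (log d / (d : ℝ)) := ⟨_, rfl⟩
  refine ⟨L, γ * L - L₁, ?_⟩
  intro t ht htT
  obtain ⟨N, hN⟩ : ∃ n : ℕ, n = ⌊Real.exp t⌋₊ := ⟨_, rfl⟩
  obtain ⟨M, hM⟩ : ∃ n : ℕ, n = ⌊Real.exp (t / 2)⌋₊ := ⟨_, rfl⟩
  obtain ⟨E, hE⟩ : ∃ x : ℝ, x = Real.exp (-t / 2) := ⟨_, rfl⟩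
  have hE0 : 0 < E := by rw [hE]; exact Real.exp_pos _
  have hehalf : Real.exp (t / 2) * E = 1 := by
    rw [hE, ← Real.exp_add]
    have : t / 2 + -t / 2 = 0 := by ring
    rw [this, Real.exp_zero]
  have hesq : Real.exp t = Real.exp (t / 2) * Real.exp (t / 2) := by
    rw [← Real.exp_add]; congr 1; ring
  have h1half : 1 ≤ Real.exp (t / 2) := Real.one_le_exp (by linarith)
  have hMle : (M : ℝ) ≤ Real.exp (t / 2) := by
    rw [hM]; exact Nat.floor_le (Real.exp_pos _).le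
  have hMlt : Real.exp (t / 2) < (M : ℝ) + 1 := by
    rw [hM]; exact Nat.lt_floor_add_one _
  have hM1 : 1 ≤ M := by
    rw [hM]; exact (Nat.one_le_floor_iff _).2 h1half
  have hMN : M ≤ N := by
    rw [hM, hN]; exact Nat.floor_mono (Real.exp_le_exp.2 (by linarith))
  have hNN' : N ≤ N' := by
    rw [hN, hN']; exact Nat.floor_mono (Real.exp_le_exp.2 htT)
  have hinv : 1 / ((M : ℝ) + 1) ≤ E := by
    rw [div_le_iff₀ (by positivity)]
    nlinarith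
  have hM1r : (1 : ℝ) ≤ M := by exact_mod_cast hM1
  have het1 : 1 ≤ Real.exp t := Real.one_le_exp ht
  -- the head and the tail
  have hRR : RR χ t = ∑ d ∈ Icc 1 M, χ d * (HH (Real.exp t / d) / d)
      + ∑ d ∈ Ioc M N, χ d * (HH (Real.exp t / d) / d) := by
    rw [RR_eq, ← hN, RAsym_split _ hMN]
  have hLs : L = ∑ d ∈ Icc 1 M, χ d * (1 / (d : ℝ)) + ∑ d ∈ Ioc M N', χ d * (1 / (d : ℝ)) := by
    rw [hL, RAsym_split _ (hMN.trans hNN')]
  have hL₁s : L₁ = ∑ d ∈ Icc 1 M, χ d * (log d / (d : ℝ))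
      + ∑ d ∈ Ioc M N', χ d * (log d / (d : ℝ)) := by
    rw [hL₁, RAsym_split _ (hMN.trans hNN')]
  -- (1)
  have s1 : |∑ d ∈ Ioc M N, χ d * (HH (Real.exp t / d) / d)| ≤ 2 * q * ((1 + t) * E) := by
    have hpos : ∀ n : ℕ, 0 ≤ HH (Real.exp t / n) / n := fun n =>
      div_nonneg (HH_nonneg _) (Nat.cast_nonneg n)
    have hab := abel_ineq (a := χ) (q := q) h.sum
      (φ := fun d : ℕ => HH (Real.exp t / d) / d) (M := M) (N := N)
      (by
        intro n hn _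
        have hn0 : (0 : ℝ) < n := by
          have : 0 < n := by omega
          exact_mod_cast this
        have hn1 : (n : ℝ) ≤ ((n + 1 : ℕ) : ℝ) := by push_cast; linarith
        exact div_le_div₀ (HH_nonneg _)
          (HH_mono (div_le_div_of_nonneg_left (Real.exp_pos t).le hn0 hn1)) hn0 hn1)
      (fun n _ _ => hpos n) (hpos (M + 1))
    refine hab.trans ?_
    have hHH : HH (Real.exp t / ((M + 1 : ℕ) : ℝ)) ≤ 1 + t := by
      by_cases hc : 1 ≤ Real.exp t / ((M + 1 : ℕ) : ℝ)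
      · refine (HH_le hc).trans ?_
        have hlog : log (Real.exp t / ((M + 1 : ℕ) : ℝ)) ≤ t := by
          have hM0 : (1 : ℝ) ≤ ((M + 1 : ℕ) : ℝ) := by push_cast; linarith
          calc log (Real.exp t / ((M + 1 : ℕ) : ℝ)) ≤ log (Real.exp t) := by
                apply Real.log_le_log (by linarith)
                exact div_le_self (Real.exp_pos t).le hM0
            _ = t := Real.log_exp t
        linarith
      · have hfl : ⌊Real.exp t / ((M + 1 : ℕ) : ℝ)⌋₊ = 0 := Nat.floor_eq_zero.2 (not_le.1 hc)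
        have : HH (Real.exp t / ((M + 1 : ℕ) : ℝ)) = 0 := by
          unfold HH
          rw [hfl]
          simp
        rw [this]; linarith
    have hφ : HH (Real.exp t / ((M + 1 : ℕ) : ℝ)) / ((M + 1 : ℕ) : ℝ) ≤ (1 + t) * E := by
      rw [div_eq_mul_one_div]
      have h2 : 1 / ((M + 1 : ℕ) : ℝ) ≤ E := by push_cast; exact hinv
      exact mul_le_mul hHH h2 (by positivity) (by linarith)
    have h2q : 0 ≤ 2 * q := by linarith
    exact mul_le_mul_of_nonneg_left hφ h2q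
  -- (2)
  have s2 : |∑ d ∈ Icc 1 M, χ d * (HH (Real.exp t / d) / d)
      - ∑ d ∈ Icc 1 M, χ d * ((t - log d + γ) / d)| ≤ 2 * E := by
    rw [← Finset.sum_sub_distrib]
    refine (Finset.abs_sum_le_sum_abs _ _).trans ?_
    have hterm : ∀ d ∈ Icc 1 M,
        |χ d * (HH (Real.exp t / d) / d) - χ d * ((t - log d + γ) / d)| ≤ 2 / Real.exp t := by
      intro d hd
      rw [mem_Icc] at hd
      have hd0 : (0 : ℝ) < d := by exact_mod_cast hd.1
      have hdM : (d : ℝ) ≤ M := by exact_mod_cast hd.2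
      have hde : (d : ℝ) ≤ Real.exp t := by
        calc (d : ℝ) ≤ M := hdM
          _ ≤ Real.exp (t / 2) := hMle
          _ ≤ Real.exp t := Real.exp_le_exp.2 (by linarith)
      have hu : 1 ≤ Real.exp t / d := by rw [le_div_iff₀ hd0]; linarith
      have hap := HH_approx hu
      rw [Real.log_div (Real.exp_pos t).ne' hd0.ne', Real.log_exp, ← hγ] at hap
      have heq : χ d * (HH (Real.exp t / d) / d) - χ d * ((t - log d + γ) / d)
          = χ d * ((HH (Real.exp t / d) - (t - log d) - γ) / d) := by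
        ring
      rw [heq, abs_mul, abs_div, abs_of_pos hd0]
      have h3 : |HH (Real.exp t / d) - (t - log d) - γ| / d ≤ 2 / Real.exp t := by
        rw [div_le_iff₀ hd0]
        refine hap.trans ?_
        rw [div_div_eq_mul_div, div_mul_eq_mul_div]
      calc |χ d| * (|HH (Real.exp t / d) - (t - log d) - γ| / d)
          ≤ 1 * (2 / Real.exp t) := mul_le_mul (h.abs_le_one d) h3 (by positivity) (by norm_num)
        _ = 2 / Real.exp t := one_mul _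
    refine (Finset.sum_le_sum hterm).trans ?_
    rw [Finset.sum_const, Nat.card_Icc, nsmul_eq_mul]
    have : ((M + 1 - 1 : ℕ) : ℝ) = M := by simp
    rw [this]
    have h4 : 2 / Real.exp t = 2 * (E * E) := by
      rw [div_eq_iff (Real.exp_pos t).ne', hesq]
      have : 2 * (E * E) * (Real.exp (t / 2) * Real.exp (t / 2))
          = 2 * ((Real.exp (t / 2) * E) * (Real.exp (t / 2) * E)) := by ring
      rw [this, hehalf]; norm_num
    rw [h4]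
    calc (M : ℝ) * (2 * (E * E)) ≤ Real.exp (t / 2) * (2 * (E * E)) :=
          mul_le_mul_of_nonneg_right hMle (by positivity)
      _ = 2 * ((Real.exp (t / 2) * E) * E) := by ring
      _ = 2 * E := by rw [hehalf]; ring
  -- (3)
  have s3 : |∑ d ∈ Ioc M N', χ d * (1 / (d : ℝ))| ≤ 2 * q * E := by
    refine (tail_one h M N').trans ?_
    exact mul_le_mul_of_nonneg_left hinv (by linarith)
  -- (4)
  have s4 : |∑ d ∈ Ioc M N', χ d * (log d / (d : ℝ))| ≤ 8 * q * ((1 + t) * E) := by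
    refine (tail_log hq h M N').trans ?_
    have hlog : log ((M : ℝ) + 1) ≤ 1 + t / 2 := by
      have h5 : (M : ℝ) + 1 ≤ Real.exp (1 + t / 2) := by
        rw [Real.exp_add]
        have h6 : (2 : ℝ) ≤ Real.exp 1 := by
          have := Real.add_one_le_exp (1 : ℝ)
          linarith
        nlinarith [Real.exp_pos (t / 2)]
      calc log ((M : ℝ) + 1) ≤ log (Real.exp (1 + t / 2)) :=
            Real.log_le_log (by positivity) h5
        _ = 1 + t / 2 := Real.log_exp _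
    have h7 : (1 + log ((M : ℝ) + 1)) / ((M : ℝ) + 1) ≤ (2 * (1 + t)) * E := by
      rw [div_eq_mul_one_div]
      have h8 : 0 ≤ log ((M : ℝ) + 1) := Real.log_nonneg (by linarith)
      exact mul_le_mul (by linarith) hinv (by positivity) (by linarith)
    calc 4 * q * ((1 + log ((M : ℝ) + 1)) / ((M : ℝ) + 1)) ≤ 4 * q * ((2 * (1 + t)) * E) :=
          mul_le_mul_of_nonneg_left h7 (by linarith)
      _ = 8 * q * ((1 + t) * E) := by ring
  -- assembly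
  have hhead : ∑ d ∈ Icc 1 M, χ d * ((t - log d + γ) / d)
      = (t + γ) * ∑ d ∈ Icc 1 M, χ d * (1 / (d : ℝ)) - ∑ d ∈ Icc 1 M, χ d * (log d / (d : ℝ)) := by
    rw [Finset.mul_sum, ← Finset.sum_sub_distrib]
    apply Finset.sum_congr rfl
    intro d _
    ring
  obtain ⟨A, hA⟩ : ∃ x : ℝ, x = ∑ d ∈ Icc 1 M, χ d * (HH (Real.exp t / d) / d) := ⟨_, rfl⟩
  obtain ⟨B, hB⟩ : ∃ x : ℝ, x = ∑ d ∈ Ioc M N, χ d * (HH (Real.exp t / d) / d) := ⟨_, rfl⟩
  obtain ⟨D, hD⟩ : ∃ x : ℝ, x = ∑ d ∈ Icc 1 M, χ d * ((t - log d + γ) / d) := ⟨_, rfl⟩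
  obtain ⟨τ, hτ⟩ : ∃ x : ℝ, x = ∑ d ∈ Ioc M N', χ d * (1 / (d : ℝ)) := ⟨_, rfl⟩
  obtain ⟨σ, hσ⟩ : ∃ x : ℝ, x = ∑ d ∈ Ioc M N', χ d * (log d / (d : ℝ)) := ⟨_, rfl⟩
  obtain ⟨P, hP⟩ : ∃ x : ℝ, x = ∑ d ∈ Icc 1 M, χ d * (1 / (d : ℝ)) := ⟨_, rfl⟩
  obtain ⟨Q, hQ⟩ : ∃ x : ℝ, x = ∑ d ∈ Icc 1 M, χ d * (log d / (d : ℝ)) := ⟨_, rfl⟩
  rw [← hA, ← hB] at hRR
  rw [← hP, ← hτ] at hLs
  rw [← hQ, ← hσ] at hL₁s
  rw [← hD, ← hP, ← hQ] at hhead
  rw [← hB] at s1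
  rw [← hA, ← hD] at s2
  rw [← hτ] at s3
  rw [← hσ] at s4
  have hdiff : RR χ t - (L * t + (γ * L - L₁)) = B + (A - D) - (t + γ) * τ + σ := by
    rw [hRR, hLs, hL₁s]
    have : A = (A - D) + D := by ring
    rw [this, hhead]
    ring
  rw [← hE, hdiff]
  have s3' : |(t + γ) * τ| ≤ 2 * q * ((1 + t) * E) := by
    rw [abs_mul, abs_of_nonneg (by linarith : 0 ≤ t + γ)]
    calc (t + γ) * |τ| ≤ (1 + t) * (2 * q * E) :=
          mul_le_mul (by linarith) s3 (abs_nonneg _) (by linarith)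
      _ = 2 * q * ((1 + t) * E) := by ring
  have s2' : |A - D| ≤ 2 * q * ((1 + t) * E) := by
    refine s2.trans ?_
    have h9 : 1 ≤ q * (1 + t) := by nlinarith
    nlinarith [mul_le_mul_of_nonneg_right h9 hE0.le]
  have hW : 0 ≤ q * ((1 + t) * E) := by positivity
  rw [abs_le] at s1 s2' s3' s4 ⊢
  constructor
  · linarith [s1.1, s2'.1, s3'.2, s4.1]
  · linarith [s1.2, s2'.2, s3'.1, s4.2]

end Twist
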