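import Mathlib

set_option autoImplicit false

namespace Twist

/-- Purely real contradiction at the end of the argument.
Let `0 < ε ≤ 1`, `σ = ε³/64`, and suppose `τ ≤ (σ/8)/14 · T`, `8 C ≤ (σ/4) T`, `0 ≤ ν < (σ/4) T`,
`w = ε T/2`, `e₀ = 14 τ (L T + k)`, `L,k ≥ 0`, `L T + k ≥ 1/2`. Then the two conclusions of
`window` (with `T₁ + 2w = T`) are contradictory.
Proof. `e₀ ≤ (σ/8) T (LT+k)`. First inequality (`w ≤ T`):
`L w²/2 ≤ (L T + k) (8 C + ν) + 4 e₀ ≤ (LT+k) T (σ/4 + σ/4 + σ/2) = (LT+k) T σ`, i.e.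
`L T ε²/8 ≤ (LT+k) σ`, and `σ ≤ ε²/16`, so `L T ε²/16 ≤ k σ`, `L T ≤ (ε/4) k`. In particular
`k > 0`. Second: `k (2w - 4C - ν) ≤ L T w + 2 e₀ ≤ (ε/4) k T + (σ/4) T (1 + ε/4) k`, but
`2w - 4C - ν ≥ ε T - (σ/8) T - (σ/4) T`. Divide by `k T`:
`ε - (3/8) σ ≤ ε/4 + (σ/4)(5/4)`, which is false as `σ ≤ ε/64`. -/
theorem real_contra {ε T C τ L k ν : ℝ} (hε0 : 0 < ε) (hε1 : ε ≤ 1) (hT : 0 < T) (hC : 0 ≤ C)
    (hτ0 : 0 ≤ τ) (hτ : 14 * τ ≤ ε ^ 3 / 64 / 8 * T) (hCT : 8 * C ≤ ε ^ 3 / 64 / 4 * T)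
    (hν0 : 0 ≤ ν) (hν : ν < ε ^ 3 / 64 / 4 * T) (hL : 0 ≤ L) (hk : 0 ≤ k)
    (hLk : 1 / 2 ≤ L * T + k)
    (h1 : L * (ε * T / 2) ^ 2 / 2 ≤ L * (ε * T / 2) * (3 * C + ν) + k * (8 * C + ν) +
      4 * (14 * τ * (L * T + k)))
    (h2 : k * (2 * (ε * T / 2) - 4 * C - ν) ≤ L * T * (ε * T / 2) + 2 * (14 * τ * (L * T + k))) :
    False := by
  obtain ⟨σ, hσ⟩ : ∃ σ, σ = ε ^ 3 / 64 := ⟨_, rfl⟩
  rw [← hσ] at hτ hCT hν
  have hε2 : 0 < ε ^ 2 := by positivity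
  have hσ0 : 0 < σ := by rw [hσ]; positivity
  have hσ2 : σ ≤ ε ^ 2 / 64 := by
    rw [hσ]
    have : ε ^ 3 ≤ ε ^ 2 := by
      calc ε ^ 3 = ε ^ 2 * ε := by ring
        _ ≤ ε ^ 2 * 1 := mul_le_mul_of_nonneg_left hε1 hε2.le
        _ = ε ^ 2 := mul_one _
    linarith
  have hεε : ε ^ 2 ≤ ε := by
    calc ε ^ 2 = ε * ε := by ring
      _ ≤ ε * 1 := mul_le_mul_of_nonneg_left hε1 hε0.le
      _ = ε := mul_one _
  have hσ1 : σ ≤ ε / 64 := by linarith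
  have hLT : 0 ≤ L * T := mul_nonneg hL hT.le
  have hLTk : 0 ≤ L * T + k := add_nonneg hLT hk
  -- first inequality
  have a1 : L * (ε * T / 2) * (3 * C + ν) ≤ L * T * (8 * C + ν) := by
    have b1 : ε * T / 2 ≤ T := by nlinarith
    have b2 : L * (ε * T / 2) ≤ L * T := mul_le_mul_of_nonneg_left b1 hL
    exact mul_le_mul b2 (by linarith) (by positivity) hLT
  have a2 : L * T * (8 * C + ν) + k * (8 * C + ν) ≤ (L * T + k) * (σ / 4 * T + σ / 4 * T) := by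
    rw [← add_mul]
    exact mul_le_mul_of_nonneg_left (by linarith) hLTk
  have a3 : 14 * τ * (L * T + k) ≤ σ / 8 * T * (L * T + k) :=
    mul_le_mul_of_nonneg_right hτ hLTk
  have a4 : (L * T * ε ^ 2 / 8) * T ≤ ((L * T + k) * σ) * T := by
    have e1 : (L * T * ε ^ 2 / 8) * T = L * (ε * T / 2) ^ 2 / 2 := by ring
    have e2 : ((L * T + k) * σ) * T =
        (L * T + k) * (σ / 4 * T + σ / 4 * T) + 4 * (σ / 8 * T * (L * T + k)) := by ring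
    rw [e1, e2]
    linarith
  have a5 : L * T * ε ^ 2 / 8 ≤ (L * T + k) * σ := le_of_mul_le_mul_right a4 hT
  have a6 : L * T * σ ≤ L * T * (ε ^ 2 / 64) := mul_le_mul_of_nonneg_left hσ2 hLT
  have a7 : L * T * ε ^ 2 / 16 ≤ k * σ := by
    have : 0 ≤ L * T * ε ^ 2 := mul_nonneg hLT hε2.le
    nlinarith
  have a8 : ε ^ 2 * (L * T) ≤ ε ^ 2 * (ε / 4 * k) := by
    have e1 : ε ^ 2 * (ε / 4 * k) = 16 * (k * σ) := by rw [hσ]; ring
    rw [e1]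
    linarith
  have a9 : L * T ≤ ε / 4 * k := le_of_mul_le_mul_left a8 hε2
  have hk0 : 0 < k := by
    by_contra h
    have : k = 0 := le_antisymm (not_lt.1 h) hk
    rw [this] at a9 hLk
    linarith
  -- second inequality
  have c1 : k * (ε * T - σ / 8 * T - σ / 4 * T) ≤ k * (2 * (ε * T / 2) - 4 * C - ν) :=
    mul_le_mul_of_nonneg_left (by linarith) hk
  have c2 : L * T * (ε * T / 2) ≤ ε / 4 * k * (ε * T / 2) :=
    mul_le_mul_of_nonneg_right a9 (by positivity)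
  have c3 : σ / 8 * T * (L * T + k) ≤ σ / 8 * T * (ε / 4 * k + k) :=
    mul_le_mul_of_nonneg_left (by linarith) (by positivity)
  have c4 : (k * T) * (ε - 3 / 8 * σ) ≤ (k * T) * (ε ^ 2 / 8 + σ / 4 * (1 + ε / 4)) := by
    have e1 : (k * T) * (ε - 3 / 8 * σ) = k * (ε * T - σ / 8 * T - σ / 4 * T) := by ring
    have e2 : (k * T) * (ε ^ 2 / 8 + σ / 4 * (1 + ε / 4)) =
        ε / 4 * k * (ε * T / 2) + 2 * (σ / 8 * T * (ε / 4 * k + k)) := by ring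
    rw [e1, e2]
    linarith
  have c5 : ε - 3 / 8 * σ ≤ ε ^ 2 / 8 + σ / 4 * (1 + ε / 4) :=
    le_of_mul_le_mul_left c4 (mul_pos hk0 hT)
  have c6 : σ / 4 * (1 + ε / 4) ≤ σ / 4 * (5 / 4) :=
    mul_le_mul_of_nonneg_left (by linarith) (by positivity)
  linarith

end Twist
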