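import Pool.Agent.W_aaa0df_h86.Basic

set_option autoImplicit false

namespace Twist

open Finset Real

/-- second difference of `G`: with `T₂ = T₁ + w`, `T₃ = T₁ + 2w`, `ν = NU(T₃) - NU(T₁)`,
`G(T₃) - 2 G(T₂) + G(T₁) ≥ (3/2) w² - 3 w C - (3/4) w ν`.
Proof. The left side is `∑ (a(n)/n) tent(log n)`, `tent(u) = (T₃-u)⁺ - 2 (T₂-u)⁺ + (T₁-u)⁺`, i.e. `0`
for `u ≤ T₁` or `u ≥ T₃`, `u - T₁` on `[T₁,T₂]`, `T₃ - u` on `[T₂,T₃]`. Pointwise
`tent ≥ (w/4) (1_{(T₁+w/4, T₁+7w/4]} + 1_{(T₁+w/2, T₁+3w/2]} + 1_{(T₁+3w/4, T₁+5w/4]})`. For an interval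
`(α,β] ⊆ (T₁,T₃]`: `AA β - AA α = 2 (ML β - ML α) - (NU β - NU α) ≥ 2 (β - α - 2 C) - ν`
(`AA_add_NU`, `NU_mono`). The lengths are `3w/2, w, w/2`, total `3w`:
`(w/4) (6 w - 12 C - 3 ν)`. -/
theorem second_diff {q : ℝ} {χ : ℕ → ℝ} (h : RChar q χ) {C T₁ w : ℝ}
    (hC : ∀ t, 0 ≤ t → |ML t - t| ≤ C) (hT₁ : 0 ≤ T₁) (hw : 0 < w) :
    3 / 2 * w ^ 2 - 3 * w * C - 3 / 4 * w * (NU χ (T₁ + 2 * w) - NU χ T₁) ≤
      GG χ (T₁ + 2 * w) - 2 * GG χ (T₁ + w) + GG χ T₁ := by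
  -- increments of `AA`
  have hinc : ∀ α β : ℝ, T₁ ≤ α → α ≤ β → β ≤ T₁ + 2 * w →
      2 * (β - α) - 4 * C - (NU χ (T₁ + 2 * w) - NU χ T₁) ≤ AA χ β - AA χ α := by
    intro α β h1 h2 h3
    have e1 := AA_add_NU χ α
    have e2 := AA_add_NU χ β
    have e3 := abs_le.1 (hC α (by linarith))
    have e4 := abs_le.1 (hC β (by linarith))
    have e5 := NU_mono h h1
    have e6 := NU_mono h h3
    linarith [e3.1, e3.2, e4.1, e4.2]
  set c : ℕ → ℝ := fun n => aa χ n / n with hc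
  have hc0 : ∀ n, 0 ≤ c n := fun n => div_nonneg (aa_nonneg h n) (Nat.cast_nonneg n)
  -- everything as a sum over the largest range
  have hG : ∀ t, t ≤ T₁ + 2 * w → GG χ t =
      ∑ n ∈ Icc 1 ⌊Real.exp (T₁ + 2 * w)⌋₊, c n * max (t - log n) 0 := by
    intro t ht
    unfold GG S
    rw [← Finset.sum_subset (S_subset ht) (f := fun n : ℕ => c n * max (t - log n) 0)]
    · refine Finset.sum_congr rfl fun n hn => ?_
      rw [mem_S] at hn
      rw [max_eq_left (by linarith [hn.2])]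
    · intro n hn hn'
      rw [mem_S] at hn hn'
      have : t < log n := by
        by_contra hcon
        exact hn' ⟨hn.1, not_lt.1 hcon⟩
      rw [max_eq_right (by linarith), mul_zero]
  have hA : ∀ α β : ℝ, α ≤ β → β ≤ T₁ + 2 * w → AA χ β - AA χ α =
      ∑ n ∈ Icc 1 ⌊Real.exp (T₁ + 2 * w)⌋₊, c n * (if α < log n ∧ log n ≤ β then 1 else 0) := by
    intro α β h1 h2
    unfold AA
    rw [S_sub_eq h1, Finset.sum_filter]
    rw [← Finset.sum_subset (S_subset h2)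
      (f := fun n : ℕ => c n * (if α < log n ∧ log n ≤ β then 1 else 0))]
    · refine Finset.sum_congr rfl fun n hn => ?_
      rw [mem_S] at hn
      by_cases h3 : α < log n
      · rw [if_pos h3, if_pos ⟨h3, hn.2⟩, mul_one]
      · rw [if_neg h3, if_neg (fun h4 => h3 h4.1), mul_zero]
    · intro n hn hn'
      rw [mem_S] at hn hn'
      rw [if_neg, mul_zero]
      rintro ⟨_, h4⟩
      exact hn' ⟨hn.1, h4⟩
  have t1 : T₁ + w ≤ T₁ + 2 * w := by linarith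
  have t2 : T₁ ≤ T₁ + 2 * w := by linarith
  have htent : ∀ u : ℝ, u ≤ T₁ + 2 * w →
      w / 4 * (if T₁ + w / 4 < u ∧ u ≤ T₁ + 7 * w / 4 then 1 else 0) +
        w / 4 * (if T₁ + w / 2 < u ∧ u ≤ T₁ + 3 * w / 2 then 1 else 0) +
        w / 4 * (if T₁ + 3 * w / 4 < u ∧ u ≤ T₁ + 5 * w / 4 then 1 else 0) ≤
      max (T₁ + 2 * w - u) 0 - 2 * max (T₁ + w - u) 0 + max (T₁ - u) 0 := by
    intro u hu
    rw [max_eq_left (by linarith : 0 ≤ T₁ + 2 * w - u)]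
    rcases le_total u (T₁ + w) with h1 | h1
    · rw [max_eq_left (by linarith : 0 ≤ T₁ + w - u)]
      rcases le_total u T₁ with h2 | h2
      · rw [max_eq_left (by linarith : 0 ≤ T₁ - u), if_neg (by rintro ⟨a, _⟩; linarith),
          if_neg (by rintro ⟨a, _⟩; linarith), if_neg (by rintro ⟨a, _⟩; linarith)]
        linarith
      · rw [max_eq_right (by linarith : T₁ - u ≤ 0)]
        split_ifs <;> (try simp only [not_and_or, not_lt, not_le] at *) <;>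
          nlinarith
    · rw [max_eq_right (by linarith : T₁ + w - u ≤ 0), max_eq_right (by linarith : T₁ - u ≤ 0)]
      split_ifs <;> (try simp only [not_and_or, not_lt, not_le] at *) <;>
        nlinarith
  have i1 := hinc (T₁ + w / 4) (T₁ + 7 * w / 4) (by linarith) (by linarith) (by linarith)
  have i2 := hinc (T₁ + w / 2) (T₁ + 3 * w / 2) (by linarith) (by linarith) (by linarith)
  have i3 := hinc (T₁ + 3 * w / 4) (T₁ + 5 * w / 4) (by linarith) (by linarith) (by linarith)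
  have hmain : w / 4 * (AA χ (T₁ + 7 * w / 4) - AA χ (T₁ + w / 4)) +
      w / 4 * (AA χ (T₁ + 3 * w / 2) - AA χ (T₁ + w / 2)) +
      w / 4 * (AA χ (T₁ + 5 * w / 4) - AA χ (T₁ + 3 * w / 4)) ≤
      GG χ (T₁ + 2 * w) - 2 * GG χ (T₁ + w) + GG χ T₁ := by
    rw [hA (T₁ + w / 4) (T₁ + 7 * w / 4) (by linarith) (by linarith),
      hA (T₁ + w / 2) (T₁ + 3 * w / 2) (by linarith) (by linarith),
      hA (T₁ + 3 * w / 4) (T₁ + 5 * w / 4) (by linarith) (by linarith),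
      hG (T₁ + 2 * w) le_rfl, hG (T₁ + w) t1, hG T₁ t2, Finset.mul_sum, Finset.mul_sum,
      Finset.mul_sum, Finset.mul_sum, ← Finset.sum_add_distrib, ← Finset.sum_add_distrib,
      ← Finset.sum_sub_distrib, ← Finset.sum_add_distrib]
    refine Finset.sum_le_sum fun n hn => ?_
    rw [mem_S] at hn
    have := mul_le_mul_of_nonneg_left (htent (log n) hn.2) (hc0 n)
    linarith
  have w4 : 0 ≤ w / 4 := by positivity
  have j1 := mul_le_mul_of_nonneg_left i1 w4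
  have j2 := mul_le_mul_of_nonneg_left i2 w4
  have j3 := mul_le_mul_of_nonneg_left i3 w4
  have e : 3 / 2 * w ^ 2 - 3 * w * C - 3 / 4 * w * (NU χ (T₁ + 2 * w) - NU χ T₁) =
      w / 4 * (2 * (T₁ + 7 * w / 4 - (T₁ + w / 4)) - 4 * C -
        (NU χ (T₁ + 2 * w) - NU χ T₁)) +
      w / 4 * (2 * (T₁ + 3 * w / 2 - (T₁ + w / 2)) - 4 * C -
        (NU χ (T₁ + 2 * w) - NU χ T₁)) +
      w / 4 * (2 * (T₁ + 5 * w / 4 - (T₁ + 3 * w / 4)) - 4 * C -
        (NU χ (T₁ + 2 * w) - NU χ T₁)) := by ring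
  rw [e]
  linarith

/-- Window inequalities.
Proof. Write `A_i, G_i` for the values at `T₁, T₂ = T₁ + w, T₃ = T₁ + 2w`, and
`ν = NU T₃ - NU T₁`. As `AA = 2 ML - NU`: `A₃ - A₂ ≥ 2 (w - 2C) - ν`, `A₂ - A₁ ≤ 2 (w + 2C)`, so
`A₃ - 2A₂ + A₁ ≥ -8 C - ν`. The second difference of `hkey` at the three points:
`L (G₃ - 2G₂ + G₁) + k (A₃ - 2A₂ + A₁) ≤ L w² + 4 e₀`. With `second_diff` this is the first claim.
Second claim: first difference of `hkey` at `T₂, T₃`, `G₃ ≥ G₂`, `L ≥ 0`: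
`k (A₃ - A₂) ≤ L (T₃² - T₂²)/2 + 2 e₀ ≤ L T₃ w + 2 e₀`. -/
theorem window {q : ℝ} {χ : ℕ → ℝ} (h : RChar q χ) {C T₁ w L k e₀ : ℝ}
    (hC : ∀ t, 0 ≤ t → |ML t - t| ≤ C) (hT₁ : 0 ≤ T₁) (hw : 0 < w) (hL : 0 ≤ L) (hk : 0 ≤ k)
    (h1 : |L * GG χ T₁ + k * AA χ T₁ - L * T₁ ^ 2 / 2| ≤ e₀)
    (h2 : |L * GG χ (T₁ + w) + k * AA χ (T₁ + w) - L * (T₁ + w) ^ 2 / 2| ≤ e₀)
    (h3 : |L * GG χ (T₁ + 2 * w) + k * AA χ (T₁ + 2 * w) - L * (T₁ + 2 * w) ^ 2 / 2| ≤ e₀) :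
    L * w ^ 2 / 2 ≤ L * w * (3 * C + (NU χ (T₁ + 2 * w) - NU χ T₁)) +
        k * (8 * C + (NU χ (T₁ + 2 * w) - NU χ T₁)) + 4 * e₀ ∧
      k * (2 * w - 4 * C - (NU χ (T₁ + 2 * w) - NU χ T₁)) ≤ L * (T₁ + 2 * w) * w + 2 * e₀ := by
  have hsd := second_diff h hC hT₁ hw
  have a1 := AA_add_NU χ T₁
  have a2 := AA_add_NU χ (T₁ + w)
  have a3 := AA_add_NU χ (T₁ + 2 * w)
  have c1 := abs_le.1 (hC T₁ hT₁)
  have c2 := abs_le.1 (hC (T₁ + w) (by linarith))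
  have c3 := abs_le.1 (hC (T₁ + 2 * w) (by linarith))
  have n1 := NU_mono h (show T₁ ≤ T₁ + w by linarith)
  have n2 := NU_mono h (show T₁ + w ≤ T₁ + 2 * w by linarith)
  have g1 := abs_le.1 h1
  have g2 := abs_le.1 h2
  have g3 := abs_le.1 h3
  set ν := NU χ (T₁ + 2 * w) - NU χ T₁ with hν
  have d1 : 2 * w - 4 * C - ν ≤ AA χ (T₁ + 2 * w) - AA χ (T₁ + w) := by
    linarith [c2.1, c2.2, c3.1, c3.2]
  have d2 : AA χ (T₁ + w) - AA χ T₁ ≤ 2 * w + 4 * C := by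
    linarith [c1.1, c1.2, c2.1, c2.2]
  have hGm : GG χ (T₁ + w) ≤ GG χ (T₁ + 2 * w) := by
    unfold GG S
    refine (Finset.sum_le_sum_of_subset_of_nonneg
      (S_subset (show T₁ + w ≤ T₁ + 2 * w by linarith)) ?_).trans'
      (Finset.sum_le_sum fun n hn => ?_)
    · intro n hn _
      rw [mem_S] at hn
      exact mul_nonneg (div_nonneg (aa_nonneg h n) (Nat.cast_nonneg n)) (by linarith [hn.2])
    · exact mul_le_mul_of_nonneg_left (by linarith)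
        (div_nonneg (aa_nonneg h n) (Nat.cast_nonneg n))
  constructor
  · have e1 := mul_le_mul_of_nonneg_left hsd hL
    have e2 : k * (-(8 * C) - ν) ≤
        k * (AA χ (T₁ + 2 * w) - 2 * AA χ (T₁ + w) + AA χ T₁) :=
      mul_le_mul_of_nonneg_left (by linarith) hk
    have e3 : 0 ≤ L * w * ν := by
      have : 0 ≤ ν := by linarith
      positivity
    nlinarith [g1.1, g1.2, g2.1, g2.2, g3.1, g3.2]
  · have e1 := mul_le_mul_of_nonneg_left d1 hk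
    have e2 := mul_le_mul_of_nonneg_left hGm hL
    have e3 : 0 ≤ L * w ^ 2 := by positivity
    nlinarith [g2.1, g2.2, g3.1, g3.2]

end Twist
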