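import Pool.Agent.W_aaa0df_h86.MertB
import Pool.Agent.W_aaa0df_h86.RAsym
import Pool.Agent.W_aaa0df_h86.Norm
import Pool.Agent.W_aaa0df_h86.ErrB
import Pool.Agent.W_aaa0df_h86.RealC
import Pool.Agent.W_aaa0df_h86.Window

set_option autoImplicit false

namespace Twist

open Finset Real

/-- The exponential beats the polynomial. -/
theorem nulower_exp {D c T : ℝ} (hD : 0 ≤ D) (hc : 0 < c) (hT1 : 1 ≤ T)
    (hT : 192 * D / c ^ 3 ≤ T) : D * (1 + T) * Real.exp (-(c * T)) ≤ 1 / (16 * T) := by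
  have hT0 : 0 < T := by linarith
  have hx : 0 < c * T := by positivity
  have h1 : (c * T) ^ 3 / 6 ≤ Real.exp (c * T) := by
    have := Real.pow_div_factorial_le_exp (c * T) hx.le 3
    have h6 : ((Nat.factorial 3 : ℕ) : ℝ) = 6 := by norm_num [Nat.factorial]
    rwa [h6] at this
  have h2 : Real.exp (-(c * T)) ≤ 6 / (c * T) ^ 3 := by
    rw [Real.exp_neg, inv_eq_one_div, div_le_div_iff₀ (Real.exp_pos _) (by positivity)]
    rw [div_le_iff₀ (by norm_num : (0 : ℝ) < 6)] at h1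
    linarith
  have h3 : 192 * D ≤ T * c ^ 3 := by
    rwa [div_le_iff₀ (by positivity)] at hT
  calc D * (1 + T) * Real.exp (-(c * T)) ≤ D * (2 * T) * (6 / (c * T) ^ 3) := by
        apply mul_le_mul _ h2 (Real.exp_pos _).le (by positivity)
        exact mul_le_mul_of_nonneg_left (by linarith) hD
    _ ≤ 1 / (16 * T) := by
        rw [mul_div_assoc', div_le_div_iff₀ (by positivity) (by positivity)]
        have h4 : D * (2 * T) * 6 * (16 * T) = 192 * D * T ^ 2 := by ring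
        have h5 : 1 * (c * T) ^ 3 = T * c ^ 3 * T ^ 2 := by ring
        rw [h4, h5]
        exact mul_le_mul_of_nonneg_right h3 (by positivity)

/-- The case `ε ≤ 1/2`. -/
theorem nulower_half (ε : ℝ) (hε0 : 0 < ε) (hε1 : ε ≤ 1 / 2) :
    ∃ c : ℝ, 0 < c ∧ ∃ T₀ : ℝ, 1 ≤ T₀ ∧ ∀ T : ℝ, T₀ ≤ T → ∀ (q : ℝ) (χ : ℕ → ℝ), 1 ≤ q →
      q ≤ Real.exp (c * T) → RChar q χ → c * T ≤ NU χ T - NU χ ((1 - ε) * T) := by
  obtain ⟨C₀, hC₀, hM₀⟩ := mertens
  obtain ⟨D, hD, hR⟩ := RR_asym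
  set C : ℝ := max C₀ 1 with hC
  have hC1 : 1 ≤ C := le_max_right _ _
  have hM : ∀ t : ℝ, 0 ≤ t → |ML t - t| ≤ C := fun t ht => (hM₀ t ht).trans (le_max_left _ _)
  set σ : ℝ := ε ^ 3 / 64 with hσ
  have hσ0 : 0 < σ := by positivity
  have hσ1 : σ ≤ 1 / 64 := by
    have : ε ^ 3 ≤ 1 := pow_le_one₀ hε0.le (by linarith)
    rw [hσ]
    linarith
  set c : ℝ := σ / 448 with hc
  have hc0 : 0 < c := by positivity
  refine ⟨c, hc0, max 2 (max (192 * D / c ^ 3) (1120 * C / σ)),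
    le_trans (by norm_num) (le_max_left _ _), ?_⟩
  intro T hT q χ hq hqT h
  have hT2 : 2 ≤ T := le_trans (le_max_left _ _) hT
  have hTD : 192 * D / c ^ 3 ≤ T := le_trans (le_trans (le_max_left _ _) (le_max_right _ _)) hT
  have hTC : 1120 * C / σ ≤ T := le_trans (le_trans (le_max_right _ _) (le_max_right _ _)) hT
  have hTC' : 1120 * C ≤ σ * T := by
    rw [div_le_iff₀ hσ0] at hTC
    linarith
  have hT0 : 0 < T := by linarith
  by_contra hcon
  rw [not_le] at hcon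
  set τ : ℝ := σ / 112 * T with hτ
  have hτ10 : 10 * C ≤ τ := by
    rw [hτ]
    linarith
  have hτ0 : 0 ≤ τ := by linarith
  have hτT : 2 * τ ≤ T := by
    rw [hτ]
    nlinarith [mul_le_mul_of_nonneg_right hσ1 hT0.le]
  set η : ℝ := 1 / (16 * T) with hη
  have hη0 : 0 ≤ η := by positivity
  have hη1 : η ≤ 1 / 20 := by
    rw [hη]
    apply one_div_le_one_div_of_le (by norm_num)
    linarith
  obtain ⟨L₀, κ₀, hasym⟩ := hR q χ hq h T hT0.le
  have hasym' : ∀ t, τ ≤ t → t ≤ T → |RR χ t - (L₀ * t + κ₀)| ≤ η := by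
    intro t ht htT
    refine (hasym t (hτ0.trans ht) htT).trans ?_
    have e1 : Real.exp (-t / 2) ≤ Real.exp (-τ / 2) := Real.exp_le_exp.2 (by linarith)
    have e2 : c * T = τ / 4 := by
      rw [hτ, hc]
      ring
    have e3 : D * q * (1 + t) * Real.exp (-t / 2) ≤
        D * Real.exp (c * T) * (1 + T) * Real.exp (-τ / 2) := by
      have ht0 : 0 ≤ t := hτ0.trans ht
      have f1 : D * q ≤ D * Real.exp (c * T) := mul_le_mul_of_nonneg_left hqT hD
      have f2 : D * q * (1 + t) ≤ D * Real.exp (c * T) * (1 + T) :=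
        mul_le_mul f1 (by linarith) (by linarith) (by positivity)
      exact mul_le_mul f2 e1 (Real.exp_pos _).le (by positivity)
    have e4 : D * Real.exp (c * T) * (1 + T) * Real.exp (-τ / 2) =
        D * (1 + T) * Real.exp (-(c * T)) := by
      have : Real.exp (c * T) * Real.exp (-τ / 2) = Real.exp (-(c * T)) := by
        rw [← Real.exp_add]
        congr 1
        rw [e2]
        ring
      rw [← this]
      ring
    rw [e4] at e3
    exact e3.trans (nulower_exp hD hc0 (by linarith) hTD)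
  obtain ⟨L, k, hL, hk, hLk, hn1, hn0⟩ := norm_lemma (RR_mono h) (fun t ht => RR_ge_one h ht)
    hτ0 hτT hT0 hη0 hη1 hasym'
  have herr : ∀ t, τ ≤ t → t ≤ T →
      |L * GG χ t + k * AA χ t - L * t ^ 2 / 2| ≤ 14 * τ * (L * T + k) := by
    intro t ht htT
    refine err_bound h hC1 hM (by linarith) (by linarith) hτT hη0 ?_ hL hk hLk hn1 hn0 ht htT
    rw [hη]
    exact le_of_eq (one_div_mul_cancel (by positivity))
  have hεT : ε * T ≤ T / 2 := by
    have := mul_le_mul_of_nonneg_right hε1 hT0.le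
    linarith
  have hεT0 : 0 < ε * T := by positivity
  have g1 := herr ((1 - ε) * T) (by linarith) (by linarith)
  have g2 := herr ((1 - ε) * T + ε * T / 2) (by linarith) (by linarith)
  have e5 : (1 - ε) * T + 2 * (ε * T / 2) = T := by ring
  have g3 := herr ((1 - ε) * T + 2 * (ε * T / 2)) (by linarith) (by linarith)
  obtain ⟨w1, w2⟩ := window h hM (by linarith) (by linarith : (0 : ℝ) < ε * T / 2) hL hk g1 g2 g3
  rw [e5] at w1 w2
  have hν0 : 0 ≤ NU χ T - NU χ ((1 - ε) * T) := by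
    have := NU_mono h (show (1 - ε) * T ≤ T by linarith)
    linarith
  refine real_contra (C := C) (τ := τ) hε0 (by linarith) hT0 (by linarith) hτ0 ?_ ?_ hν0 ?_ hL hk hLk
    w1 w2
  · rw [hτ, ← hσ]
    linarith
  · rw [← hσ]
    linarith
  · rw [← hσ]
    refine hcon.trans_le ?_
    rw [hc]
    apply mul_le_mul_of_nonneg_right _ hT0.le
    linarith

/-- Inert mass in a window: `ν((1-ε)T, T] ≥ c T` for `q ≤ e^{cT}`, `T ≥ T₀`.
Proof. Let `C ≥ 1` be the Mertens constant, `C_R` that of `RR_asym`, `σ = ε³/64`,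
`τ = (σ/112) T`, `c = min (σ/4) (σ/448)` (so `q ≤ e^{τ/4}`). For `t ∈ [τ,T]`:
`C_R q (1+t) e^{-t/2} ≤ C_R e^{τ/4} (1+T) e^{-τ/2} = C_R (1+T) e^{-τ/4} ≤ 1/(16 T) =: η` for `T ≥ T₀`.
Apply `norm_lemma` (`RR_mono`, `RR_ge_one`), `err_bound` at `t = T₁ = (1-ε)T`, `T₁ + w`, `T`,
`w = εT/2` (if `(1-ε) T < τ` replace `ε` by `min ε (1/2)`: the window only gets larger with `ε`,
by `NU_mono`), `window` and `real_contra`. -/
theorem nu_lower (ε : ℝ) (hε0 : 0 < ε) (hε1 : ε < 1) :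
    ∃ c : ℝ, 0 < c ∧ ∃ T₀ : ℝ, ∀ T : ℝ, T₀ ≤ T → ∀ (q : ℝ) (χ : ℕ → ℝ), 1 ≤ q →
      q ≤ Real.exp (c * T) → RChar q χ → c * T ≤ NU χ T - NU χ ((1 - ε) * T) := by
  obtain ⟨c, hc, T₀, hT₀, H⟩ := nulower_half (min ε (1 / 2)) (lt_min hε0 (by norm_num))
    (min_le_right _ _)
  refine ⟨c, hc, T₀, fun T hT q χ hq hqT h => ?_⟩
  refine (H T hT q χ hq hqT h).trans ?_
  have h1 : (1 - ε) * T ≤ (1 - min ε (1 / 2)) * T :=
    mul_le_mul_of_nonneg_right (by linarith [min_le_left ε (1 / 2)]) (by linarith)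
  have h2 := NU_mono h h1
  linarith

end Twist
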