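import Pool.Agent.W_aaa0df_h86.MertA
import Pool.Agent.W_aaa0df_h86.NuLower

set_option autoImplicit false

namespace Twist

open Finset Real

/-- the prime part of the window -/
lemma inert_prime_term {ε T q : ℝ} {χ : ℕ → ℝ} (hT : 0 < T)
    (hq : q ≤ Real.exp ((1 - ε / 2) * T)) (h : RChar q χ) {p : ℕ} (hp : p.Prime)
    (h1 : (1 - ε / 2) * T < log p) (h2 : log p ≤ T) :
    (1 - χ p) * lam p / p ≤ if χ p = -1 then 2 * T * Real.exp (-((1 - ε / 2) * T)) else 0 := by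
  have hp0 : (0 : ℝ) < p := by exact_mod_cast hp.pos
  have hlt : Real.exp ((1 - ε / 2) * T) < p := (Real.lt_log_iff_exp_lt hp0).1 h1
  rcases h.val p with h3 | h3 | h3
  · exact absurd (h.van p hp h3) (not_le.2 (lt_of_le_of_lt hq hlt))
  · rw [h3]
    norm_num
  · rw [if_pos h3, h3]
    have hlam : lam p = log p := ArithmeticFunction.vonMangoldt_apply_prime hp
    rw [hlam, Real.exp_neg, div_le_iff₀ hp0]
    have he : 0 < Real.exp ((1 - ε / 2) * T) := Real.exp_pos _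
    have h5 : (1 : ℝ) ≤ (Real.exp ((1 - ε / 2) * T))⁻¹ * p := by
      rw [inv_mul_eq_div, le_div_iff₀ he, one_mul]
      exact hlt.le
    calc (1 - -1) * log p = 2 * log p := by ring
      _ ≤ 2 * T := by linarith
      _ ≤ 2 * T * ((Real.exp ((1 - ε / 2) * T))⁻¹ * p) := le_mul_of_one_le_right (by linarith) h5
      _ = 2 * T * (Real.exp ((1 - ε / 2) * T))⁻¹ * p := by ring

/-- Many inert primes: at least `x^{1-ε}` primes `p ≤ x` with `χ(p) = -1` once `q ≤ x^c`, `x ≥ x₀`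
(`x = e^T`).
Proof. Apply `nu_lower` with `ε/2`: `c₁ T ≤ ∑_{(1-ε/2)T < log n ≤ T} (1 - χ n) Λ(n)/n` (`S_sub_eq`).
Non-primes contribute at most `2 C_P` (`nonprime_sum`). A prime `p` of the window has `χ p ≠ 0`
(else `p ≤ q ≤ e^{cT} ≤ e^{T/2} ≤ e^{(1-ε/2)T} < p`, by `van`, taking `c ≤ 1/2`), contributes `0` if
`χ p = 1`, and `2 log p/p ≤ 2 T e^{-(1-ε/2)T}` if `χ p = -1`. So the number of the latter is at least
`(c₁ T - 2 C_P)/(2T) e^{(1-ε/2)T} ≥ (c₁/4) e^{(1-ε/2)T} ≥ e^{(1-ε)T}` for `T ≥ T₀`. -/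
theorem inert_count (ε : ℝ) (hε0 : 0 < ε) (hε1 : ε < 1) :
    ∃ c : ℝ, 0 < c ∧ ∃ T₀ : ℝ, ∀ T : ℝ, T₀ ≤ T → ∀ (q : ℝ) (χ : ℕ → ℝ), 1 ≤ q →
      q ≤ Real.exp (c * T) → RChar q χ →
      Real.exp ((1 - ε) * T) ≤
        (((Icc 1 ⌊Real.exp T⌋₊).filter (fun p : ℕ => p.Prime ∧ χ p = -1)).card : ℝ) := by
  classical
  obtain ⟨c₁, hc₁, T₁, hnu⟩ := nu_lower (ε / 2) (by linarith) (by linarith)
  obtain ⟨C, hC0, hC⟩ := nonprime_sum
  refine ⟨min c₁ (1 / 2), lt_min hc₁ (by norm_num),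
    max (max T₁ 1) (max (4 * C / c₁) (8 / (ε * c₁))), ?_⟩
  intro T hT q χ hq1 hq hR
  have hT1 : T₁ ≤ T := (le_max_left _ _).trans ((le_max_left _ _).trans hT)
  have hTo : 1 ≤ T := (le_max_right _ _).trans ((le_max_left _ _).trans hT)
  have hT2 : 4 * C / c₁ ≤ T := (le_max_left _ _).trans ((le_max_right _ _).trans hT)
  have hT3 : 8 / (ε * c₁) ≤ T := (le_max_right _ _).trans ((le_max_right _ _).trans hT)
  have hTp : 0 < T := by linarith
  have hq' : q ≤ Real.exp (c₁ * T) :=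
    hq.trans (Real.exp_le_exp.2 (mul_le_mul_of_nonneg_right (min_le_left _ _) hTp.le))
  have hq2 : q ≤ Real.exp ((1 - ε / 2) * T) :=
    hq.trans (Real.exp_le_exp.2 (mul_le_mul_of_nonneg_right
      ((min_le_right _ _).trans (by linarith)) hTp.le))
  have h1 := hnu T hT1 q χ hq1 hq' hR
  unfold NU at h1
  rw [S_sub_eq (by nlinarith)] at h1
  set W := (Icc 1 ⌊Real.exp T⌋₊).filter (fun n : ℕ => (1 - ε / 2) * T < log n) with hW
  rw [← Finset.sum_filter_add_sum_filter_not W (fun n : ℕ => n.Prime)] at h1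
  -- non-primes
  have h2 : ∑ n ∈ W.filter (fun n : ℕ => ¬ n.Prime), (1 - χ n) * lam n / n ≤ 2 * C := by
    calc ∑ n ∈ W.filter (fun n : ℕ => ¬ n.Prime), (1 - χ n) * lam n / n
        ≤ ∑ n ∈ (Icc 1 ⌊Real.exp T⌋₊).filter (fun n : ℕ => ¬ n.Prime), (1 - χ n) * lam n / n := by
          apply Finset.sum_le_sum_of_subset_of_nonneg
          · exact Finset.filter_subset_filter _ (Finset.filter_subset _ _)
          · intro n _ _
            exact nu_nonneg hR n
      _ ≤ ∑ n ∈ (Icc 1 ⌊Real.exp T⌋₊).filter (fun n : ℕ => ¬ n.Prime), 2 * (lam n / n) := by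
          apply Finset.sum_le_sum
          intro n _
          rw [mul_div_assoc]
          exact mul_le_mul_of_nonneg_right (by linarith [hR.neg_one_le n])
            (div_nonneg (lam_nonneg n) (Nat.cast_nonneg n))
      _ = 2 * ∑ n ∈ (Icc 1 ⌊Real.exp T⌋₊).filter (fun n : ℕ => ¬ n.Prime), lam n / n := by
          rw [Finset.mul_sum]
      _ ≤ 2 * C := by linarith [hC ⌊Real.exp T⌋₊]
  -- primes
  set M : ℝ := (((Icc 1 ⌊Real.exp T⌋₊).filter (fun p : ℕ => p.Prime ∧ χ p = -1)).card : ℝ) with hM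
  have h3 : ∑ n ∈ W.filter (fun n : ℕ => n.Prime), (1 - χ n) * lam n / n ≤
      M * (2 * T * Real.exp (-((1 - ε / 2) * T))) := by
    calc ∑ n ∈ W.filter (fun n : ℕ => n.Prime), (1 - χ n) * lam n / n
        ≤ ∑ n ∈ W.filter (fun n : ℕ => n.Prime),
            (if χ n = -1 then 2 * T * Real.exp (-((1 - ε / 2) * T)) else 0) := by
          apply Finset.sum_le_sum
          intro n hn
          rw [mem_filter, hW, mem_filter, mem_S] at hn
          exact inert_prime_term hTp hq2 hR hn.2 hn.1.2 hn.1.1.2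
      _ = ((((W.filter (fun n : ℕ => n.Prime)).filter (fun n : ℕ => χ n = -1)).card : ℕ) : ℝ) *
            (2 * T * Real.exp (-((1 - ε / 2) * T))) := by
          rw [← Finset.sum_filter, Finset.sum_const, nsmul_eq_mul]
      _ ≤ M * (2 * T * Real.exp (-((1 - ε / 2) * T))) := by
          apply mul_le_mul_of_nonneg_right _ (by positivity)
          rw [hM, Nat.cast_le]
          apply Finset.card_le_card
          intro n hn
          rw [mem_filter, mem_filter, hW, mem_filter] at hn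
          rw [mem_filter]
          exact ⟨hn.1.1.1, hn.1.2, hn.2⟩
  have h4 : c₁ * T / 2 ≤ M * (2 * T * Real.exp (-((1 - ε / 2) * T))) := by
    have h5 : 4 * C ≤ T * c₁ := by rwa [div_le_iff₀ hc₁] at hT2
    linarith
  have hE : 0 < Real.exp ((1 - ε / 2) * T) := Real.exp_pos _
  have h5 : c₁ / 4 * Real.exp ((1 - ε / 2) * T) ≤ M := by
    rw [Real.exp_neg] at h4
    have h6 : M * (2 * T * (Real.exp ((1 - ε / 2) * T))⁻¹) =
        2 * T * M / Real.exp ((1 - ε / 2) * T) := by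
      field_simp
    rw [h6, le_div_iff₀ hE] at h4
    have h7 : T * (c₁ / 4 * Real.exp ((1 - ε / 2) * T)) ≤ T * M := by nlinarith
    exact le_of_mul_le_mul_left h7 hTp
  refine le_trans ?_ h5
  have h8 : Real.exp ((1 - ε / 2) * T) = Real.exp ((1 - ε) * T) * Real.exp (ε * T / 2) := by
    rw [← Real.exp_add]
    congr 1
    ring
  have h9 : 4 / c₁ ≤ Real.exp (ε * T / 2) := by
    have h10 : ε * T / 2 + 1 ≤ Real.exp (ε * T / 2) := Real.add_one_le_exp _
    have h11 : 8 ≤ T * (ε * c₁) := by rwa [div_le_iff₀ (by positivity)] at hT3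
    have h12 : 4 / c₁ ≤ ε * T / 2 := by
      rw [div_le_iff₀ hc₁]
      linarith
    linarith
  rw [div_le_iff₀ hc₁] at h9
  rw [h8]
  have h13 : 0 < Real.exp ((1 - ε) * T) := Real.exp_pos _
  nlinarith

end Twist
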