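import Pool.Agent.W_aaa0df_h86.Defs

set_option autoImplicit false

namespace Twist

lemma kernb_fac_le {a : ℕ} (ha : Squarefree a) (p : ℕ) : a.factorization p ≤ 1 :=
  (Nat.squarefree_iff_factorization_le_one ha.ne_zero).1 ha p

lemma kernb_sqf_eq {a b c : ℕ} (ha : Squarefree a) (hb : Squarefree b) (h : a * b = c ^ 2) :
    a = b := by
  apply Nat.eq_of_factorization_eq ha.ne_zero hb.ne_zero
  intro p
  have h1 := congrArg (fun n => n.factorization p) h
  simp only [Nat.factorization_mul ha.ne_zero hb.ne_zero, Nat.factorization_pow, Finsupp.add_apply,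
    Finsupp.smul_apply, smul_eq_mul] at h1
  have h2 := kernb_fac_le ha p
  have h3 := kernb_fac_le hb p
  omega

lemma kernb_int {m : ℤ} (hm : Squarefree m) : Squarefree m.natAbs :=
  Int.squarefree_natAbs.2 hm

/-- natural form of a fundamental discriminant -/
lemma kernb_nat {d : ℤ} (hF : Fund d) :
    ∃ s j : ℕ, Squarefree s ∧ j ≤ 1 ∧ d.natAbs = s * (2 ^ j) ^ 2 ∧
      (d < 0 → (j = 0 → (s : ℤ) % 4 = 3) ∧ (j = 1 → (s : ℤ) % 4 = 1 ∨ (s : ℤ) % 4 = 2)) := by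
  rcases hF with ⟨h, hs⟩ | ⟨m, rfl, hm, hs⟩
  · refine ⟨d.natAbs, 0, kernb_int hs, by norm_num, by simp, ?_⟩
    intro hd
    refine ⟨fun _ => ?_, fun h => by omega⟩
    rw [Int.ofNat_natAbs_of_nonpos hd.le]
    omega
  · refine ⟨m.natAbs, 1, kernb_int hs, by norm_num, ?_, ?_⟩
    · rw [Int.natAbs_mul]
      norm_num [mul_comm]
    · intro hd
      refine ⟨fun h => by omega, fun _ => ?_⟩
      rw [Int.ofNat_natAbs_of_nonpos (by omega)]
      omega

/-- Distinct negative fundamental discriminants have a non-square product.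
Proof. `d = -s` or `-4s`, `d' = -s'` or `-4s'`, `s, s'` positive squarefree; if `d d'` is a square then
`s s'` is a square, `s = s'`; and then `d = -s`, `d' = -4s` is impossible since `-s ≡ 1 mod 4` while
`m' = -s' ≡ 2, 3 mod 4`. -/
theorem fund_inj {d d' : ℤ} (hd : d < 0) (hd' : d' < 0) (hF : Fund d) (hF' : Fund d')
    (hsq : IsSquare (d * d')) : d = d' := by
  obtain ⟨s, j, hs, hj, hn, hc⟩ := kernb_nat hF
  obtain ⟨s', j', hs', hj', hn', hc'⟩ := kernb_nat hF'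
  obtain ⟨r, hr⟩ := hsq
  have h1 : d.natAbs * d'.natAbs = r.natAbs ^ 2 := by
    rw [← Int.natAbs_mul, hr, Int.natAbs_mul, sq]
  have h2 : (s * s') * (2 ^ j * 2 ^ j') ^ 2 = r.natAbs ^ 2 := by
    rw [← h1, hn, hn']; ring
  have h3 : (2 ^ j * 2 ^ j') ∣ r.natAbs := by
    have : (2 ^ j * 2 ^ j') ^ 2 ∣ r.natAbs ^ 2 := ⟨s * s', by rw [← h2]; ring⟩
    exact (Nat.pow_dvd_pow_iff two_ne_zero).1 this
  obtain ⟨c, hcc⟩ := h3
  have h4 : s * s' = c ^ 2 := by
    rw [hcc] at h2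
    have hpos : 0 < (2 ^ j * 2 ^ j') ^ 2 := by positivity
    have : (2 ^ j * 2 ^ j') ^ 2 * (s * s') = (2 ^ j * 2 ^ j') ^ 2 * c ^ 2 := by
      calc (2 ^ j * 2 ^ j') ^ 2 * (s * s') = (s * s') * (2 ^ j * 2 ^ j') ^ 2 := by ring
        _ = (2 ^ j * 2 ^ j' * c) ^ 2 := h2
        _ = _ := by ring
    exact Nat.eq_of_mul_eq_mul_left hpos this
  have h5 : s = s' := kernb_sqf_eq hs hs' h4
  subst h5
  have hjj : j = j' := by
    obtain ⟨a1, a2⟩ := hc hd
    obtain ⟨b1, b2⟩ := hc' hd'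
    interval_cases j <;> interval_cases j'
    · rfl
    · have := a1 rfl; rcases b2 rfl with h | h <;> omega
    · have := b1 rfl; rcases a2 rfl with h | h <;> omega
    · rfl
  subst hjj
  have h6 : d.natAbs = d'.natAbs := by rw [hn, hn']
  have h7 := Int.ofNat_natAbs_of_nonpos hd.le
  have h8 := Int.ofNat_natAbs_of_nonpos hd'.le
  rw [h6] at h7
  omega

/-- An odd prime divides a fundamental discriminant at most once. -/
theorem fund_sq {d : ℤ} (hF : Fund d) {p : ℕ} (hp : p.Prime) (hp2 : p ≠ 2) : ¬ ((p : ℤ) ^ 2 ∣ d) := by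
  intro h
  obtain ⟨s, j, hs, hj, hn, _⟩ := kernb_nat hF
  have h1 : p ^ 2 ∣ s * (2 ^ j) ^ 2 := by
    rw [← hn]
    have := Int.natAbs_dvd_natAbs.2 h
    rwa [Int.natAbs_pow, Int.natAbs_natCast] at this
  have hcop : Nat.Coprime (p ^ 2) ((2 ^ j) ^ 2) := by
    apply Nat.Coprime.pow
    apply Nat.Coprime.pow_right
    exact (Nat.coprime_primes hp Nat.prime_two).2 hp2
  have h2 : p ^ 2 ∣ s := hcop.dvd_of_dvd_mul_right h1
  have h3 := hs p (by rwa [← sq])
  exact hp.one_lt.ne' (Nat.isUnit_iff.1 h3)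

theorem fund_mod {d : ℤ} (hF : Fund d) : d % 4 = 0 ∨ d % 4 = 1 := by
  rcases hF with ⟨h, _⟩ | ⟨m, rfl, _, _⟩
  · exact Or.inr h
  · left; omega

theorem fund_ne {d : ℤ} (hF : Fund d) : d ≠ 0 := by
  rcases hF with ⟨_, h⟩ | ⟨m, rfl, _, h⟩
  · exact h.ne_zero
  · have := h.ne_zero
    omega

/-- Comparison of sizes.
Proof. `d = -s` or `-4s`, `d₀ = -s₀` or `-4s₀` (`s, s₀` squarefree). A prime `p ∣ s` not dividing `s₀` has
odd valuation in `d d₀ = e k²`, hence divides `e`. So every prime divisor of the squarefree number `s`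
divides `s₀ e`, thus `s ∣ s₀ e` and `|d| ≤ 4 s ≤ 4 s₀ e ≤ 4 |d₀| e`. -/
theorem size_compare {d d₀ : ℤ} (hF : Fund d) (hF₀ : Fund d₀) {e k : ℕ}
    (h : d * d₀ = (e : ℤ) * (k : ℤ) ^ 2) : |d| ≤ 4 * |d₀| * e := by
  obtain ⟨s, j, hs, hj, hn, _⟩ := kernb_nat hF
  obtain ⟨s₀, j₀, hs₀, hj₀, hn₀, _⟩ := kernb_nat hF₀
  have h0 : d * d₀ ≠ 0 := mul_ne_zero (fund_ne hF) (fund_ne hF₀)
  have he : e ≠ 0 := by rintro rfl; apply h0; rw [h]; simp
  have hk : k ≠ 0 := by rintro rfl; apply h0; rw [h]; simp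
  have h1 : (s * s₀) * (2 ^ j * 2 ^ j₀) ^ 2 = e * k ^ 2 := by
    have : d.natAbs * d₀.natAbs = e * k ^ 2 := by
      rw [← Int.natAbs_mul, h, Int.natAbs_mul, Int.natAbs_pow, Int.natAbs_natCast, Int.natAbs_natCast]
    rw [← this, hn, hn₀]; ring
  have hdvd : s ∣ s₀ * e := by
    rw [← Nat.factorization_le_iff_dvd hs.ne_zero (mul_ne_zero hs₀.ne_zero he)]
    intro p
    have h2 : ((s * s₀) * (2 ^ j * 2 ^ j₀) ^ 2).factorization p = (e * k ^ 2).factorization p := by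
      rw [h1]
    rw [Nat.factorization_mul (mul_ne_zero hs.ne_zero hs₀.ne_zero) (by positivity),
      Nat.factorization_mul hs.ne_zero hs₀.ne_zero, Nat.factorization_mul he (by positivity),
      Nat.factorization_pow, Nat.factorization_pow] at h2
    simp only [Finsupp.add_apply, Finsupp.smul_apply, smul_eq_mul] at h2
    rw [Nat.factorization_mul hs₀.ne_zero he, Finsupp.add_apply]
    have h3 := kernb_fac_le hs p
    have h4 := kernb_fac_le hs₀ p
    omega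
  have h2 : s ≤ s₀ * e := Nat.le_of_dvd (Nat.pos_of_ne_zero (mul_ne_zero hs₀.ne_zero he)) hdvd
  have h3 : d.natAbs ≤ 4 * d₀.natAbs * e := by
    rw [hn, hn₀]
    have ha : (2 ^ j) ^ 2 ≤ 4 := by interval_cases j <;> norm_num
    have hb : 1 ≤ (2 ^ j₀) ^ 2 := Nat.one_le_pow _ _ (by positivity)
    calc s * (2 ^ j) ^ 2 ≤ (s₀ * e) * 4 := Nat.mul_le_mul h2 ha
      _ = 4 * (s₀ * 1) * e := by ring
      _ ≤ 4 * (s₀ * (2 ^ j₀) ^ 2) * e := by gcongr
  rw [Int.abs_eq_natAbs, Int.abs_eq_natAbs]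
  exact_mod_cast h3

end Twist
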