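import Pool.Agent.W_aaa0df_h86.Basic
import Pool.Agent.W_aaa0df_h86.Conv
import Pool.Agent.W_aaa0df_h86.AbelLog

set_option autoImplicit false

namespace Twist

open Finset Real

/-- The key inequality.
Proof. By `S_conv`, `∑_d (a(d)/d) R(t - log d) = ∑_{n ≤ e^t} r(n) log n/n`. On the left write
`R(s) = L s + k + E(s)` with `s = t - log d ∈ [0,t]`: the main part is `L G(t) + k A(t)`, the terms
with `log d ≤ t - τ` have `|E| ≤ b₁`, and those with `t - τ < log d` have `|E| ≤ b₀`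
(their total weight is `A(t) - A(t-τ)`). The right side is `L t²/2 + O(2 t b₁ + τ b₀)` by
`abel_log` with `c n = r n/n`. -/
theorem key {q : ℝ} {χ : ℕ → ℝ} (h : RChar q χ) {L k b₀ b₁ τ t : ℝ} (hτ : 0 ≤ τ) (ht : τ ≤ t)
    (hb₀ : 0 ≤ b₀) (hb₁ : 0 ≤ b₁)
    (h0 : ∀ s, 0 ≤ s → s ≤ τ → |RR χ s - (L * s + k)| ≤ b₀)
    (h1 : ∀ s, τ ≤ s → s ≤ t → |RR χ s - (L * s + k)| ≤ b₁) :
    |L * GG χ t + k * AA χ t - L * t ^ 2 / 2| ≤
      b₁ * AA χ t + b₀ * (AA χ t - AA χ (t - τ)) + 2 * t * b₁ + τ * b₀ := by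
  have hA := abel_log (c := fun n => rr χ n / n) hτ ht hb₀ hb₁ h0 h1
  rw [S_conv h t] at hA
  have hw : ∀ d : ℕ, 0 ≤ aa χ d / d := fun d => div_nonneg (aa_nonneg h d) (Nat.cast_nonneg d)
  have hdiff : |(∑ d ∈ Icc 1 ⌊Real.exp t⌋₊, aa χ d / d * RR χ (t - log d)) -
      (L * GG χ t + k * AA χ t)| ≤ b₁ * AA χ t + b₀ * (AA χ t - AA χ (t - τ)) := by
    have e1 : (∑ d ∈ Icc 1 ⌊Real.exp t⌋₊, aa χ d / d * RR χ (t - log d)) -
        (L * GG χ t + k * AA χ t) = ∑ d ∈ Icc 1 ⌊Real.exp t⌋₊,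
        aa χ d / d * (RR χ (t - log d) - (L * (t - log d) + k)) := by
      unfold GG AA S
      rw [Finset.mul_sum, Finset.mul_sum, ← Finset.sum_add_distrib, ← Finset.sum_sub_distrib]
      refine Finset.sum_congr rfl fun d _ => ?_
      ring
    have e2 : b₁ * AA χ t + b₀ * (AA χ t - AA χ (t - τ)) = ∑ d ∈ Icc 1 ⌊Real.exp t⌋₊,
        aa χ d / d * (b₁ + if t - τ < log d then b₀ else 0) := by
      unfold AA
      rw [S_sub_eq (f := fun n => aa χ n / n) (show t - τ ≤ t by linarith), Finset.sum_filter,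
        Finset.mul_sum]
      unfold S
      rw [Finset.mul_sum, ← Finset.sum_add_distrib]
      refine Finset.sum_congr rfl fun d _ => ?_
      split_ifs <;> ring
    rw [e1, e2]
    refine (Finset.abs_sum_le_sum_abs _ _).trans (Finset.sum_le_sum fun d hd => ?_)
    rw [abs_mul, abs_of_nonneg (hw d)]
    refine mul_le_mul_of_nonneg_left ?_ (hw d)
    have hd1 := mem_S.1 hd
    have hld : 0 ≤ log d := Real.log_nonneg (by exact_mod_cast hd1.1)
    split_ifs with hc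
    · exact (h0 _ (by linarith [hd1.2]) (by linarith)).trans (by linarith)
    · rw [add_zero]
      exact h1 _ (by linarith [not_lt.1 hc]) (by linarith)
  have h5 := abs_le.1 hA
  have h6 := abs_le.1 hdiff
  rw [abs_le]
  constructor <;> linarith

end Twist
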