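import Pool.Agent.W_aaa0df_h86.SplitA
import Pool.Agent.W_MP_aaa0df_nt.Asym

set_option autoImplicit false

namespace Twist

open Finset Real MPaaa0df

lemma splitc_aux1 (d : ℤ) (y : ℝ) : {p : ℕ | p.Prime ∧ (p : ℝ) < y ∧ ¬ ((p : ℤ) ∣ d) ∧
    ∃ x : ℤ, (4 * (p : ℤ)) ∣ x ^ 2 - d}.Finite := by
  apply Set.Finite.subset (Set.finite_Iic ⌊y⌋₊)
  rintro p ⟨_, h, _⟩
  exact Nat.le_floor h.le

lemma splitc_aux2 (d : ℤ) (y : ℝ) (s : Finset ℕ)
    (hs : ∀ p ∈ s, p.Prime ∧ (p : ℝ) < y ∧ ¬ ((p : ℤ) ∣ d) ∧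
      ∃ x : ℤ, (4 * (p : ℤ)) ∣ x ^ 2 - d) : s.card ≤ splitCount d y := by
  unfold splitCount
  rw [← Set.ncard_coe_finset]
  exact Set.ncard_le_ncard (fun p hp => hs p hp) (splitc_aux1 d y)

/-- Each prime inert in `ℚ(√s)`, `d d' = s b²`, not dividing `d d'`, splits in exactly one of the two
fields.
Proof. Let `T` be the set of primes `p ≤ ⌊y⌋` with `chi s p = -1` (so `p ≠ 2`). If `p ∤ d d'` then
`p ∤ b` and `J(d|p) J(d'|p) = J(s|p) J(b|p)² = -1`, so one of the two is `1` and `p` is counted in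
`splitCount d y` or `splitCount d' y` (`split_iff`), unless `p = y` (not `< y`). The number of
`p ∣ d d'` is at most `2 log |d| + 2 log |d'|` (`omega_le`). -/
theorem inert_le_split {d d' : ℤ} (hd : d % 4 = 0 ∨ d % 4 = 1) (hd' : d' % 4 = 0 ∨ d' % 4 = 1)
    (h0 : d ≠ 0) (h0' : d' ≠ 0) {s b : ℕ} (h : d * d' = (s : ℤ) * (b : ℤ) ^ 2) (y : ℝ) :
    (((Icc 1 ⌊y⌋₊).filter (fun p : ℕ => p.Prime ∧ chi s p = -1)).card : ℝ) ≤
      splitCount d y + splitCount d' y + 2 * log |(d : ℝ)| + 2 * log |(d' : ℝ)| + 1 := by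
  classical
  set T := (Icc 1 ⌊y⌋₊).filter (fun p : ℕ => p.Prime ∧ chi s p = -1) with hT
  set T1 := T.filter (fun p : ℕ => (p : ℝ) < y ∧ ¬ ((p : ℤ) ∣ d) ∧
      ∃ x : ℤ, (4 * (p : ℤ)) ∣ x ^ 2 - d) with hT1
  set T2 := T.filter (fun p : ℕ => (p : ℝ) < y ∧ ¬ ((p : ℤ) ∣ d') ∧
      ∃ x : ℤ, (4 * (p : ℤ)) ∣ x ^ 2 - d') with hT2
  set T3 := T.filter (fun p : ℕ => (p : ℤ) ∣ d) with hT3
  set T4 := T.filter (fun p : ℕ => (p : ℤ) ∣ d') with hT4
  have hsub : T ⊆ (T1 ∪ T2) ∪ ((T3 ∪ T4) ∪ {⌊y⌋₊}) := by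
    intro p hp
    have hp' := hp
    rw [hT, mem_filter, mem_Icc] at hp'
    obtain ⟨⟨hp1, hpy⟩, hpp, hchi⟩ := hp'
    by_cases hyy : p = ⌊y⌋₊
    · exact mem_union_right _ (mem_union_right _ (mem_singleton.2 hyy))
    by_cases hdd : (p : ℤ) ∣ d
    · refine mem_union_right _ (mem_union_left _ (mem_union_left _ ?_))
      rw [hT3, mem_filter]; exact ⟨hp, hdd⟩
    by_cases hdd' : (p : ℤ) ∣ d'
    · refine mem_union_right _ (mem_union_left _ (mem_union_right _ ?_))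
      rw [hT4, mem_filter]; exact ⟨hp, hdd'⟩
    have hodd : Odd p := by
      by_contra hno
      unfold chi at hchi
      rw [if_neg hno] at hchi
      norm_num at hchi
    have hp2 : p ≠ 2 := by
      rintro rfl
      exact absurd hodd (by decide)
    have hlt : (p : ℝ) < y := by
      have h1 : p < ⌊y⌋₊ := lt_of_le_of_ne hpy hyy
      have h2 : 0 ≤ y := by
        by_contra hneg
        push Not at hneg
        rw [Nat.floor_of_nonpos hneg.le] at h1
        omega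
      have h3 : ((⌊y⌋₊ : ℕ) : ℝ) ≤ y := Nat.floor_le h2
      have h4 : (p : ℝ) < ((⌊y⌋₊ : ℕ) : ℝ) := by exact_mod_cast h1
      linarith
    have hpr : _root_.Prime (p : ℤ) := Nat.prime_iff_prime_int.1 hpp
    have hb : ¬ ((p : ℤ) ∣ (b : ℤ)) := by
      intro hb
      have h1 : (p : ℤ) ∣ d * d' := by
        rw [h]
        exact (hb.trans (dvd_pow_self _ two_ne_zero)).trans (dvd_mul_left _ _)
      rcases hpr.dvd_or_dvd h1 with h2 | h2
      · exact hdd h2
      · exact hdd' h2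
    have hJ : jacobiSym (s : ℤ) p = -1 := by
      unfold chi at hchi
      rw [if_pos hodd] at hchi
      exact_mod_cast hchi
    have h1 : jacobiSym d p * jacobiSym d' p = -1 := by
      rw [← jacobiSym.mul_left, h, jacobiSym.mul_left, jacobiSym.sq_one' (splita_aux2 hpp hb),
        mul_one, hJ]
    rw [mem_union, mem_union]; left
    rcases jacobiSym.eq_one_or_neg_one (splita_aux2 hpp hdd) with h2 | h2
    · left
      rw [hT1, mem_filter]
      exact ⟨hp, hlt, (split_iff hd hpp hp2).2 h2⟩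
    · right
      rw [hT2, mem_filter]
      refine ⟨hp, hlt, (split_iff hd' hpp hp2).2 ?_⟩
      rw [h2] at h1
      linarith
  have hTp : ∀ p ∈ T, p.Prime := by
    intro p hp
    rw [hT, mem_filter] at hp
    exact hp.2.1
  have c1 : T1.card ≤ splitCount d y := by
    apply splitc_aux2
    intro p hp
    rw [hT1, mem_filter] at hp
    exact ⟨hTp p hp.1, hp.2⟩
  have c2 : T2.card ≤ splitCount d' y := by
    apply splitc_aux2
    intro p hp
    rw [hT2, mem_filter] at hp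
    exact ⟨hTp p hp.1, hp.2⟩
  have c3 : (T3.card : ℝ) ≤ 2 * log |(d : ℝ)| := by
    apply omega_le h0 le_rfl
    intro p hp
    rw [hT3, mem_filter] at hp
    exact ⟨hTp p hp.1, hp.2⟩
  have c4 : (T4.card : ℝ) ≤ 2 * log |(d' : ℝ)| := by
    apply omega_le h0' le_rfl
    intro p hp
    rw [hT4, mem_filter] at hp
    exact ⟨hTp p hp.1, hp.2⟩
  have c5 : T.card ≤ (T1.card + T2.card) + ((T3.card + T4.card) + 1) := by
    calc T.card ≤ ((T1 ∪ T2) ∪ ((T3 ∪ T4) ∪ {⌊y⌋₊})).card := card_le_card hsub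
      _ ≤ (T1 ∪ T2).card + ((T3 ∪ T4) ∪ {⌊y⌋₊}).card := card_union_le _ _
      _ ≤ (T1.card + T2.card) + ((T3 ∪ T4).card + ({⌊y⌋₊} : Finset ℕ).card) :=
          Nat.add_le_add (card_union_le _ _) (card_union_le _ _)
      _ ≤ (T1.card + T2.card) + ((T3.card + T4.card) + 1) := by
          rw [card_singleton]
          exact Nat.add_le_add_left (Nat.add_le_add_right (card_union_le _ _) _) _
  have c5' : (T.card : ℝ) ≤ ((T1.card : ℝ) + T2.card) + ((T3.card + T4.card) + 1) := by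
    exact_mod_cast c5
  have c1' : (T1.card : ℝ) ≤ splitCount d y := by exact_mod_cast c1
  have c2' : (T2.card : ℝ) ≤ splitCount d' y := by exact_mod_cast c2
  linarith

end Twist
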