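import Pool.Agent.W_aaa0df_h86.Inert
import Pool.Agent.W_aaa0df_h86.SplitC
import Pool.Agent.W_aaa0df_h86.KernA

set_option autoImplicit false

namespace Twist

open Finset Real MPaaa0df Filter

/-- `y^b ≥ K (y^a + 1)` eventually when `a < b`, `0 < b`. -/
lemma pair_aux {a b : ℝ} (K : ℝ) (hab : a < b) (hb : 0 < b) :
    ∃ D : ℝ, ∀ y : ℝ, D ≤ y → K * (y ^ a + 1) ≤ y ^ b := by
  have h1 : Tendsto (fun y : ℝ => y ^ (a - b) + y ^ (-b)) atTop (nhds (0 + 0)) := by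
    apply Tendsto.add
    · have := tendsto_rpow_neg_atTop (y := b - a) (by linarith)
      simpa [neg_sub] using this
    · exact tendsto_rpow_neg_atTop hb
  rw [add_zero] at h1
  have hK : (0 : ℝ) < 1 / (|K| + 1) := by positivity
  have h2 := (h1.eventually (gt_mem_nhds hK)).and (eventually_gt_atTop (0 : ℝ))
  obtain ⟨D, hD⟩ := eventually_atTop.1 h2
  refine ⟨D, fun y hy => ?_⟩
  obtain ⟨h3, h4⟩ := hD y hy
  have h5 : y ^ a = y ^ (a - b) * y ^ b := by
    rw [← Real.rpow_add h4]; congr 1; ring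
  have h6 : (1 : ℝ) = y ^ (-b) * y ^ b := by
    rw [← Real.rpow_add h4]; simp
  have h7 : y ^ a + 1 = (y ^ (a - b) + y ^ (-b)) * y ^ b := by
    rw [add_mul, ← h5, ← h6]
  have hyb : 0 < y ^ b := Real.rpow_pos_of_pos h4 b
  have h8 : 0 ≤ y ^ (a - b) + y ^ (-b) := by positivity
  rw [h7]
  have h9 : (y ^ (a - b) + y ^ (-b)) * (|K| + 1) ≤ 1 := by
    rw [lt_div_iff₀ (by positivity)] at h3
    exact h3.le
  have h10 : K * (y ^ (a - b) + y ^ (-b)) ≤ 1 := by
    have : K ≤ |K| + 1 := by linarith [le_abs_self K]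
    nlinarith
  calc K * ((y ^ (a - b) + y ^ (-b)) * y ^ b) = (K * (y ^ (a - b) + y ^ (-b))) * y ^ b := by ring
    _ ≤ 1 * y ^ b := mul_le_mul_of_nonneg_right h10 hyb.le
    _ = y ^ b := one_mul _

/-- Repulsion, pair form.
Proof. `d d' ≠ 0`. By `kernel` (`j = 1`) `d d' = s b²` with `s ≤ e` squarefree, and `s` is not a square
(`s = 1` would make `d d'` a square; a squarefree square is `1`). So `chi s` is an `RChar (4 s)`
(`chi_RChar`). Let `ε' = min ε (1 - 1/A)/2` (also `< 1`), `c', T₀` from `inert_count ε'`, `c = c'/2`,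
`T = log y`: `4 s ≤ 4 y^c ≤ exp (c' T)` for large `y`. Then
`y^(1-ε') ≤ splitCount d y + splitCount d' y + 2 log|d| + 2 log |d'| + 1` (`inert_le_split`),
`log |d|, log |d'| ≤ y^(1/A)`, and `y^(1-ε') - 4 y^(1/A) - 1 ≥ y^(1-ε)` for large `y`, since
`1 - ε' > max (1-ε) (1/A)` and `1 - ε' > 0`. -/
theorem pair (A ε : ℝ) (hA : 1 < A) (hε : 0 < ε) :
    ∃ c : ℝ, 0 < c ∧ ∃ D : ℝ, ∀ d d' : ℤ, (d % 4 = 0 ∨ d % 4 = 1) → (d' % 4 = 0 ∨ d' % 4 = 1) →
      ¬ IsSquare (d * d') → ∀ e k : ℕ, d * d' = (e : ℤ) * (k : ℤ) ^ 2 → ∀ y : ℝ, D ≤ y →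
      log |(d : ℝ)| ^ A ≤ y → log |(d' : ℝ)| ^ A ≤ y → (e : ℝ) ≤ y ^ c →
      y ^ (1 - ε) ≤ splitCount d y + splitCount d' y := by
  have hA0 : 0 < A := by linarith
  have hA1 : 1 / A < 1 := by rw [div_lt_one hA0]; exact hA
  have hA2 : 0 < 1 / A := by positivity
  set ε' : ℝ := min ε (1 - 1 / A) / 2 with hε'
  have hm0 : 0 < min ε (1 - 1 / A) := lt_min hε (by linarith)
  have hm1 : min ε (1 - 1 / A) ≤ ε := min_le_left _ _
  have hm2 : min ε (1 - 1 / A) ≤ 1 - 1 / A := min_le_right _ _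
  have hε'0 : 0 < ε' := by rw [hε']; linarith
  have hε'1 : ε' < 1 := by rw [hε']; linarith
  have hε'ε : ε' < ε := by rw [hε']; linarith
  have hε'A : 1 / A < 1 - ε' := by rw [hε']; linarith
  obtain ⟨c', hc', T₀, hT₀⟩ := inert_count ε' hε'0 hε'1
  refine ⟨c' / 2, by positivity, ?_⟩
  obtain ⟨D1, hD1⟩ := pair_aux (a := 1 / A) (b := 1 - ε') 16 hε'A (by linarith)
  obtain ⟨D2, hD2⟩ := pair_aux (a := 1 - ε) (b := 1 - ε') 4 (by linarith) (by linarith)
  obtain ⟨D3, hD3⟩ := pair_aux (a := 0) (b := c' / 2) 4 (by positivity) (by positivity)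
  refine ⟨max (max (max D1 D2) (max D3 (Real.exp T₀))) 1, ?_⟩
  intro d d' hd hd' hsq e k h y hy hy1 hy2 he
  have hyD1 : D1 ≤ y := le_trans (le_trans (le_max_left _ _) (le_trans (le_max_left _ _) (le_max_left _ _))) hy
  have hyD2 : D2 ≤ y := le_trans (le_trans (le_max_right _ _) (le_trans (le_max_left _ _) (le_max_left _ _))) hy
  have hyD3 : D3 ≤ y := le_trans (le_trans (le_max_left _ _) (le_trans (le_max_right _ _) (le_max_left _ _))) hy
  have hyT : Real.exp T₀ ≤ y := le_trans (le_trans (le_max_right _ _) (le_trans (le_max_right _ _) (le_max_left _ _))) hy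
  have hy1' : 1 ≤ y := le_trans (le_max_right _ _) hy
  have hy0 : 0 < y := by linarith
  have h0 : d * d' ≠ 0 := by
    intro h0; apply hsq; rw [h0]; exact ⟨0, by simp⟩
  have hd0 : d ≠ 0 := left_ne_zero_of_mul h0
  have hd0' : d' ≠ 0 := right_ne_zero_of_mul h0
  obtain ⟨s, b, hs, hse, hb, hx⟩ := kernel (x := d * d') h0 (j := 1) (m := e) (k := k) one_ne_zero
    (by rw [h]; push_cast; ring)
  have hsns : ¬ IsSquare s := by
    rintro ⟨r, hr⟩
    apply hsq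
    refine ⟨(r : ℤ) * b, ?_⟩
    rw [hx, hr]; push_cast; ring
  have hRC := chi_RChar hsns
  have hs0 : s ≠ 0 := hs.ne_zero
  have hs1 : (1 : ℝ) ≤ s := by exact_mod_cast Nat.one_le_iff_ne_zero.2 hs0
  have hT : T₀ ≤ log y := by
    rw [Real.le_log_iff_exp_le hy0]; exact hyT
  have hq : 4 * (s : ℝ) ≤ Real.exp (c' * log y) := by
    have h1 : Real.exp (c' * log y) = y ^ (c' / 2) * y ^ (c' / 2) := by
      rw [← Real.rpow_add hy0, Real.rpow_def_of_pos hy0]
      congr 1; ring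
    have h2 : (s : ℝ) ≤ y ^ (c' / 2) := le_trans (by exact_mod_cast hse) he
    have h3 := hD3 y hyD3
    have h4 : (4 : ℝ) ≤ y ^ (c' / 2) := by
      rw [Real.rpow_zero] at h3; linarith
    rw [h1]
    exact mul_le_mul h4 h2 (by positivity) (by positivity)
  have hcount := hT₀ (log y) hT (4 * (s : ℝ)) (chi s) (by linarith) hq hRC
  rw [Real.exp_log hy0] at hcount
  have hexp : Real.exp ((1 - ε') * log y) = y ^ (1 - ε') := by
    rw [Real.rpow_def_of_pos hy0]; congr 1; ring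
  rw [hexp] at hcount
  have hsplit := inert_le_split hd hd' hd0 hd0' hx y
  have hlog : ∀ d : ℤ, d ≠ 0 → log |(d : ℝ)| ^ A ≤ y → log |(d : ℝ)| ≤ y ^ (1 / A) := by
    intro d hd0 hy
    have h1 : (1 : ℝ) ≤ |(d : ℝ)| := by
      rw [← Int.cast_abs]
      exact_mod_cast Int.one_le_abs hd0
    have h2 : 0 ≤ log |(d : ℝ)| := Real.log_nonneg h1
    calc log |(d : ℝ)| = (log |(d : ℝ)| ^ A) ^ (1 / A) := by
          rw [← Real.rpow_mul h2, mul_one_div, div_self hA0.ne', Real.rpow_one]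
      _ ≤ y ^ (1 / A) := Real.rpow_le_rpow (Real.rpow_nonneg h2 _) hy hA2.le
  have hl1 := hlog d hd0 hy1
  have hl2 := hlog d' hd0' hy2
  have hf1 := hD1 y hyD1
  have hf2 := hD2 y hyD2
  have hpa : 0 ≤ y ^ (1 / A) := Real.rpow_nonneg hy0.le _
  have hpe : 0 ≤ y ^ (1 - ε) := Real.rpow_nonneg hy0.le _
  linarith

end Twist
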