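import Pool.Agent.W_aaa0df_h86.Basic
import Pool.Agent.W_aaa0df_h86.AbelIneq
import Pool.Agent.W_aaa0df_h86.Harm

set_option autoImplicit false

namespace Twist

open Finset Real

/-- exchange of the order of summation over divisors and multiples -/
lemma rsum_swap (f : ℕ → ℕ → ℝ) (N : ℕ) :
    ∑ n ∈ Icc 1 N, ∑ d ∈ n.divisors, f d n =
      ∑ d ∈ Icc 1 N, ∑ m ∈ Icc 1 (N / d), f d (d * m) := by
  have h1 : ∑ n ∈ Icc 1 N, ∑ d ∈ n.divisors, f d n =
      ∑ d ∈ Icc 1 N, ∑ n ∈ (Icc 1 N).filter (fun n => d ∣ n), f d n := by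
    refine Finset.sum_comm' fun n d => ?_
    simp only [mem_Icc, Nat.mem_divisors, mem_filter]
    constructor
    · rintro ⟨⟨h1, h2⟩, h3, h4⟩
      exact ⟨⟨⟨h1, h2⟩, h3⟩, Nat.pos_of_dvd_of_pos h3 h1, (Nat.le_of_dvd h1 h3).trans h2⟩
    · rintro ⟨⟨⟨h1, h2⟩, h3⟩, h4, h5⟩
      exact ⟨⟨h1, h2⟩, h3, by omega⟩
  rw [h1]
  refine Finset.sum_congr rfl fun d hd => ?_
  have hd1 : 0 < d := (mem_Icc.1 hd).1
  refine (Finset.sum_nbij' (fun m => d * m) (fun n => n / d) ?_ ?_ ?_ ?_ ?_).symm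
  · intro m hm
    rw [mem_Icc] at hm
    rw [mem_filter, mem_Icc]
    refine ⟨⟨Nat.mul_pos hd1 hm.1, ?_⟩, dvd_mul_right d m⟩
    calc d * m ≤ d * (N / d) := Nat.mul_le_mul_left d hm.2
      _ ≤ N := Nat.mul_div_le N d
  · intro n hn
    rw [mem_filter, mem_Icc] at hn
    rw [mem_Icc]
    exact ⟨Nat.div_pos (Nat.le_of_dvd hn.1.1 hn.2) hd1, Nat.div_le_div_right hn.1.2⟩
  · intro m _
    exact Nat.mul_div_cancel_left m hd1
  · intro n hn
    rw [mem_filter] at hn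
    exact Nat.mul_div_cancel' hn.2
  · intro m _
    rfl

/-- `R(t) = ∑_{d ≤ e^t} (χ(d)/d) H(e^t/d)`.
Proof. `r n / n = ∑_{d m = n} (χ d/d)(1/m)`; exchange the order of summation;
`m ≤ e^t/d` iff `d m ≤ e^t`. (No property of `χ` is used.) -/
theorem RR_eq (χ : ℕ → ℝ) (t : ℝ) :
    RR χ t = ∑ d ∈ Icc 1 ⌊Real.exp t⌋₊, χ d * (HH (Real.exp t / d) / d) := by
  unfold RR S rr
  have h1 : ∀ n : ℕ, (∑ d ∈ n.divisors, χ d) / (n : ℝ) = ∑ d ∈ n.divisors, χ d / (n : ℝ) :=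
    fun n => Finset.sum_div _ _ _
  simp only [h1]
  rw [rsum_swap (fun d n => χ d / (n : ℝ))]
  refine Finset.sum_congr rfl fun d _ => ?_
  unfold HH
  rw [Nat.floor_div_natCast, Finset.sum_div, Finset.mul_sum]
  refine Finset.sum_congr rfl fun m _ => ?_
  push_cast
  rw [div_div, mul_one_div, mul_comm (m : ℝ) (d : ℝ)]

/-- Abel with `φ(d) = 1/d`. -/
theorem tail_one {q : ℝ} {χ : ℕ → ℝ} (h : RChar q χ) (M N : ℕ) :
    |∑ d ∈ Ioc M N, χ d * (1 / (d : ℝ))| ≤ 2 * q * (1 / ((M : ℝ) + 1)) := by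
  have h1 := abel_ineq (a := χ) h.sum (φ := fun d : ℕ => 1 / (d : ℝ)) (M := M) (N := N)
    (fun n hn _ => by
      have h0 : (0 : ℝ) < n := by exact_mod_cast (by omega : 0 < n)
      push_cast
      exact one_div_le_one_div_of_le h0 (by linarith))
    (fun n _ _ => by positivity) (by positivity)
  push_cast at h1
  exact h1

lemma rsum_head {q : ℝ} {χ : ℕ → ℝ} (h : RChar q χ) (M K : ℕ) (hK : K ≤ 2) :
    |∑ d ∈ Ioc M K, χ d * (log d / (d : ℝ))| ≤ 1 / 2 := by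
  have hnn : ∀ d : ℕ, 0 ≤ log d / (d : ℝ) := fun d =>
    div_nonneg (Real.log_natCast_nonneg d) (Nat.cast_nonneg d)
  calc |∑ d ∈ Ioc M K, χ d * (log d / (d : ℝ))|
      ≤ ∑ d ∈ Ioc M K, |χ d * (log d / (d : ℝ))| := Finset.abs_sum_le_sum_abs _ _
    _ ≤ ∑ d ∈ Ioc M K, log d / (d : ℝ) := by
        refine Finset.sum_le_sum fun d _ => ?_
        rw [abs_mul, abs_of_nonneg (hnn d)]
        exact mul_le_of_le_one_left (hnn d) (h.abs_le_one d)
    _ ≤ ∑ d ∈ Ioc (0 : ℕ) 2, log (d : ℝ) / (d : ℝ) := by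
        refine Finset.sum_le_sum_of_subset_of_nonneg ?_ fun d _ _ => hnn d
        exact Finset.Ioc_subset_Ioc (Nat.zero_le M) hK
    _ ≤ 1 / 2 := by
        have h2 : Ioc (0 : ℕ) 2 = ({1, 2} : Finset ℕ) := by decide
        rw [h2, Finset.sum_pair (by norm_num)]
        have h3 : log 2 ≤ 1 := by
          have := Real.log_le_sub_one_of_pos (x := 2) (by norm_num)
          linarith
        push_cast
        rw [Real.log_one]
        linarith

lemma rsum_tail {q : ℝ} {χ : ℕ → ℝ} (h : RChar q χ) (M N : ℕ) (hM : 2 ≤ M) :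
    |∑ d ∈ Ioc M N, χ d * (log d / (d : ℝ))| ≤
      2 * q * (log ((M : ℝ) + 1) / ((M : ℝ) + 1)) := by
  have h1 := abel_ineq (a := χ) h.sum (φ := fun d : ℕ => log d / (d : ℝ)) (M := M) (N := N)
    (fun n hn _ => by
      have h0 : Real.exp 1 ≤ (n : ℝ) := by
        have h3 : (3 : ℝ) ≤ n := by exact_mod_cast (by omega : 3 ≤ n)
        have := Real.exp_one_lt_d9
        linarith
      push_cast
      exact Real.log_div_self_antitoneOn (by simpa using h0) (by simp; linarith) (by linarith))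
    (fun n _ _ => div_nonneg (Real.log_natCast_nonneg n) (Nat.cast_nonneg n))
    (div_nonneg (Real.log_natCast_nonneg _) (Nat.cast_nonneg _))
  push_cast at h1
  exact h1

/-- Abel with `φ(d) = log d / d`, nonincreasing for `d ≥ 3`
(`Real.log_div_self_antitoneOn`: antitone on `{x | exp 1 ≤ x}`). For `M ≥ 2` directly; for
`M ≤ 1` take out the terms `d = 1` (zero) and `d = 2` (at most `log 2/2 ≤ 1/2`), and use
`M = 2` for the rest; `q ≥ 1`. -/
theorem tail_log {q : ℝ} {χ : ℕ → ℝ} (hq : 1 ≤ q) (h : RChar q χ) (M N : ℕ) :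
    |∑ d ∈ Ioc M N, χ d * (log d / (d : ℝ))| ≤ 4 * q * ((1 + log ((M : ℝ) + 1)) / ((M : ℝ) + 1)) := by
  have hM0 : (0 : ℝ) < (M : ℝ) + 1 := by positivity
  have hlog : 0 ≤ log ((M : ℝ) + 1) := Real.log_nonneg (by linarith [(Nat.cast_nonneg M : (0 : ℝ) ≤ M)])
  rcases Nat.lt_or_ge M 2 with hM | hM
  · have hR : 2 * q ≤ 4 * q * ((1 + log ((M : ℝ) + 1)) / ((M : ℝ) + 1)) := by
      have h1 : 1 / 2 ≤ (1 + log ((M : ℝ) + 1)) / ((M : ℝ) + 1) := by
        rw [div_le_div_iff₀ (by norm_num) hM0]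
        have : (M : ℝ) ≤ 1 := by exact_mod_cast (by omega : M ≤ 1)
        linarith
      have h2 : 4 * q * (1 / 2) ≤ 4 * q * ((1 + log ((M : ℝ) + 1)) / ((M : ℝ) + 1)) :=
        mul_le_mul_of_nonneg_left h1 (by linarith)
      linarith
    refine le_trans ?_ hR
    rcases Nat.lt_or_ge 2 N with hN | hN
    · have h1 := Finset.sum_Ioc_consecutive (fun d : ℕ => χ d * (log d / (d : ℝ)))
        (by omega : M ≤ 2) hN.le
      rw [← h1]
      refine (abs_add_le _ _).trans ?_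
      have h2 := rsum_head h M 2 le_rfl
      have h3 := rsum_tail h 2 N le_rfl
      have h4 : log (((2 : ℕ) : ℝ) + 1) / (((2 : ℕ) : ℝ) + 1) ≤ 2 / 3 := by
        have := Real.log_le_sub_one_of_pos (x := ((2 : ℕ) : ℝ) + 1) (by positivity)
        push_cast at this ⊢
        rw [div_le_div_iff₀ (by norm_num) (by norm_num)]
        linarith
      have h5 : 2 * q * (log (((2 : ℕ) : ℝ) + 1) / (((2 : ℕ) : ℝ) + 1)) ≤ 2 * q * (2 / 3) :=
        mul_le_mul_of_nonneg_left h4 (by linarith)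
      linarith
    · have h2 := rsum_head h M N hN
      linarith
  · refine (rsum_tail h M N hM).trans ?_
    have h1 : log ((M : ℝ) + 1) / ((M : ℝ) + 1) ≤ (1 + log ((M : ℝ) + 1)) / ((M : ℝ) + 1) :=
      div_le_div_of_nonneg_right (by linarith) hM0.le
    have h2 : 0 ≤ (1 + log ((M : ℝ) + 1)) / ((M : ℝ) + 1) := by positivity
    calc 2 * q * (log ((M : ℝ) + 1) / ((M : ℝ) + 1))
        ≤ 2 * q * ((1 + log ((M : ℝ) + 1)) / ((M : ℝ) + 1)) :=
          mul_le_mul_of_nonneg_left h1 (by linarith)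
      _ ≤ 4 * q * ((1 + log ((M : ℝ) + 1)) / ((M : ℝ) + 1)) :=
          mul_le_mul_of_nonneg_right (by linarith) h2

end Twist
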