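import Pool.Agent.W_aaa0df_h86.Chi
import Pool.Agent.W_aaa0df_h86.KernB

set_option autoImplicit false

namespace Twist

open Finset Real MPaaa0df

lemma splita_aux1 {d : ℤ} (hd : d % 4 = 0 ∨ d % 4 = 1) {x : ℤ} (hx : x % 2 = d % 2) :
    (4 : ℤ) ∣ x ^ 2 - d := by
  rcases hd with hd | hd
  · obtain ⟨y, hy⟩ : (2 : ℤ) ∣ x := by omega
    obtain ⟨z, hz⟩ : (4 : ℤ) ∣ d := by omega
    refine ⟨y ^ 2 - z, ?_⟩
    rw [hy, hz]; ring
  · obtain ⟨y, hy⟩ : ∃ y : ℤ, x = 2 * y + 1 := ⟨x / 2, by omega⟩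
    obtain ⟨z, hz⟩ : ∃ z : ℤ, d = 4 * z + 1 := ⟨d / 4, by omega⟩
    refine ⟨y ^ 2 + y - z, ?_⟩
    rw [hy, hz]; ring

lemma splita_aux2 {d : ℤ} {p : ℕ} (hp : p.Prime) (h : ¬ ((p : ℤ) ∣ d)) : d.gcd p = 1 := by
  rw [Int.gcd_comm]
  have h1 : IsCoprime (p : ℤ) d := (Nat.prime_iff_prime_int.1 hp).coprime_iff_not_dvd.2 h
  exact Int.isCoprime_iff_gcd_eq_one.1 h1

/-- For an odd prime `p` and a discriminant `d`: `p` splits iff `(d/p) = 1`.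
Proof. `→`: `d ≡ x² mod p`, `p ∤ d`. `←`: `(d/p) = 1` gives `p ∤ d` and `x₀` with `p ∣ x₀² - d`
(`jacobiSym.isSquare_of_jacobiSym_eq_one`); by CRT (`p` odd; replace `x₀` by `x₀ + p` if needed) choose
`x ≡ x₀ mod p`, `x ≡ d mod 2`; then `x² ≡ d mod 4` since `d ≡ 0, 1 mod 4`. -/
theorem split_iff {d : ℤ} (hd : d % 4 = 0 ∨ d % 4 = 1) {p : ℕ} (hp : p.Prime) (hp2 : p ≠ 2) :
    (¬ ((p : ℤ) ∣ d) ∧ ∃ x : ℤ, (4 * (p : ℤ)) ∣ x ^ 2 - d) ↔ jacobiSym d p = 1 := by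
  have : Fact p.Prime := ⟨hp⟩
  constructor
  · rintro ⟨h1, x, hx⟩
    rcases jacobiSym.eq_one_or_neg_one (splita_aux2 hp h1) with h | h
    · exact h
    · exfalso
      apply ZMod.nonsquare_of_jacobiSym_eq_neg_one h
      refine ⟨(x : ZMod p), ?_⟩
      have h2 : (p : ℤ) ∣ x ^ 2 - d := (dvd_mul_left (p : ℤ) 4).trans hx
      have h3 : ((x ^ 2 - d : ℤ) : ZMod p) = 0 := (ZMod.intCast_zmod_eq_zero_iff_dvd _ _).2 h2
      push_cast at h3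
      linear_combination -h3
  · intro h
    have hnd : ¬ ((p : ℤ) ∣ d) := by
      intro hdvd
      have h0 : jacobiSym d p = 0 := by
        rw [jacobiSym.eq_zero_iff]
        refine ⟨hp.ne_zero, ?_⟩
        intro h2
        have h3 : (p : ℤ) ∣ (d.gcd p : ℤ) := Int.dvd_coe_gcd hdvd (dvd_refl _)
        rw [h2] at h3
        have h4 : (p : ℕ) ∣ 1 := by exact_mod_cast h3
        exact hp.one_lt.ne' (Nat.dvd_one.1 h4)
      rw [h0] at h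
      exact zero_ne_one h
    refine ⟨hnd, ?_⟩
    obtain ⟨r, hr⟩ := ZMod.isSquare_of_jacobiSym_eq_one h
    obtain ⟨x₀, hx₀⟩ : ∃ x₀ : ℤ, (x₀ : ZMod p) = r := ⟨r.val, by simp⟩
    have h1 : (p : ℤ) ∣ x₀ ^ 2 - d := by
      rw [← ZMod.intCast_zmod_eq_zero_iff_dvd]
      push_cast
      rw [hx₀, hr]; ring
    have hodd : (p : ℤ) % 2 = 1 := by
      rcases hp.eq_two_or_odd with h | h
      · exact absurd h hp2
      · omega
    have key : ∃ x : ℤ, (p : ℤ) ∣ x ^ 2 - d ∧ x % 2 = d % 2 := by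
      by_cases hpar : x₀ % 2 = d % 2
      · exact ⟨x₀, h1, hpar⟩
      · refine ⟨x₀ + p, ?_, by omega⟩
        have : (x₀ + (p : ℤ)) ^ 2 - d = (x₀ ^ 2 - d) + p * (2 * x₀ + p) := by ring
        rw [this]
        exact dvd_add h1 (dvd_mul_right _ _)
    obtain ⟨x, hx1, hx2⟩ := key
    refine ⟨x, ?_⟩
    have hcop : IsCoprime (4 : ℤ) (p : ℤ) := by
      have h2 : IsCoprime (2 : ℤ) (p : ℤ) := by
        rw [Int.isCoprime_iff_gcd_eq_one]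
        have : Nat.Coprime 2 p := by
          rw [Nat.coprime_primes Nat.prime_two hp]
          exact fun h => hp2 h.symm
        exact_mod_cast this
      have h4 : (4 : ℤ) = 2 ^ 2 := by norm_num
      rw [h4]
      exact h2.pow_left
    exact hcop.mul_dvd (splita_aux1 hd hx2) hx1

/-- Twisting relation: `(d/p) = (d₀/p) (e/p)` for odd primes `p ∤ d₀` when `d d₀ = e k²`, `d` fundamental.
Proof. `p ∤ k`: otherwise `p² ∣ d d₀`, `p ∤ d₀`, so `p² ∣ d`, impossible (`fund_sq`). Then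
`J(d|p) J(d₀|p) = J(e|p) J(k|p)² = J(e|p)` and `J(d₀|p) = ±1`. -/
theorem twist_rel {d d₀ : ℤ} (hF : Fund d) {e k : ℕ} (h : d * d₀ = (e : ℤ) * (k : ℤ) ^ 2)
    {p : ℕ} (hp : p.Prime) (hp2 : p ≠ 2) (hp₀ : ¬ ((p : ℤ) ∣ d₀)) :
    ((jacobiSym d p : ℤ) : ℝ) = ((jacobiSym d₀ p : ℤ) : ℝ) * chi e p := by
  have hpk : ¬ ((p : ℤ) ∣ (k : ℤ)) := by
    intro hk
    have h1 : (p : ℤ) ^ 2 ∣ d * d₀ := by
      rw [h]
      exact (pow_dvd_pow_of_dvd hk 2).trans (dvd_mul_left _ _)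
    have hc : IsCoprime ((p : ℤ) ^ 2) d₀ :=
      ((Nat.prime_iff_prime_int.1 hp).coprime_iff_not_dvd.2 hp₀).pow_left
    exact fund_sq hF hp hp2 (hc.dvd_of_dvd_mul_right h1)
  have hodd : Odd p := hp.odd_of_ne_two hp2
  have h1 : jacobiSym d p * jacobiSym d₀ p = jacobiSym (e : ℤ) p := by
    rw [← jacobiSym.mul_left, h, jacobiSym.mul_left, jacobiSym.sq_one' (splita_aux2 hp hpk), mul_one]
  have h2 : jacobiSym d₀ p ^ 2 = 1 := jacobiSym.sq_one (splita_aux2 hp hp₀)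
  have h3 : jacobiSym d p = jacobiSym d₀ p * jacobiSym (e : ℤ) p := by
    rw [← h1]
    linear_combination -(jacobiSym d p) * h2
  unfold chi
  rw [if_pos hodd, h3]
  push_cast
  rfl

end Twist
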